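import Pool.Agent.V11226.SM.Aft

/-!
# Multiples by numbers with restricted digits: the digits after the point
-/

set_option autoImplicit false

namespace Pool.Agent.V11226.SM

open Finset Pool.Agent.V11226.ETN

/-- The number of the `j ∈ J` such that for every `i` the word of length `k` of the base-`b` digits of
`z i` after the first `j` digits after the point (read as a number) is `w i`. -/
noncomputable def cntA {n : ℕ} (b k : ℕ) (J : Finset ℕ) (z : Fin n → ℝ) (w : Fin n → ℕ) : ℕ :=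
  (J.filter (fun j => ∀ i, ⌊(b : ℝ) ^ (j + k) * z i⌋ % ((b ^ k : ℕ) : ℤ) = (w i : ℤ))).card

theorem cntA_eq {n : ℕ} (b k : ℕ) (J : Finset ℕ) (hb : 2 ≤ b) (z : Fin n → ℝ) (w : Fin n → ℕ) :
    cntA b k J z w =
      (J.filter (fun j => W (b ^ k) (fun j i => (b : ℝ) ^ j * z i) j = w)).card := by
  unfold cntA
  congr 1
  refine filter_congr fun j _ => ?_
  rw [funext_iff]
  refine forall_congr' fun i => ?_
  unfold W
  have h1 := floor_mod (b ^ k) (Nat.pow_pos (by omega)) ((b : ℝ) ^ j * z i)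
  have h2 : ((b ^ k : ℕ) : ℝ) * ((b : ℝ) ^ j * z i) = (b : ℝ) ^ (j + k) * z i := by
    push_cast
    rw [pow_add]
    ring
  rw [h2] at h1
  rw [← h1]
  exact Nat.cast_inj

open Classical in
/-- The general theorem for the digits after the point. -/
theorem genA (a b : ℕ) (ha : 2 ≤ a) (hb : 2 ≤ b) (n : ℕ) (α : Fin n → ℝ) (c : ℝ) (hc : 0 < c)
    (K : ℕ) (hα : ∀ H : Fin n → ℤ, H ≠ 0 → ∀ p : ℤ,
      c / (∑ i, |(H i : ℝ)|) ^ K ≤ |∑ i, (H i : ℝ) * α i - p|) (k : ℕ) (hk : 1 ≤ k) :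
    ∃ C : ℝ, 0 < C ∧ ∀ ε : ℝ, 0 < ε → ε ≤ 1 → ∀ N : ℕ, 1 ≤ N → ∀ D : ℕ → Finset ℕ,
      (∀ i, D i ⊆ range a ∧ 2 ≤ (D i).card) → ∀ y : Fin n → ℝ, ∀ P : ℕ, ∀ J : Finset ℕ,
      J.Nonempty → (∀ j ∈ J, j < P) →
      (((digs a D N).filter (fun m : ℕ => ∃ w : Fin n → ℕ, (∀ i, w i < b ^ k) ∧
        ε < |(cntA b k J (fun i => y i + (m : ℝ) * α i) w : ℝ) / J.card -
          1 / ((b : ℝ) ^ k) ^ n|)).card : ℝ) ≤
        C / ε ^ (6 * n + 5) * (1 / (J.card : ℝ) + ((P : ℝ) / N) ^ (2 * kap a K)) *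
          ((digs a D N).card : ℝ) := by
  have ha2 : (2 : ℝ) ≤ a := by exact_mod_cast ha
  have ha0 : (0 : ℝ) < a := by linarith
  have hb2 : (2 : ℝ) ≤ b := by exact_mod_cast hb
  have hb0 : (0 : ℝ) < b := by linarith
  have hr0 := rho_pos a ha
  set q : ℕ := b ^ k with hq
  have hq2 : 2 ≤ q := by
    calc 2 ≤ b := hb
      _ = b ^ 1 := (pow_one b).symm
      _ ≤ b ^ k := Nat.pow_le_pow_right (by omega) hk
  have hG0 : 0 < (a.factorial : ℝ) := by exact_mod_cast Nat.factorial_pos a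
  obtain ⟨a0, ha0'⟩ : ∃ a0 : ℕ, (a.factorial : ℝ) ^ K < c * (a : ℝ) ^ a0 := by
    obtain ⟨a0, ha0⟩ := pow_unbounded_of_one_lt ((a.factorial : ℝ) ^ K / c)
      (by linarith : (1 : ℝ) < a)
    refine ⟨a0, ?_⟩
    rw [div_lt_iff₀ hc] at ha0
    linarith
  set C1 : ℝ := (q : ℝ) ^ 3 * 2 ^ (3 * n + 9) with hC1
  have hC1p : 0 < C1 := by positivity
  set C3 : ℝ := a0 + 1 + K * b + K * ((n + 1) * C1) with hC3
  have hC3p : 0 < C3 := by positivity
  have hC31 : 1 ≤ C3 := by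
    have : 0 ≤ (a0 : ℝ) + K * b + K * ((n + 1) * C1) := by positivity
    rw [hC3]; linarith
  set C4 : ℝ := 1 + 1 / rho a * C3 with hC4
  have hC4p : 0 < C4 := by positivity
  refine ⟨16 * (3 * C1) ^ (2 * n) * C4, by positivity, ?_⟩
  intro ε hε0 hε1 N hN D hD y P J hJne hJ
  have hJ1 : 1 ≤ J.card := card_pos.2 hJne
  have hJR : (1 : ℝ) ≤ J.card := by exact_mod_cast hJ1
  have hJ0 : (0 : ℝ) < J.card := by linarith
  have hN0 : (0 : ℝ) < N := by exact_mod_cast hN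
  have hP1 : 1 ≤ P := by
    obtain ⟨j, hj⟩ := hJne
    have := hJ j hj
    omega
  have hP1' : (1 : ℝ) ≤ P := by exact_mod_cast hP1
  have hκ0 : 0 < kap a K := kap_pos a ha K
  have hκ1 : kap a K ≤ 1 / 2 := kap_le a K
  obtain ⟨d, g, τ, hd, hg, hτ, hp1, hp2, hp3, hp4⟩ := params n q hq2 ε hε0 hε1
  have hg1 : (1 : ℝ) ≤ g := by exact_mod_cast hg
  set L : ℕ := (n + 1) * g with hL
  have hL1 : 1 ≤ L := Nat.mul_pos (Nat.succ_pos n) hg
  have hL1' : (1 : ℝ) ≤ L := by exact_mod_cast hL1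
  have hL0' : (0 : ℝ) < L := by linarith
  set A : ℕ := a0 + 1 + K * (b * P + L) with hA
  have hLa : (L : ℝ) ≤ (a : ℝ) ^ L := by
    have h1 : L < a ^ L := Nat.lt_pow_self (by omega)
    exact_mod_cast h1.le
  have hba : (b : ℝ) ^ P ≤ (a : ℝ) ^ (b * P) := by
    have h1 : b < a ^ b := Nat.lt_pow_self (by omega)
    have h2 : (b : ℝ) ≤ (a : ℝ) ^ b := by exact_mod_cast h1.le
    rw [pow_mul]
    exact pow_le_pow_left₀ hb0.le h2 P
  set X : ℝ := (a.factorial : ℝ) * (b : ℝ) ^ P * L with hX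
  have hX0 : 0 < X := by positivity
  set η : ℝ := c / X ^ K with hη
  have hη0 : 0 < η := by positivity
  have hηA : 1 ≤ η * (a : ℝ) ^ A := by
    rw [hη, div_mul_eq_mul_div, one_le_div (by positivity)]
    have h1 : (a : ℝ) ^ A = (a : ℝ) ^ a0 * a * ((a : ℝ) ^ (b * P) * (a : ℝ) ^ L) ^ K := by
      rw [hA, ← pow_add, ← pow_mul, ← pow_succ, ← pow_add]
      congr 1; ring
    have h2 : X ^ K ≤ (a.factorial : ℝ) ^ K * ((a : ℝ) ^ (b * P) * (a : ℝ) ^ L) ^ K := by
      rw [← mul_pow]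
      refine pow_le_pow_left₀ hX0.le ?_ K
      rw [hX, mul_assoc]
      refine mul_le_mul_of_nonneg_left ?_ hG0.le
      exact mul_le_mul hba hLa hL0'.le (by positivity)
    calc X ^ K ≤ (a.factorial : ℝ) ^ K * ((a : ℝ) ^ (b * P) * (a : ℝ) ^ L) ^ K := h2
      _ ≤ (c * (a : ℝ) ^ a0) * ((a : ℝ) ^ (b * P) * (a : ℝ) ^ L) ^ K :=
          mul_le_mul_of_nonneg_right ha0'.le (by positivity)
      _ ≤ (c * (a : ℝ) ^ a0) * ((a : ℝ) ^ (b * P) * (a : ℝ) ^ L) ^ K * a :=
          le_mul_of_one_le_right (by positivity) (by linarith)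
      _ = c * (a : ℝ) ^ A := by rw [h1]; ring
  set E : ℝ := (J.card + (J.card : ℝ) ^ 2 * (1 / rho a * ((A : ℝ) / N) ^ (2 * kap a K))) *
        ((digs a D N).card : ℝ) with hEd
  have hE0 : 0 ≤ E := by
    rw [hEd]
    refine mul_nonneg (by positivity) (Nat.cast_nonneg _)
  have hE : ∀ u ∈ (box n g).erase 0,
      ∑ m ∈ digs a D N, ‖∑ j ∈ J, e (∑ i, (u i : ℝ) *
        ((b : ℝ) ^ j * (y i + (m : ℝ) * α i)))‖ ^ 2 ≤ E := by
    intro u hu
    rw [mem_erase] at hu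
    obtain ⟨hu0, hub⟩ := hu
    unfold box at hub
    rw [Fintype.mem_piFinset] at hub
    have hug : ∀ i, |(u i : ℝ)| ≤ g := by
      intro i
      have h1 := mem_Icc.1 (hub i)
      rw [abs_le]
      constructor
      · have h2 : ((-(g : ℤ) : ℤ) : ℝ) ≤ (u i : ℝ) := by exact_mod_cast h1.1
        push_cast at h2
        exact h2
      · have h2 : (u i : ℝ) ≤ (((g : ℤ) : ℤ) : ℝ) := by exact_mod_cast h1.2
        push_cast at h2
        exact h2
    have hu1 : ∑ i, |(u i : ℝ)| ≤ L := by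
      calc ∑ i, |(u i : ℝ)| ≤ ∑ _i : Fin n, (g : ℝ) := sum_le_sum fun i _ => hug i
        _ = n * g := by simp
        _ ≤ (n + 1) * g := by nlinarith
        _ = (L : ℝ) := by rw [hL]; push_cast; ring
    set s : ℝ := ∑ i, (u i : ℝ) * α i with hs
    have hdio : ∀ j ∈ J, ∀ j' ∈ J, j ≠ j' → ∀ (f : ℕ) (p : ℤ),
        η / ((a : ℝ) ^ f) ^ K ≤
          |(a.factorial : ℝ) * ((a : ℝ) ^ f * ((b : ℝ) ^ j * s - (b : ℝ) ^ j' * s)) - p| := by
      intro j hj j' hj' hjj f p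
      set v : ℤ := (a.factorial : ℤ) * (a : ℤ) ^ f * ((b : ℤ) ^ j - (b : ℤ) ^ j') with hv
      have hv0 : v ≠ 0 := by
        rw [hv]
        refine mul_ne_zero (mul_ne_zero ?_ ?_) ?_
        · exact_mod_cast (Nat.factorial_pos a).ne'
        · have : (a : ℤ) ≠ 0 := by omega
          exact pow_ne_zero _ this
        · rw [sub_ne_zero]
          intro h
          have h1 : b ^ j = b ^ j' := by exact_mod_cast h
          exact hjj (Nat.pow_right_injective hb h1)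
      have h1 := hα (fun i => v * u i) (by
        intro h
        apply hu0
        funext i
        have h2 := congrFun h i
        simp only [Pi.zero_apply, mul_eq_zero] at h2
        rcases h2 with h3 | h3
        · exact absurd h3 hv0
        · exact h3) p
      have h2 : ∑ i, ((v * u i : ℤ) : ℝ) * α i =
          (a.factorial : ℝ) * ((a : ℝ) ^ f * ((b : ℝ) ^ j * s - (b : ℝ) ^ j' * s)) := by
        have h3 : ∑ i, ((v * u i : ℤ) : ℝ) * α i = (v : ℝ) * s := by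
          rw [hs, mul_sum]
          refine sum_congr rfl fun i _ => ?_
          push_cast; ring
        rw [h3, hv]
        push_cast
        ring
      rw [h2] at h1
      refine le_trans ?_ h1
      rw [hη, div_div]
      have h3 : ∑ i, |((v * u i : ℤ) : ℝ)| = |(v : ℝ)| * ∑ i, |(u i : ℝ)| := by
        rw [mul_sum]
        refine sum_congr rfl fun i _ => ?_
        push_cast
        rw [abs_mul]
      have h4 : 0 < ∑ i, |(u i : ℝ)| := by
        obtain ⟨i, hi⟩ : ∃ i, u i ≠ 0 := by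
          by_contra hcon
          push Not at hcon
          exact hu0 (funext hcon)
        refine sum_pos' (fun _ _ => abs_nonneg _) ⟨i, mem_univ i, ?_⟩
        rw [abs_pos]
        exact_mod_cast hi
      have h5 : 0 < |(v : ℝ)| := by
        rw [abs_pos]
        exact_mod_cast hv0
      have h6 : |(v : ℝ)| ≤ (a.factorial : ℝ) * (a : ℝ) ^ f * (b : ℝ) ^ P := by
        rw [hv]
        push_cast
        rw [abs_mul, abs_of_pos (by positivity : (0 : ℝ) < (a.factorial : ℝ) * (a : ℝ) ^ f)]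
        refine mul_le_mul_of_nonneg_left ?_ (by positivity)
        have h7 : (b : ℝ) ^ j ≤ (b : ℝ) ^ P := pow_le_pow_right₀ (by linarith) (hJ j hj).le
        have h8 : (b : ℝ) ^ j' ≤ (b : ℝ) ^ P := pow_le_pow_right₀ (by linarith) (hJ j' hj').le
        have h9 : 0 < (b : ℝ) ^ j := by positivity
        have h10 : 0 < (b : ℝ) ^ j' := by positivity
        rw [abs_le]
        constructor <;> linarith
      rw [h3]
      refine div_le_div_of_nonneg_left hc.le (by positivity) ?_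
      rw [← mul_pow]
      refine pow_le_pow_left₀ (by positivity) ?_ K
      calc |(v : ℝ)| * ∑ i, |(u i : ℝ)| ≤
            ((a.factorial : ℝ) * (a : ℝ) ^ f * (b : ℝ) ^ P) * L :=
            mul_le_mul h6 hu1 h4.le (by positivity)
        _ = X * (a : ℝ) ^ f := by rw [hX]; ring
    have h1 := second_powT a ha D (fun i => (hD i).1) (fun i => (hD i).2)
      (fun j => (b : ℝ) ^ j * ∑ i, (u i : ℝ) * y i) (fun j => (b : ℝ) ^ j * s) η hη0 K J hdio A
      (by omega) hηA N hN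
    refine le_trans (le_of_eq ?_) h1
    refine sum_congr rfl fun m _ => ?_
    congr 2
    refine sum_congr rfl fun j _ => ?_
    congr 1
    rw [hs, mul_sum, mul_sum, mul_sum, ← sum_add_distrib]
    refine sum_congr rfl fun i _ => ?_
    ring
  set bad := (digs a D N).filter (fun m : ℕ => ∃ w : Fin n → ℕ, (∀ i, w i < b ^ k) ∧
        ε < |(cntA b k J (fun i => y i + (m : ℝ) * α i) w : ℝ) / J.card -
          1 / ((b : ℝ) ^ k) ^ n|) with hbad
  have hmk := markov (digs a D N) bad (filter_subset _ _) n q d g τ ε (by omega) hd hg hτ hp1 hp2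
    hε0 hε1 hp3 J hJne (fun m j i => (b : ℝ) ^ j * (y i + (m : ℝ) * α i)) E hE0 hE (by
      intro m hm
      obtain ⟨w, hw, hlt⟩ := (mem_filter.1 hm).2
      refine ⟨w, hw, ?_⟩
      rw [cntA_eq b k J hb] at hlt
      have h2 : ((q : ℕ) : ℝ) ^ n = ((b : ℝ) ^ k) ^ n := by rw [hq]; push_cast; rfl
      rw [h2]
      exact hlt)
  have hgε : (g : ℝ) ≤ C1 / ε ^ 3 := hp4
  have hε3 : ε ^ 3 ≤ 1 := pow_le_one₀ hε0.le hε1
  have hε3p : 0 < ε ^ 3 := by positivity
  have hcb : ((box n g).card : ℝ) ≤ (3 * C1 / ε ^ 3) ^ n := by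
    rw [card_box]
    push_cast
    refine pow_le_pow_left₀ (by positivity) ?_ n
    have : 3 * C1 / ε ^ 3 = 3 * (C1 / ε ^ 3) := by ring
    rw [this]
    linarith
  have hAε : (A : ℝ) ≤ C3 / ε ^ 3 * P := by
    rw [div_mul_eq_mul_div, le_div_iff₀ hε3p]
    rw [le_div_iff₀ hε3p] at hgε
    have h1 : (A : ℝ) = a0 + 1 + K * (b * P) + K * ((n + 1) * g) := by
      rw [hA, hL]; push_cast; ring
    have h2 : ((a0 : ℝ) + 1 + K * (b * P)) * ε ^ 3 ≤ (a0 + 1 + K * b) * P := by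
      calc ((a0 : ℝ) + 1 + K * (b * P)) * ε ^ 3 ≤ (a0 : ℝ) + 1 + K * (b * P) :=
            mul_le_of_le_one_right (by positivity) hε3
        _ ≤ (a0 + 1) * P + K * (b * P) := by
            have : ((a0 : ℝ) + 1) * 1 ≤ (a0 + 1) * P :=
              mul_le_mul_of_nonneg_left hP1' (by positivity)
            linarith
        _ = _ := by ring
    have h3 : (K * ((n + 1) * (g : ℝ))) * ε ^ 3 ≤ K * ((n + 1) * C1) * P := by
      calc (K * ((n + 1) * (g : ℝ))) * ε ^ 3 = K * ((n + 1) * (g * ε ^ 3)) := by ring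
        _ ≤ K * ((n + 1) * C1) := by
            refine mul_le_mul_of_nonneg_left ?_ (by positivity)
            exact mul_le_mul_of_nonneg_left hgε (by positivity)
        _ ≤ K * ((n + 1) * C1) * P := le_mul_of_one_le_right (by positivity) hP1'
    rw [h1, add_mul, hC3, add_mul _ (K * ((n + 1) * C1)) (P : ℝ)]
    linarith
  have hpow : ((A : ℝ) / N) ^ (2 * kap a K) ≤
      C3 / ε ^ 3 * ((P : ℝ) / N) ^ (2 * kap a K) := by
    have h1 : (A : ℝ) / N ≤ C3 / ε ^ 3 * ((P : ℝ) / N) := by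
      rw [← mul_div_assoc]
      exact div_le_div_of_nonneg_right hAε hN0.le
    have h2 : 1 ≤ C3 / ε ^ 3 := by
      rw [le_div_iff₀ hε3p]; linarith
    calc ((A : ℝ) / N) ^ (2 * kap a K) ≤ (C3 / ε ^ 3 * ((P : ℝ) / N)) ^ (2 * kap a K) :=
          Real.rpow_le_rpow (by positivity) h1 (by linarith)
      _ = (C3 / ε ^ 3) ^ (2 * kap a K) * ((P : ℝ) / N) ^ (2 * kap a K) :=
          Real.mul_rpow (by positivity) (by positivity)
      _ ≤ (C3 / ε ^ 3) * ((P : ℝ) / N) ^ (2 * kap a K) := by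
          refine mul_le_mul_of_nonneg_right ?_ (by positivity)
          calc (C3 / ε ^ 3) ^ (2 * kap a K) ≤ (C3 / ε ^ 3) ^ (1 : ℝ) :=
                Real.rpow_le_rpow_of_exponent_le h2 (by linarith)
            _ = C3 / ε ^ 3 := Real.rpow_one _
  set Z : ℝ := ((P : ℝ) / N) ^ (2 * kap a K) with hZ
  have hZ0 : 0 ≤ Z := by positivity
  have hEb : E ≤ (J.card : ℝ) ^ 2 * (C4 / ε ^ 3) * (1 / (J.card : ℝ) + Z) *
      ((digs a D N).card : ℝ) := by
    rw [hEd]
    refine mul_le_mul_of_nonneg_right ?_ (Nat.cast_nonneg _)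
    have h1 : (J.card : ℝ) + (J.card : ℝ) ^ 2 * (1 / rho a * ((A : ℝ) / N) ^ (2 * kap a K)) ≤
        (J.card : ℝ) ^ 2 * (1 / (J.card : ℝ) + 1 / rho a * (C3 / ε ^ 3 * Z)) := by
      have h2 : (J.card : ℝ) ^ 2 * (1 / (J.card : ℝ) + 1 / rho a * (C3 / ε ^ 3 * Z)) =
          J.card + (J.card : ℝ) ^ 2 * (1 / rho a * (C3 / ε ^ 3 * Z)) := by
        field_simp
      rw [h2]
      have h3 : 1 / rho a * ((A : ℝ) / N) ^ (2 * kap a K) ≤ 1 / rho a * (C3 / ε ^ 3 * Z) :=
        mul_le_mul_of_nonneg_left hpow (by positivity)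
      have h4 := mul_le_mul_of_nonneg_left h3 (sq_nonneg (J.card : ℝ))
      linarith
    refine h1.trans ?_
    rw [mul_assoc]
    refine mul_le_mul_of_nonneg_left ?_ (sq_nonneg _)
    have h9 : C4 / ε ^ 3 * (1 / (J.card : ℝ) + Z) = C4 * (1 / (J.card : ℝ) + Z) / ε ^ 3 := by ring
    rw [h9, le_div_iff₀ hε3p]
    have h5 : (1 / (J.card : ℝ) + 1 / rho a * (C3 / ε ^ 3 * Z)) * ε ^ 3 =
        1 / (J.card : ℝ) * ε ^ 3 + 1 / rho a * C3 * Z := by
      field_simp
    rw [h5, hC4]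
    have h6 : 1 / (J.card : ℝ) * ε ^ 3 ≤ 1 / (J.card : ℝ) :=
      mul_le_of_le_one_right (by positivity) hε3
    have h7 : 0 ≤ 1 / rho a * C3 * (1 / (J.card : ℝ)) := by positivity
    have h8 : (1 + 1 / rho a * C3) * (1 / (J.card : ℝ) + Z) =
        1 / (J.card : ℝ) + Z + 1 / rho a * C3 * (1 / (J.card : ℝ)) + 1 / rho a * C3 * Z := by ring
    rw [h8]
    linarith
  have hfin : (bad.card : ℝ) * (ε * J.card / 4) ^ 2 ≤
      ((3 * C1 / ε ^ 3) ^ n) ^ 2 * ((J.card : ℝ) ^ 2 * (C4 / ε ^ 3) * (1 / (J.card : ℝ) + Z) *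
      ((digs a D N).card : ℝ)) := by
    refine hmk.trans ?_
    exact mul_le_mul (pow_le_pow_left₀ (Nat.cast_nonneg _) hcb 2) hEb hE0 (by positivity)
  have hpos : 0 < (ε * J.card / 4) ^ 2 := by positivity
  rw [← le_div_iff₀ hpos] at hfin
  refine hfin.trans (le_of_eq ?_)
  have h1 : ε ^ (6 * n + 5) = (ε ^ 3) ^ (2 * n) * ε ^ 3 * ε ^ 2 := by
    rw [← pow_mul, ← pow_add, ← pow_add]; congr 1; ring
  rw [h1, ← pow_mul, div_pow, mul_comm n 2]
  field_simp
  norm_num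

end Pool.Agent.V11226.SM
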