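import Pool.Agent.V11226.SM.Qual
import Pool.Agent.V11226.SM.Fin2
import Pool.Agent.TH419.WI.ArithF

/-!
# Multiples of algebraic tuples by numbers with restricted digits: all places up to `A N`
-/

set_option autoImplicit false

namespace Pool.Agent.V11226.SM

open Finset Pool.Agent.V11226.ETN

theorem primeFactors_pow_sub (a f : ℕ) (ha : a ≠ 0) : (a ^ f).primeFactors ⊆ a.primeFactors := by
  intro p hp
  rw [Nat.mem_primeFactors] at hp ⊢
  exact ⟨hp.1, hp.1.dvd_of_dvd_pow hp.2.1, ha⟩

theorem smooth_mul_pow (a b f l : ℕ) (ha : a ≠ 0) (hb : b ≠ 0) :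
    Pool.Agent.TH419.WI.Smooth (a * b).primeFactors (a ^ f * b ^ l) := by
  refine ⟨mul_ne_zero (pow_ne_zero _ ha) (pow_ne_zero _ hb), ?_⟩
  rw [Nat.primeFactors_mul (pow_ne_zero _ ha) (pow_ne_zero _ hb), Nat.primeFactors_mul ha hb]
  exact union_subset_union (primeFactors_pow_sub a f ha) (primeFactors_pow_sub b l hb)

theorem card_diag_le (J : Finset ℕ) :
    ((J ×ˢ J).filter (fun x : ℕ × ℕ => x.1 = x.2)).card ≤ J.card := by
  refine card_le_card_of_injOn Prod.fst ?_ ?_
  · intro x hx
    have := mem_filter.1 (mem_coe.1 hx)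
    exact mem_coe.2 (mem_product.1 this.1).1
  · intro x hx x' hx' h
    have h1 := (mem_filter.1 (mem_coe.1 hx)).2
    have h2 := (mem_filter.1 (mem_coe.1 hx')).2
    ext
    · exact h
    · rw [← h1, ← h2]; exact h

open Classical in
theorem qalg (a b : ℕ) (ha : 2 ≤ a) (hb : 2 ≤ b) (n : ℕ) (α : Fin n → ℝ)
    (halg : ∀ j, IsAlgebraic ℚ (α j))
    (hind : ∀ H : Fin n → ℤ, H ≠ 0 → Irrational (∑ j, (H j : ℝ) * α j)) (k : ℕ) (hk : 1 ≤ k)
    (A : ℕ) (ε η : ℝ) (hε0 : 0 < ε) (hε1 : ε ≤ 1) (hη : 0 < η) :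
    ∃ N₀ J₀ : ℕ, ∀ N : ℕ, N₀ ≤ N → ∀ D : ℕ → Finset ℕ,
      (∀ i, D i ⊆ range a ∧ 2 ≤ (D i).card) → ∀ J : Finset ℕ, J₀ ≤ J.card →
      (∀ j ∈ J, j < A * N) → ∀ y : Fin n → ℝ,
      (((digs a D N).filter (fun m : ℕ => ∃ w : Fin n → ℕ, (∀ i, w i < b ^ k) ∧
        ε < |(cntA b k J (fun i => y i + (m : ℝ) * α i) w : ℝ) / J.card -
          1 / ((b : ℝ) ^ k) ^ n|)).card : ℝ) ≤ η * ((digs a D N).card : ℝ) := by
  have ha2 : (2 : ℝ) ≤ a := by exact_mod_cast ha
  have ha0 : (0 : ℝ) < a := by linarith
  have hb2 : (2 : ℝ) ≤ b := by exact_mod_cast hb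
  have hb0 : (0 : ℝ) < b := by linarith
  have hr0 := rho_pos a ha
  have hr1 := rho_lt a ha
  set q : ℕ := b ^ k with hq
  have hq2 : 2 ≤ q := by
    calc 2 ≤ b := hb
      _ = b ^ 1 := (pow_one b).symm
      _ ≤ b ^ k := Nat.pow_le_pow_right (by omega) hk
  obtain ⟨d, g, τ, hd, hg, hτ, hp1, hp2, hp3, -⟩ := params n q hq2 ε hε0 hε1
  set B : ℝ := 16 * (((box n g).card : ℝ)) ^ 2 / ε ^ 2 with hB
  have hbox : (0 : ℝ) < ((box n g).card : ℝ) := by
    exact_mod_cast card_pos.2 ⟨0, zero_mem_box n g⟩
  have hB0 : 0 < B := by rw [hB]; exact div_pos (mul_pos (by norm_num) (pow_pos hbox 2)) (by positivity)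
  obtain ⟨K, hK⟩ : ∃ K : ℕ, rho a ^ K < η / (2 * B) :=
    exists_pow_lt_of_lt_one (by positivity) hr1
  obtain ⟨J₀, hJ₀⟩ := exists_nat_gt (2 * B / η)
  have hJ₀p : (0 : ℝ) < J₀ := lt_trans (by positivity) hJ₀
  set δ : ℝ := 1 / (4 * ((K : ℝ) + 1)) with hδ
  have hK0 : (0 : ℝ) ≤ K := Nat.cast_nonneg K
  have hδ0 : 0 < δ := by positivity
  have hla : 0 ≤ Real.log a := Real.log_nonneg (by linarith)
  have hlb : 0 ≤ Real.log b := Real.log_nonneg (by linarith)
  obtain ⟨L0, hL0⟩ := Pool.Agent.TH419.WI.arithF α halg (a * b).primeFactors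
    (fun p hp => Nat.prime_of_mem_primeFactors hp) (2 * n) (a.factorial * g)
    (Real.log a + A * Real.log b) δ (by positivity) hδ0
  refine ⟨max L0 (4 * K + 4), J₀, ?_⟩
  intro N hN D hD J hJc hJ y
  have hN1 : L0 ≤ N := le_of_max_le_left hN
  have hN2 : 4 * K + 4 ≤ N := le_of_max_le_right hN
  have hN2' : 4 * (K : ℝ) + 4 ≤ N := by exact_mod_cast hN2
  have hN0 : (0 : ℝ) < N := by linarith
  have hJcR : (J₀ : ℝ) ≤ J.card := by exact_mod_cast hJc
  have hJ0 : (0 : ℝ) < J.card := by linarith
  have hJne : J.Nonempty := by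
    rw [← card_pos]
    exact_mod_cast hJ0
  -- the length of the windows
  set w : ℕ := ⌈2 * δ * N⌉₊ with hw
  have hw1 : 2 * δ * N ≤ w := Nat.le_ceil _
  have hw2 : (w : ℝ) < 2 * δ * N + 1 := Nat.ceil_lt_add_one (by positivity)
  have hKw : K * (w + 1) ≤ N := by
    have h1 : (K : ℝ) * (w + 1) ≤ N := by
      have h2 : (K : ℝ) * (w + 1) ≤ K * (2 * δ * N + 2) :=
        mul_le_mul_of_nonneg_left (by linarith) hK0
      have h3 : (K : ℝ) * (2 * δ) ≤ 1 / 2 := by
        rw [hδ]
        rw [show (K : ℝ) * (2 * (1 / (4 * ((K : ℝ) + 1)))) = (2 * K) / (4 * ((K : ℝ) + 1)) by ring]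
        rw [div_le_div_iff₀ (by positivity) (by norm_num)]
        linarith
      have h4 : (K : ℝ) * (2 * δ * N + 2) = (K * (2 * δ)) * N + 2 * K := by ring
      have h5 : (K * (2 * δ)) * (N : ℝ) ≤ 1 / 2 * N := mul_le_mul_of_nonneg_right h3 hN0.le
      linarith
    exact_mod_cast h1
  have haw : 1 / (a : ℝ) ^ w ≤ Real.exp (-(δ * N)) := by
    rw [Real.exp_neg, one_div]
    refine inv_anti₀ (Real.exp_pos _) ?_
    have h1 : Real.exp (δ * N) ≤ (2 : ℝ) ^ (w : ℝ) := by
      rw [Real.rpow_def_of_pos (by norm_num : (0 : ℝ) < 2)]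
      apply Real.exp_le_exp.2
      have h2 : (1 : ℝ) / 2 ≤ Real.log 2 := by
        have := Real.log_two_gt_d9
        linarith
      have h3 : Real.log 2 * (w : ℝ) ≥ 1 / 2 * w :=
        mul_le_mul_of_nonneg_right h2 (Nat.cast_nonneg _)
      linarith
    rw [Real.rpow_natCast] at h1
    exact h1.trans (pow_le_pow_left₀ (by norm_num) ha2 w)
  set ζ : ℝ := 1 / (J.card : ℝ) + rho a ^ K with hζ
  have hζ0 : 0 ≤ ζ := by positivity
  set bad := (digs a D N).filter (fun m : ℕ => ∃ w : Fin n → ℕ, (∀ i, w i < b ^ k) ∧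
        ε < |(cntA b k J (fun i => y i + (m : ℝ) * α i) w : ℝ) / J.card -
          1 / ((b : ℝ) ^ k) ^ n|) with hbad
  have hmk := conclude a D N bad (filter_subset _ _) n q d g τ ε ζ (by omega) hd hg hτ hp1 hp2
    hε0 hε1 hζ0 hp3 J hJne (fun m j i => (b : ℝ) ^ j * (y i + (m : ℝ) * α i)) ?_ (by
      intro m hm
      obtain ⟨w, hw, hlt⟩ := (mem_filter.1 hm).2
      refine ⟨w, hw, ?_⟩
      rw [cntA_eq b k J hb] at hlt
      have h2 : ((q : ℕ) : ℝ) ^ n = ((b : ℝ) ^ k) ^ n := by rw [hq]; push_cast; rfl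
      rw [h2]
      exact hlt)
  · refine hmk.trans ?_
    refine mul_le_mul_of_nonneg_right ?_ (Nat.cast_nonneg _)
    have h1 : 16 * (((box n g).card : ℝ)) ^ 2 * ζ / ε ^ 2 = B * ζ := by rw [hB]; ring
    rw [h1, hζ, mul_add]
    have h2 : B * rho a ^ K ≤ η / 2 := by
      calc B * rho a ^ K ≤ B * (η / (2 * B)) := mul_le_mul_of_nonneg_left hK.le hB0.le
        _ = η / 2 := by field_simp
    have h3 : B * (1 / (J.card : ℝ)) ≤ η / 2 := by
      rw [mul_one_div, div_le_div_iff₀ hJ0 (by norm_num)]
      rw [div_lt_iff₀ hη] at hJ₀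
      have h4 := mul_le_mul_of_nonneg_right hJcR hη.le
      linarith
    linarith
  · intro u hu
    rw [mem_erase] at hu
    obtain ⟨hu0, hub⟩ := hu
    unfold box at hub
    rw [Fintype.mem_piFinset] at hub
    have hug : ∀ i, |u i| ≤ (g : ℤ) := by
      intro i
      have h1 := mem_Icc.1 (hub i)
      rw [abs_le]
      exact h1
    set s : ℝ := ∑ i, (u i : ℝ) * α i with hs
    have h1 := secondW a D N (fun j => (b : ℝ) ^ j * ∑ i, (u i : ℝ) * y i)
      (fun j => (b : ℝ) ^ j * s) J (rho a ^ K) (pow_nonneg hr0.le _) (fun j j' => j = j') (by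
        intro j hj j' hj' hjj
        refine pairW a ha D (fun i => (hD i).1) (fun i => (hD i).2) _ w N K N ?_ hKw le_rfl
        intro f hf p
        refine haw.trans ?_
        have hirr : Irrational (∑ x ∈ (univ : Finset (Fin n × Bool)),
            α x.1 * ((((a ^ f * b ^ (if x.2 then j else j') : ℕ) : ℤ) *
              (if x.2 then (a.factorial : ℤ) * u x.1 else -((a.factorial : ℤ) * u x.1)) : ℤ) : ℝ)) := by
          set v : ℤ := (a.factorial : ℤ) * (a : ℤ) ^ f * ((b : ℤ) ^ j - (b : ℤ) ^ j') with hv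
          have hv0 : v ≠ 0 := by
            rw [hv]
            refine mul_ne_zero (mul_ne_zero ?_ ?_) ?_
            · exact_mod_cast (Nat.factorial_pos a).ne'
            · have : (a : ℤ) ≠ 0 := by omega
              exact pow_ne_zero _ this
            · rw [sub_ne_zero]
              intro h
              have h1 : b ^ j = b ^ j' := by exact_mod_cast h
              exact hjj (Nat.pow_right_injective hb h1)
          have h2 := hind (fun i => v * u i) (by
            intro h
            apply hu0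
            funext i
            have h2 := congrFun h i
            simp only [Pi.zero_apply, mul_eq_zero] at h2
            rcases h2 with h3 | h3
            · exact absurd h3 hv0
            · exact h3)
          convert h2 using 1
          rw [Fintype.sum_prod_type]
          refine sum_congr rfl fun i _ => ?_
          rw [Fintype.sum_bool]
          simp only [if_true, Bool.false_eq_true, if_false, hv]
          push_cast
          ring
        have h3 := hL0 N hN1 (Fin n × Bool) univ 1
          (fun x => a ^ f * b ^ (if x.2 then j else j'))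
          (fun x => if x.2 then (a.factorial : ℤ) * u x.1 else -((a.factorial : ℤ) * u x.1))
          (fun x => x.1) (by
            rw [card_univ, Fintype.card_prod, Fintype.card_fin, Fintype.card_bool]
            omega)
          ⟨one_ne_zero, by simp⟩ (by
            push_cast
            exact Real.one_le_exp (by positivity))
          (fun x _ => smooth_mul_pow a b f _ (by omega) (by omega))
          (fun x _ => Nat.one_le_iff_ne_zero.2
            (mul_ne_zero (pow_ne_zero _ (by omega)) (pow_ne_zero _ (by omega))))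
          (fun x _ => by
            have hl : (if x.2 then j else j') ≤ A * N := by
              split_ifs
              · exact (hJ j hj).le
              · exact (hJ j' hj').le
            push_cast
            have e1 : Real.exp ((Real.log a + A * Real.log b) * N) = (a : ℝ) ^ N * (b : ℝ) ^ (A * N) := by
              have h5 : (Real.log a + A * Real.log b) * N =
                  Real.log ((a : ℝ) ^ N * (b : ℝ) ^ (A * N)) := by
                rw [Real.log_mul (by positivity) (by positivity), Real.log_pow, Real.log_pow]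
                push_cast
                ring
              rw [h5, Real.exp_log (by positivity)]
            rw [e1]
            exact mul_le_mul (pow_le_pow_right₀ (by linarith) hf.le)
              (pow_le_pow_right₀ (by linarith) hl) (by positivity) (by positivity))
          (fun x _ => by
            have h5 : |(a.factorial : ℤ) * u x.1| ≤ ((a.factorial * g : ℕ) : ℤ) := by
              rw [abs_mul, abs_of_nonneg (by positivity : (0 : ℤ) ≤ (a.factorial : ℤ))]
              push_cast
              exact mul_le_mul_of_nonneg_left (hug x.1) (by positivity)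
            split_ifs
            · exact h5
            · rw [abs_neg]; exact h5)
          hirr p
        have h4 : ∑ x ∈ (univ : Finset (Fin n × Bool)),
            α x.1 * ((((a ^ f * b ^ (if x.2 then j else j') : ℕ) : ℤ) *
              (if x.2 then (a.factorial : ℤ) * u x.1 else -((a.factorial : ℤ) * u x.1)) : ℤ) : ℝ) =
            (a.factorial : ℝ) * ((a : ℝ) ^ f * ((b : ℝ) ^ j * s - (b : ℝ) ^ j' * s)) := by
          rw [Fintype.sum_prod_type, hs, mul_sum, mul_sum, ← sum_sub_distrib, mul_sum, mul_sum]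
          refine sum_congr rfl fun i _ => ?_
          rw [Fintype.sum_bool]
          simp only [if_true, Bool.false_eq_true, if_false]
          push_cast
          ring
        rw [h4] at h3
        push_cast at h3
        rw [one_mul, one_mul] at h3
        exact h3.le)
    have h2 : (((J ×ˢ J).filter (fun x : ℕ × ℕ => x.1 = x.2)).card : ℝ) ≤ J.card := by
      exact_mod_cast card_diag_le J
    calc ∑ m ∈ digs a D N, ‖∑ j ∈ J, e (∑ i, (u i : ℝ) *
          ((b : ℝ) ^ j * (y i + (m : ℝ) * α i)))‖ ^ 2 =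
        ∑ m ∈ digs a D N, ‖∑ j ∈ J, e ((b : ℝ) ^ j * ∑ i, (u i : ℝ) * y i +
          (m : ℝ) * ((b : ℝ) ^ j * s))‖ ^ 2 := by
          refine sum_congr rfl fun m _ => ?_
          congr 2
          refine sum_congr rfl fun j _ => ?_
          congr 1
          rw [hs, mul_sum, mul_sum, mul_sum, ← sum_add_distrib]
          refine sum_congr rfl fun i _ => ?_
          ring
      _ ≤ (((J ×ˢ J).filter (fun x => x.1 = x.2)).card + (J.card : ℝ) ^ 2 * rho a ^ K) *
          ((digs a D N).card : ℝ) := h1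
      _ ≤ (J.card : ℝ) ^ 2 * ζ * ((digs a D N).card : ℝ) := by
          refine mul_le_mul_of_nonneg_right ?_ (Nat.cast_nonneg _)
          have h3 : (J.card : ℝ) ^ 2 * ζ = J.card + (J.card : ℝ) ^ 2 * rho a ^ K := by
            rw [hζ]; field_simp
          rw [h3]
          linarith

end Pool.Agent.V11226.SM
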