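import Pool.Agent.V11226.ETN.Maj

/-!
# Counting words through exponential sums, several coordinates
-/

set_option autoImplicit false

namespace Pool.Agent.V11226.SM

open Finset Pool.Agent.V11226.ETN

/-- The coefficients of the majorant are bounded by its mean value. -/
theorem norm_coef_le (q w d g : ℕ) (τ : ℝ) (hq : 0 < q) (hd : 0 < d) (hg : 0 < g) (hτ : 0 ≤ τ)
    (u : ℤ) : ‖coef q w d g τ u‖ ≤ τ + (d + 2) / (q * d) := by
  have hq' : (0 : ℝ) < q := by exact_mod_cast hq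
  have hd' : (0 : ℝ) < d := by exact_mod_cast hd
  have hg' : (0 : ℝ) < g := by exact_mod_cast hg
  unfold coef
  refine (norm_add_le _ _).trans (add_le_add ?_ ?_)
  · split_ifs
    · rw [Complex.norm_real, Real.norm_eq_abs, abs_of_nonneg hτ]
    · simpa using hτ
  · set F := (range (d * g + 2 * g) ×ˢ (range g ×ˢ range g)).filter
      (fun x : ℕ × ℕ × ℕ => (x.2.1 : ℤ) - (x.2.2 : ℤ) = u) with hF
    have h1 : F.card ≤ (d * g + 2 * g) * g := by
      have h2 : F.card ≤ (range (d * g + 2 * g) ×ˢ range g).card := by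
        refine card_le_card_of_injOn (fun x => (x.1, x.2.1)) ?_ ?_
        · intro x hx
          have hx' := hx
          simp only [hF, coe_filter, mem_product, mem_range, Set.mem_ofPred_eq] at hx'
          simp only [coe_product, coe_range, Set.mem_prod, Set.mem_Iio]
          exact ⟨hx'.1.1, hx'.1.2.1⟩
        · intro x hx x' hx' hxx
          simp only [hF, coe_filter, mem_product, mem_range, Set.mem_ofPred_eq] at hx hx'
          simp only [Prod.mk.injEq] at hxx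
          have h3 : x.2.2 = x'.2.2 := by
            have h4 := hx.2
            have h5 := hx'.2
            omega
          ext
          · exact hxx.1
          · exact hxx.2
          · exact h3
      rw [card_product, card_range, card_range] at h2
      exact h2
    have h0 : ∀ x ∈ F, ‖(1 / ((q * d * g : ℕ) * g) : ℂ) * e (-((u : ℝ) *
        (((((w * d * g : ℕ) : ℤ) - (g : ℤ) : ℤ) + (x.1 : ℝ)) / (q * d * g : ℕ))))‖ =
        1 / ((q * d * g : ℕ) * g : ℝ) := by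
      intro x _
      rw [norm_mul, norm_e, mul_one, norm_div, norm_one, norm_mul, Complex.norm_natCast,
        Complex.norm_natCast]
    refine (norm_sum_le _ _).trans ?_
    rw [sum_congr rfl h0, sum_const, nsmul_eq_mul]
    calc (F.card : ℝ) * (1 / ((q * d * g : ℕ) * g : ℝ)) ≤
        (((d * g + 2 * g) * g : ℕ) : ℝ) * (1 / ((q * d * g : ℕ) * g : ℝ)) := by
          refine mul_le_mul_of_nonneg_right ?_ (by positivity)
          exact_mod_cast h1
      _ = (d + 2) / (q * d) := by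
          push_cast
          field_simp

/-- The frequencies. -/
noncomputable def box (n g : ℕ) : Finset (Fin n → ℤ) := Fintype.piFinset (fun _ : Fin n => Icc (-(g : ℤ)) g)

theorem box_expand {n : ℕ} (c : Fin n → ℤ → ℂ) (g : ℕ) (x : Fin n → ℝ) :
    ∏ i, P (c i) g (x i) = ∑ u ∈ box n g, (∏ i, c i (u i)) * e (∑ i, (u i : ℝ) * x i) := by
  unfold P box
  rw [Finset.prod_univ_sum]
  refine Finset.sum_congr rfl fun u _ => ?_
  rw [Finset.prod_mul_distrib, e_sum]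

theorem zero_mem_box (n g : ℕ) : (0 : Fin n → ℤ) ∈ box n g := by
  unfold box
  rw [Fintype.mem_piFinset]
  intro i
  rw [mem_Icc]
  constructor <;> simp

theorem card_box (n g : ℕ) : (box n g).card = (2 * g + 1) ^ n := by
  unfold box
  rw [Fintype.card_piFinset, prod_const, Int.card_Icc, card_univ, Fintype.card_fin]
  congr 1
  omega

/-- The word of the point number `j`. -/
noncomputable def W {n : ℕ} (q : ℕ) (x : ℕ → Fin n → ℝ) (j : ℕ) : Fin n → ℕ :=
  fun i => ⌊(q : ℝ) * Int.fract (x j i)⌋₊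

/-- The sum of the exponential sums. -/
noncomputable def SS {n : ℕ} (g : ℕ) (J : Finset ℕ) (x : ℕ → Fin n → ℝ) : ℝ :=
  ∑ u ∈ (box n g).erase 0, ‖∑ j ∈ J, e (∑ i, (u i : ℝ) * x j i)‖

theorem upper {n : ℕ} (q d g : ℕ) (τ : ℝ) (hq : 0 < q) (hd : 0 < d) (hg : 0 < g) (hτ : 0 ≤ τ)
    (h1 : ((q * d : ℕ) : ℝ) ^ 2 ≤ 4 * g * τ) (h2 : d * g + 2 * g ≤ q * d * g) (J : Finset ℕ)
    (x : ℕ → Fin n → ℝ) (w : Fin n → ℕ) :
    ((J.filter (fun j => W q x j = w)).card : ℝ) ≤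
      (τ + (d + 2) / (q * d)) ^ n * (J.card + SS g J x) := by
  have hq' : (0 : ℝ) < q := by exact_mod_cast hq
  have hd' : (0 : ℝ) < d := by exact_mod_cast hd
  set μ : ℝ := τ + (d + 2) / (q * d) with hμ
  have hμ0 : 0 ≤ μ := by positivity
  have hA : ((J.filter (fun j => W q x j = w)).card : ℝ) ≤
      ∑ j ∈ J, ∏ i, φ q (w i) d g τ (x j i) := by
    have h3 : ((J.filter (fun j => W q x j = w)).card : ℝ) =
        ∑ j ∈ J.filter (fun j => W q x j = w), (1 : ℝ) := by simp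
    rw [h3]
    refine (sum_le_sum (g := fun j => ∏ i, φ q (w i) d g τ (x j i)) ?_).trans ?_
    · intro j hj
      have h4 := (mem_filter.1 hj).2
      calc (1 : ℝ) = ∏ _i : Fin n, (1 : ℝ) := by simp
        _ ≤ ∏ i, φ q (w i) d g τ (x j i) := by
            refine prod_le_prod (fun _ _ => zero_le_one) fun i _ => ?_
            have h5 : ⌊(q : ℝ) * Int.fract (x j i)⌋₊ = w i := congrFun h4 i
            have h6 : 0 ≤ (q : ℝ) * Int.fract (x j i) :=
              mul_nonneg hq'.le (Int.fract_nonneg _)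
            rw [Nat.floor_eq_iff h6] at h5
            exact one_le_φ q (w i) d g τ hq hd hg h1 (x j i) h2 h5.1 h5.2
    · refine sum_le_sum_of_subset_of_nonneg (filter_subset _ _) fun j _ _ => ?_
      exact prod_nonneg fun i _ => φ_nonneg q (w i) d g τ hτ _
  refine hA.trans ?_
  have hB : ((∑ j ∈ J, ∏ i, φ q (w i) d g τ (x j i) : ℝ) : ℂ) =
      ∑ u ∈ box n g, (∏ i, coef q (w i) d g τ (u i)) *
        ∑ j ∈ J, e (∑ i, (u i : ℝ) * x j i) := by
    rw [Complex.ofReal_sum]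
    have h3 : ∀ j ∈ J, ((∏ i, φ q (w i) d g τ (x j i) : ℝ) : ℂ) =
        ∑ u ∈ box n g, (∏ i, coef q (w i) d g τ (u i)) * e (∑ i, (u i : ℝ) * x j i) := by
      intro j _
      rw [Complex.ofReal_prod, prod_congr rfl (fun i _ => φ_eq q (w i) d g τ (x j i))]
      exact box_expand (fun i => coef q (w i) d g τ) g (x j)
    rw [sum_congr rfl h3, sum_comm]
    refine sum_congr rfl fun u _ => ?_
    rw [mul_sum]
  have hC : ∑ j ∈ J, ∏ i, φ q (w i) d g τ (x j i) ≤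
      ‖((∑ j ∈ J, ∏ i, φ q (w i) d g τ (x j i) : ℝ) : ℂ)‖ := by
    rw [Complex.norm_real]; exact le_abs_self _
  refine hC.trans ?_
  rw [hB]
  refine (norm_sum_le _ _).trans ?_
  have hD : ∀ u ∈ box n g, ‖(∏ i, coef q (w i) d g τ (u i)) *
      ∑ j ∈ J, e (∑ i, (u i : ℝ) * x j i)‖ ≤
      μ ^ n * ‖∑ j ∈ J, e (∑ i, (u i : ℝ) * x j i)‖ := by
    intro u _
    rw [norm_mul]
    refine mul_le_mul_of_nonneg_right ?_ (norm_nonneg _)
    rw [norm_prod]
    calc ∏ i, ‖coef q (w i) d g τ (u i)‖ ≤ ∏ _i : Fin n, μ :=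
          prod_le_prod (fun _ _ => norm_nonneg _)
            fun i _ => norm_coef_le q (w i) d g τ hq hd hg hτ (u i)
      _ = μ ^ n := by simp
  refine (sum_le_sum hD).trans ?_
  rw [← mul_sum]
  refine mul_le_mul_of_nonneg_left ?_ (by positivity)
  rw [← Finset.add_sum_erase _ _ (zero_mem_box n g)]
  unfold SS
  refine add_le_add ?_ le_rfl
  simp

theorem SS_nonneg {n : ℕ} (g : ℕ) (J : Finset ℕ) (x : ℕ → Fin n → ℝ) : 0 ≤ SS g J x := by
  unfold SS
  exact sum_nonneg fun _ _ => norm_nonneg _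

/-- The deviation. -/
theorem deviation {n : ℕ} (q d g : ℕ) (τ ε : ℝ) (hq : 0 < q) (hd : 0 < d) (hg : 0 < g) (hτ : 0 ≤ τ)
    (h1 : ((q * d : ℕ) : ℝ) ^ 2 ≤ 4 * g * τ) (h2 : d * g + 2 * g ≤ q * d * g)
    (hε0 : 0 ≤ ε) (hε1 : ε ≤ 1)
    (hμ : ((q : ℝ) * (τ + (d + 2) / (q * d))) ^ n ≤ 1 + ε / 2) (J : Finset ℕ)
    (x : ℕ → Fin n → ℝ) (w : Fin n → ℕ) (hw : ∀ i, w i < q) :
    |((J.filter (fun j => W q x j = w)).card : ℝ) - (J.card : ℝ) / (q : ℝ) ^ n| ≤
      ε / 2 * J.card + 2 * SS g J x := by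
  have hq' : (0 : ℝ) < q := by exact_mod_cast hq
  have hq1 : (1 : ℝ) ≤ q := by exact_mod_cast hq
  have hd' : (0 : ℝ) < d := by exact_mod_cast hd
  obtain ⟨N, hNd⟩ : ∃ N : ℝ, N = J.card := ⟨_, rfl⟩
  have hN : (0 : ℝ) ≤ N := by rw [hNd]; exact Nat.cast_nonneg _
  rw [← hNd]
  set μ : ℝ := τ + (d + 2) / (q * d) with hμd
  have hμ0 : 0 ≤ μ := by positivity
  have hμ1 : 1 / (q : ℝ) ≤ μ := by
    have h3 : (d + 2 : ℝ) / (q * d) = 1 / q + 2 / (q * d) := by field_simp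
    have h4 : 0 ≤ (2 : ℝ) / (q * d) := by positivity
    rw [hμd, h3]; linarith
  set S := SS g J x with hS
  have hS0 : 0 ≤ S := SS_nonneg g J x
  set Q : ℝ := (q : ℝ) ^ n with hQ
  have hQ0 : 0 < Q := by positivity
  have hQ1 : 1 ≤ Q := one_le_pow₀ hq1
  set V : ℝ := μ ^ n with hV
  have hQV : Q * V ≤ 1 + ε / 2 := by rw [hQ, hV, ← mul_pow]; exact hμ
  have hQV1 : 1 ≤ Q * V := by
    rw [hQ, hV, ← mul_pow]
    refine one_le_pow₀ ?_
    rw [div_le_iff₀ hq'] at hμ1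
    linarith
  have hup : ∀ w' : Fin n → ℕ, ((J.filter (fun j => W q x j = w')).card : ℝ) ≤
      V * (N + S) := fun w' => by
    rw [hNd]; exact upper q d g τ hq hd hg hτ h1 h2 J x w'
  -- the total count
  set A : Finset (Fin n → ℕ) := Fintype.piFinset (fun _ : Fin n => range q) with hA
  have hAc : (A.card : ℝ) = Q := by
    rw [hA, Fintype.card_piFinset, prod_const, card_range, card_univ, Fintype.card_fin]
    push_cast
    rfl
  have hwA : w ∈ A := by
    rw [hA, Fintype.mem_piFinset]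
    intro i
    exact mem_range.2 (hw i)
  have htot : N = ∑ w' ∈ A, ((J.filter (fun j => W q x j = w')).card : ℝ) := by
    have h3 := card_eq_sum_card_fiberwise (s := J) (t := A) (f := fun j => W q x j) (by
      intro j _
      simp only [hA, Fintype.coe_piFinset, coe_range, Set.mem_pi, Set.mem_univ, Set.mem_Iio,
        forall_true_left]
      intro i
      unfold W
      rw [Nat.floor_lt (mul_nonneg hq'.le (Int.fract_nonneg _))]
      calc (q : ℝ) * Int.fract (x j i) < q * 1 :=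
            mul_lt_mul_of_pos_left (Int.fract_lt_one _) hq'
        _ = q := mul_one _)
    rw [hNd]
    exact_mod_cast h3
  rw [← Finset.add_sum_erase A _ hwA] at htot
  have hrest : ∑ w' ∈ A.erase w, ((J.filter (fun j => W q x j = w')).card : ℝ) ≤
      (Q - 1) * (V * (N + S)) := by
    refine (sum_le_sum fun w' _ => hup w').trans ?_
    rw [sum_const, nsmul_eq_mul, card_erase_of_mem hwA]
    have h3 : ((A.card - 1 : ℕ) : ℝ) = Q - 1 := by
      rw [Nat.cast_sub (card_pos.2 ⟨w, hwA⟩), hAc]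
      simp
    rw [h3]
  have hw' := hup w
  set cw : ℝ := ((J.filter (fun j => W q x j = w)).card : ℝ) with hcw
  rw [abs_le]
  have hV1 : V ≤ (1 + ε / 2) / Q := by
    rw [le_div_iff₀ hQ0]; linarith
  have hV2 : 1 / Q ≤ V := by
    rw [div_le_iff₀ hQ0]; linarith
  constructor
  · -- lower bound
    have h3 : (Q - 1) * (V * (N + S)) ≤ (1 + ε / 2 - 1 / Q) * (N + S) := by
      rw [← mul_assoc]
      refine mul_le_mul_of_nonneg_right ?_ (by positivity)
      nlinarith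
    have h4 : (1 + ε / 2 - 1 / Q) * (N + S) ≤ N - N / Q + ε / 2 * N + 2 * S := by
      have h5 : (1 + ε / 2 - 1 / Q) * S ≤ 2 * S := by
        refine mul_le_mul_of_nonneg_right ?_ hS0
        have : 0 ≤ 1 / Q := by positivity
        linarith
      have h6 : (1 + ε / 2 - 1 / Q) * (N : ℝ) = N - N / Q + ε / 2 * N := by ring
      linarith
    linarith
  · have h3 : V * (N + S) ≤ (1 + ε / 2) / Q * (N + S) :=
      mul_le_mul_of_nonneg_right hV1 (by positivity)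
    have h4 : (1 + ε / 2) / Q * (N + S) ≤ N / Q + ε / 2 * N + 2 * S := by
      have h5 : (1 + ε / 2) / Q * S ≤ 2 * S := by
        refine mul_le_mul_of_nonneg_right ?_ hS0
        rw [div_le_iff₀ hQ0]
        linarith
      have h6 : (1 + ε / 2) / Q * (N : ℝ) = N / Q + ε / 2 * (N / Q) := by ring
      have h7 : ε / 2 * ((N : ℝ) / Q) ≤ ε / 2 * N := by
        refine mul_le_mul_of_nonneg_left (div_le_self hN hQ1) (by positivity)
      linarith
    linarith

theorem one_add_pow_le (n : ℕ) (x : ℝ) (h0 : 0 ≤ x) (h1 : x ≤ 1) :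
    (1 + x) ^ n ≤ 1 + (2 ^ n - 1) * x := by
  induction n with
  | zero => simp
  | succ n ih =>
    have h2 : (1 : ℝ) ≤ 2 ^ n := one_le_pow₀ (by norm_num)
    calc (1 + x) ^ (n + 1) = (1 + x) ^ n * (1 + x) := pow_succ _ _
      _ ≤ (1 + (2 ^ n - 1) * x) * (1 + x) := mul_le_mul_of_nonneg_right ih (by linarith)
      _ = 1 + 2 ^ n * x + (2 ^ n - 1) * (x * x) := by ring
      _ ≤ 1 + 2 ^ n * x + (2 ^ n - 1) * x := by
          have : x * x ≤ x := by nlinarith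
          have h3 := mul_le_mul_of_nonneg_left this (by linarith : (0 : ℝ) ≤ 2 ^ n - 1)
          linarith
      _ = 1 + (2 ^ (n + 1) - 1) * x := by ring

/-- The choice of the parameters. -/
theorem params (n q : ℕ) (hq : 2 ≤ q) (ε : ℝ) (h0 : 0 < ε) (h1 : ε ≤ 1) :
    ∃ (d g : ℕ) (τ : ℝ), 0 < d ∧ 0 < g ∧ 0 ≤ τ ∧ ((q * d : ℕ) : ℝ) ^ 2 ≤ 4 * g * τ ∧
      d * g + 2 * g ≤ q * d * g ∧ ((q : ℝ) * (τ + (d + 2) / (q * d))) ^ n ≤ 1 + ε / 2 ∧
      (g : ℝ) ≤ (q : ℝ) ^ 3 * 2 ^ (3 * n + 9) / ε ^ 3 := by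
  have hq' : (2 : ℝ) ≤ q := by exact_mod_cast hq
  have hq0 : (0 : ℝ) < q := by linarith
  have hp : (1 : ℝ) ≤ 2 ^ n := one_le_pow₀ (by norm_num)
  set d : ℕ := ⌈(2 : ℝ) ^ (n + 3) / ε⌉₊ with hd
  have hd1 : (2 : ℝ) ^ (n + 3) / ε ≤ d := Nat.le_ceil _
  have hbig : (8 : ℝ) ≤ (2 : ℝ) ^ (n + 3) / ε := by
    rw [le_div_iff₀ h0, pow_add]
    nlinarith
  have hd2 : (d : ℝ) ≤ 2 ^ (n + 4) / ε := by
    have h2 : (d : ℝ) < (2 : ℝ) ^ (n + 3) / ε + 1 := Nat.ceil_lt_add_one (by positivity)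
    have h3 : (2 : ℝ) ^ (n + 4) / ε = (2 : ℝ) ^ (n + 3) / ε + (2 : ℝ) ^ (n + 3) / ε := by
      rw [pow_succ]; ring
    linarith
  have hd8 : (8 : ℝ) ≤ d := hbig.trans hd1
  have hd0 : (0 : ℝ) < d := by linarith
  have hd8' : 8 ≤ d := by exact_mod_cast hd8
  set τ : ℝ := ε / (q * 2 ^ (n + 2)) with hτ
  have hτ0 : 0 < τ := by positivity
  have hτ1 : τ ≤ 1 / 4 := by
    rw [hτ, div_le_div_iff₀ (by positivity) (by norm_num)]
    have h2 : (2 : ℝ) ^ (n + 2) = 2 ^ n * 4 := by ring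
    rw [h2]
    nlinarith
  set g : ℕ := ⌈((q : ℝ) * d) ^ 2 / (4 * τ)⌉₊ with hg
  have hg1 : ((q : ℝ) * d) ^ 2 / (4 * τ) ≤ g := Nat.le_ceil _
  have hqd : (16 : ℝ) ≤ q * d := by nlinarith
  have hX1 : 1 ≤ ((q : ℝ) * d) ^ 2 / (4 * τ) := by
    rw [le_div_iff₀ (by positivity)]
    nlinarith
  have hg2 : (g : ℝ) ≤ ((q : ℝ) * d) ^ 2 / (2 * τ) := by
    have h2 : (g : ℝ) < ((q : ℝ) * d) ^ 2 / (4 * τ) + 1 := Nat.ceil_lt_add_one (by positivity)
    have h3 : ((q : ℝ) * d) ^ 2 / (2 * τ) =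
        ((q : ℝ) * d) ^ 2 / (4 * τ) + ((q : ℝ) * d) ^ 2 / (4 * τ) := by
      field_simp; norm_num
    linarith
  have hg0 : (0 : ℝ) < g := by linarith
  refine ⟨d, g, τ, by omega, by exact_mod_cast hg0, hτ0.le, ?_, ?_, ?_, ?_⟩
  · rw [div_le_iff₀ (by positivity)] at hg1
    push_cast
    linarith
  · have h3 : d + 2 ≤ q * d := by nlinarith
    calc d * g + 2 * g = (d + 2) * g := by ring
      _ ≤ q * d * g := Nat.mul_le_mul_right _ h3
  · have h2 : (q : ℝ) * (τ + (d + 2) / (q * d)) = 1 + (q * τ + 2 / d) := by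
      field_simp
      ring
    have h3 : (q : ℝ) * τ = ε / 2 ^ (n + 2) := by
      rw [hτ]; field_simp
    have h4 : (2 : ℝ) / d ≤ ε / 2 ^ (n + 2) := by
      rw [div_le_div_iff₀ hd0 (by positivity)]
      rw [div_le_iff₀ h0] at hd1
      have h5 : (2 : ℝ) ^ (n + 3) = 2 * 2 ^ (n + 2) := by ring
      rw [h5] at hd1
      linarith
    have h5 : (q : ℝ) * τ + 2 / d ≤ ε / 2 ^ (n + 1) := by
      have h6 : ε / (2 : ℝ) ^ (n + 1) = ε / 2 ^ (n + 2) + ε / 2 ^ (n + 2) := by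
        rw [pow_succ 2 (n + 1)]; field_simp; norm_num
      linarith
    have h6 : 0 ≤ (q : ℝ) * τ + 2 / d := by positivity
    have h7 : ε / 2 ^ (n + 1) ≤ 1 := by
      rw [div_le_one (by positivity)]
      have : (2 : ℝ) ^ (n + 1) = 2 ^ n * 2 := by ring
      rw [this]
      linarith
    rw [h2]
    refine (one_add_pow_le n _ h6 (h5.trans h7)).trans ?_
    have h8 : (2 ^ n - 1) * ((q : ℝ) * τ + 2 / d) ≤ 2 ^ n * (ε / 2 ^ (n + 1)) := by
      refine mul_le_mul (by linarith) h5 h6 (by positivity)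
    have h9 : (2 : ℝ) ^ n * (ε / 2 ^ (n + 1)) = ε / 2 := by
      rw [pow_succ]; field_simp
    linarith
  · refine hg2.trans ?_
    have h2 : ((q : ℝ) * d) ^ 2 / (2 * τ) = q ^ 3 * 2 ^ (n + 1) * (d : ℝ) ^ 2 / ε := by
      rw [hτ, pow_succ 2 (n + 1)]
      field_simp
    rw [h2]
    have h3 : (d : ℝ) ^ 2 ≤ (2 ^ (n + 4) / ε) ^ 2 := pow_le_pow_left₀ hd0.le hd2 2
    calc (q : ℝ) ^ 3 * 2 ^ (n + 1) * (d : ℝ) ^ 2 / ε
        ≤ (q : ℝ) ^ 3 * 2 ^ (n + 1) * (2 ^ (n + 4) / ε) ^ 2 / ε := by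
          refine div_le_div_of_nonneg_right ?_ h0.le
          exact mul_le_mul_of_nonneg_left h3 (by positivity)
      _ = (q : ℝ) ^ 3 * 2 ^ (3 * n + 9) / ε ^ 3 := by
          have h4 : (2 : ℝ) ^ (3 * n + 9) = 2 ^ (n + 1) * (2 ^ (n + 4)) ^ 2 := by
            rw [← pow_mul, ← pow_add]; congr 1; ring
          rw [h4]
          field_simp

theorem floor_mod (q : ℕ) (hq : 0 < q) (x : ℝ) :
    ((⌊(q : ℝ) * Int.fract x⌋₊ : ℕ) : ℤ) = ⌊(q : ℝ) * x⌋ % (q : ℤ) := by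
  have hq' : (0 : ℝ) < q := by exact_mod_cast hq
  have h0 : 0 ≤ (q : ℝ) * Int.fract x := mul_nonneg hq'.le (Int.fract_nonneg _)
  have h1 : (q : ℝ) * Int.fract x = q * x - ((q * ⌊x⌋ : ℤ) : ℝ) := by
    rw [Int.fract]; push_cast; ring
  have h2 : ⌊(q : ℝ) * Int.fract x⌋ = ⌊(q : ℝ) * x⌋ - q * ⌊x⌋ := by
    rw [h1, Int.floor_sub_intCast]
  have h3 : 0 ≤ ⌊(q : ℝ) * Int.fract x⌋ := Int.floor_nonneg.2 h0
  have h4 : ⌊(q : ℝ) * Int.fract x⌋ < q := by
    rw [Int.floor_lt]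
    calc (q : ℝ) * Int.fract x < q * 1 := mul_lt_mul_of_pos_left (Int.fract_lt_one _) hq'
      _ = ((q : ℤ) : ℝ) := by simp
  rw [Int.natCast_floor_eq_floor h0]
  have h5 : ⌊(q : ℝ) * x⌋ = ⌊(q : ℝ) * Int.fract x⌋ + q * ⌊x⌋ := by omega
  rw [h5, Int.add_mul_emod_self_left, Int.emod_eq_of_lt h3 h4]

end Pool.Agent.V11226.SM
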