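import Pool.Agent.V11226.SM.Sec
import Pool.Agent.V11226.SM.Dev

/-!
# Digits after the point, in any base
-/

set_option autoImplicit false

namespace Pool.Agent.V11226.SM

open Finset Pool.Agent.V11226.ETN

/-- the exponent `i` is trivial for `θ` -/
def TrivT (a : ℕ) (G θ : ℝ) (i : ℕ) : Prop :=
  ∃ p : ℤ, |G * ((a : ℝ) ^ i * θ) - p| < 1 / (2 * a)

theorem windowT (a : ℕ) (ha : 2 ≤ a) (G θ η : ℝ) (hη : 0 < η) (K : ℕ)
    (h : ∀ (f : ℕ) (p : ℤ), η / ((a : ℝ) ^ f) ^ K ≤ |G * ((a : ℝ) ^ f * θ) - p|)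
    (f0 f1 : ℕ) (h01 : f0 < f1) (hbig : ((a : ℝ) ^ f0) ^ (K + 1) ≤ η * (a : ℝ) ^ f1) :
    ∃ f, f0 ≤ f ∧ f < f1 ∧ ¬ TrivT a G θ f := by
  by_contra hcon
  push Not at hcon
  have ha2 : (2 : ℝ) ≤ a := by exact_mod_cast ha
  have ha0 : (0 : ℝ) < a := by linarith
  set z : ℝ := G * ((a : ℝ) ^ f0 * θ) with hz
  obtain ⟨p, hp⟩ := hcon f0 le_rfl h01
  obtain ⟨n, hn⟩ : ∃ n, f1 = f0 + n + 1 := ⟨f1 - f0 - 1, by omega⟩
  have h1 := triv_shrink a ha z n p hp (by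
    intro i hi
    obtain ⟨p', hp'⟩ := hcon (f0 + i) (by omega) (by omega)
    refine ⟨p', ?_⟩
    have h2 : z * (a : ℝ) ^ i = G * ((a : ℝ) ^ (f0 + i) * θ) := by
      rw [hz, pow_add]; ring
    rw [h2]; exact hp')
  have h2 := h f0 p
  have hA : 0 < (a : ℝ) ^ f0 := by positivity
  have hN : 0 < (a : ℝ) ^ n := by positivity
  rw [← hz, div_le_iff₀ (by positivity)] at h2
  rw [lt_div_iff₀ (by positivity)] at h1
  -- `h1 : |z - p| * a ^ n * (2 * a) < 1`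
  have h3 : η * (a : ℝ) ^ n * (2 * a) ≤ |z - p| * ((a : ℝ) ^ f0) ^ K * (a : ℝ) ^ n * (2 * a) := by
    refine mul_le_mul_of_nonneg_right (mul_le_mul_of_nonneg_right h2 hN.le) (by positivity)
  have h4 : |z - p| * ((a : ℝ) ^ f0) ^ K * (a : ℝ) ^ n * (2 * a) < ((a : ℝ) ^ f0) ^ K := by
    have : |z - p| * ((a : ℝ) ^ f0) ^ K * (a : ℝ) ^ n * (2 * a) =
        (|z - p| * (a : ℝ) ^ n * (2 * a)) * ((a : ℝ) ^ f0) ^ K := by ring
    rw [this]
    calc (|z - p| * (a : ℝ) ^ n * (2 * a)) * ((a : ℝ) ^ f0) ^ K < 1 * ((a : ℝ) ^ f0) ^ K :=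
          mul_lt_mul_of_pos_right h1 (by positivity)
      _ = _ := one_mul _
  have h5 : η * (a : ℝ) ^ n * (2 * a) * (a : ℝ) ^ f0 < ((a : ℝ) ^ f0) ^ (K + 1) := by
    rw [pow_succ ((a : ℝ) ^ f0) K]
    exact mul_lt_mul_of_pos_right (lt_of_le_of_lt h3 h4) hA
  have h6 : η * (a : ℝ) ^ n * (2 * a) * (a : ℝ) ^ f0 = 2 * (η * (a : ℝ) ^ f1) := by
    rw [hn, pow_succ, pow_add]; ring
  have h7 : 0 < η * (a : ℝ) ^ f1 := by positivity
  linarith

theorem manyT (a : ℕ) (ha : 2 ≤ a) (G θ η : ℝ) (hη : 0 < η) (K : ℕ)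
    (h : ∀ (f : ℕ) (p : ℤ), η / ((a : ℝ) ^ f) ^ K ≤ |G * ((a : ℝ) ^ f * θ) - p|)
    (A : ℕ) (hA1 : 1 ≤ A) (hA : 1 ≤ η * (a : ℝ) ^ A) (n : ℕ) :
    ∃ S : Finset ℕ, n ≤ S.card ∧ ∀ f ∈ S, f < Fs K A n ∧ ¬ TrivT a G θ f := by
  have ha2 : (2 : ℝ) ≤ a := by exact_mod_cast ha
  have ha0 : (0 : ℝ) < a := by linarith
  induction n with
  | zero => exact ⟨∅, by simp, by simp⟩
  | succ n ih =>
    obtain ⟨S, hS1, hS2⟩ := ih
    obtain ⟨f, hf0, hf1, hf⟩ := windowT a ha G θ η hη K h (Fs K A n) (Fs K A (n + 1))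
      (Fs_lt K A n hA1) (by
        simp only [Fs]
        rw [← pow_mul, pow_add, mul_comm (Fs K A n) (K + 1)]
        have h1 : η * ((a : ℝ) ^ ((K + 1) * Fs K A n) * (a : ℝ) ^ A) =
            (a : ℝ) ^ ((K + 1) * Fs K A n) * (η * (a : ℝ) ^ A) := by ring
        rw [h1]
        exact le_mul_of_one_le_right (by positivity) hA)
    refine ⟨insert f S, ?_, ?_⟩
    · rw [card_insert_of_notMem]
      · omega
      · intro hmem
        have := (hS2 f hmem).1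
        omega
    · intro x hx
      rcases mem_insert.1 hx with rfl | hx
      · exact ⟨hf1, hf⟩
      · exact ⟨(hS2 x hx).1.trans (Fs_lt K A n hA1), (hS2 x hx).2⟩

theorem pairT (a : ℕ) (ha : 2 ≤ a) (D : ℕ → Finset ℕ) (hD : ∀ i, D i ⊆ range a)
    (hD2 : ∀ i, 2 ≤ (D i).card) (θ η : ℝ) (hη : 0 < η) (K : ℕ)
    (h : ∀ (f : ℕ) (p : ℤ), η / ((a : ℝ) ^ f) ^ K ≤ |(a.factorial : ℝ) * ((a : ℝ) ^ f * θ) - p|)
    (A : ℕ) (hA1 : 1 ≤ A) (hA : 1 ≤ η * (a : ℝ) ^ A) (N t : ℕ) (ht : Fs K A t ≤ N) :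
    ‖∑ m ∈ digs a D N, e ((m : ℝ) * θ)‖ ≤ rho a ^ t * ((digs a D N).card : ℝ) := by
  have hr0 := rho_pos a ha
  have hr1 := rho_lt a ha
  rw [fac a D ha hD, card_digs a D ha hD, norm_prod]
  obtain ⟨S, hS1, hS2⟩ := manyT a ha (a.factorial : ℝ) θ η hη K h A hA1 hA t
  have hsub : S ⊆ range N := by
    intro i hi
    have := (hS2 i hi).1
    rw [mem_range]
    omega
  have h1 : ∀ i ∈ range N, ‖∑ d ∈ D i, e ((d : ℝ) * ((a : ℝ) ^ i * θ))‖ ≤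
      (if i ∈ S then rho a else 1) * ((D i).card : ℝ) := by
    intro i hi
    by_cases h : i ∈ S
    · rw [if_pos h]
      refine digit_sum_save a ha (D _) (hD _) (hD2 _) _ ?_
      intro p
      have h2 := (hS2 i h).2
      unfold TrivT at h2
      push Not at h2
      exact h2 p
    · rw [if_neg h, one_mul]
      exact digit_sum_le a _ _
  calc ∏ i ∈ range N, ‖∑ d ∈ D i, e ((d : ℝ) * ((a : ℝ) ^ i * θ))‖
      ≤ ∏ i ∈ range N, ((if i ∈ S then rho a else 1) * ((D i).card : ℝ)) :=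
        prod_le_prod (fun _ _ => norm_nonneg _) h1
    _ = rho a ^ S.card * ∏ i ∈ range N, ((D i).card : ℝ) := by
        rw [prod_mul_distrib]
        congr 1
        rw [prod_ite_mem, inter_eq_right.2 hsub, prod_const]
    _ ≤ rho a ^ t * ((∏ i ∈ range N, (D i).card : ℕ) : ℝ) := by
        push_cast
        refine mul_le_mul_of_nonneg_right ?_ (prod_nonneg fun _ _ => Nat.cast_nonneg _)
        exact pow_le_pow_of_le_one hr0.le hr1.le (by omega)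

theorem secondT (a : ℕ) (ha : 2 ≤ a) (D : ℕ → Finset ℕ) (hD : ∀ i, D i ⊆ range a)
    (hD2 : ∀ i, 2 ≤ (D i).card) (Y Θ : ℕ → ℝ) (η : ℝ) (hη : 0 < η) (K : ℕ) (J : Finset ℕ)
    (h : ∀ j ∈ J, ∀ j' ∈ J, j ≠ j' → ∀ (f : ℕ) (p : ℤ),
      η / ((a : ℝ) ^ f) ^ K ≤ |(a.factorial : ℝ) * ((a : ℝ) ^ f * (Θ j - Θ j')) - p|)
    (A : ℕ) (hA1 : 1 ≤ A) (hA : 1 ≤ η * (a : ℝ) ^ A) (N t : ℕ) (ht : Fs K A t ≤ N) :
    ∑ m ∈ digs a D N, ‖∑ j ∈ J, e (Y j + (m : ℝ) * Θ j)‖ ^ 2 ≤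
      (J.card + (J.card : ℝ) ^ 2 * rho a ^ t) * ((digs a D N).card : ℝ) := by
  have hr0 := rho_pos a ha
  set M := digs a D N with hM
  set B : ℕ → ℕ → ℝ := fun j j' => ‖∑ m ∈ M, e ((m : ℝ) * (Θ j - Θ j'))‖ with hB
  have hB2 : ∀ j ∈ J, ∀ j' ∈ J,
      B j j' ≤ (if j = j' then (M.card : ℝ) else 0) + rho a ^ t * M.card := by
    intro j hj j' hj'
    by_cases hjj : j = j'
    · rw [if_pos hjj]
      have h1 : B j j' ≤ M.card := by
        simp only [hB]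
        refine (norm_sum_le _ _).trans ?_
        simp [norm_e]
      have h2 : 0 ≤ rho a ^ t * (M.card : ℝ) := mul_nonneg (pow_nonneg hr0.le _) (Nat.cast_nonneg _)
      linarith
    · rw [if_neg hjj, zero_add]
      exact pairT a ha D hD hD2 _ η hη K (h j hj j' hj' hjj) A hA1 hA N t ht
  have hmain : ∑ m ∈ M, ‖∑ j ∈ J, e (Y j + (m : ℝ) * Θ j)‖ ^ 2 ≤
      ∑ j ∈ J, ∑ j' ∈ J, B j j' := by
    have h1 : ((∑ m ∈ M, ‖∑ j ∈ J, e (Y j + (m : ℝ) * Θ j)‖ ^ 2 : ℝ) : ℂ) =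
        ∑ j ∈ J, ∑ j' ∈ J, e (Y j - Y j') * ∑ m ∈ M, e ((m : ℝ) * (Θ j - Θ j')) := by
      rw [Complex.ofReal_sum, sum_congr rfl (fun m _ => sq_expand J _), sum_comm]
      refine sum_congr rfl fun j _ => ?_
      rw [sum_comm]
      refine sum_congr rfl fun j' _ => ?_
      rw [mul_sum]
      refine sum_congr rfl fun m _ => ?_
      rw [conj_e, ← e_add, ← e_add]
      congr 1
      ring
    have h2 : ∑ m ∈ M, ‖∑ j ∈ J, e (Y j + (m : ℝ) * Θ j)‖ ^ 2 ≤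
        ‖((∑ m ∈ M, ‖∑ j ∈ J, e (Y j + (m : ℝ) * Θ j)‖ ^ 2 : ℝ) : ℂ)‖ := by
      rw [Complex.norm_real]; exact le_abs_self _
    refine h2.trans ?_
    rw [h1]
    refine (norm_sum_le _ _).trans (sum_le_sum fun j _ => ?_)
    refine (norm_sum_le _ _).trans (sum_le_sum fun j' _ => ?_)
    rw [norm_mul, norm_e, one_mul]
  refine hmain.trans ?_
  refine (sum_le_sum fun j hj => sum_le_sum (hB2 j hj)).trans (le_of_eq ?_)
  have h3 : ∀ j ∈ J, ∑ j' ∈ J, ((if j = j' then (M.card : ℝ) else 0) + rho a ^ t * M.card) =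
      M.card + J.card * (rho a ^ t * M.card) := by
    intro j hj
    rw [sum_add_distrib, sum_ite_eq, if_pos hj, sum_const, nsmul_eq_mul]
  rw [sum_congr rfl h3, sum_const, nsmul_eq_mul]
  ring

theorem second_powT (a : ℕ) (ha : 2 ≤ a) (D : ℕ → Finset ℕ) (hD : ∀ i, D i ⊆ range a)
    (hD2 : ∀ i, 2 ≤ (D i).card) (Y Θ : ℕ → ℝ) (η : ℝ) (hη : 0 < η) (K : ℕ) (J : Finset ℕ)
    (h : ∀ j ∈ J, ∀ j' ∈ J, j ≠ j' → ∀ (f : ℕ) (p : ℤ),
      η / ((a : ℝ) ^ f) ^ K ≤ |(a.factorial : ℝ) * ((a : ℝ) ^ f * (Θ j - Θ j')) - p|)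
    (A : ℕ) (hA1 : 1 ≤ A) (hA : 1 ≤ η * (a : ℝ) ^ A) (N : ℕ) (hN : 1 ≤ N) :
    ∑ m ∈ digs a D N, ‖∑ j ∈ J, e (Y j + (m : ℝ) * Θ j)‖ ^ 2 ≤
      (J.card + (J.card : ℝ) ^ 2 * (1 / rho a * ((A : ℝ) / N) ^ (2 * kap a K))) *
        ((digs a D N).card : ℝ) := by
  have hr0 := rho_pos a ha
  have hr1 := rho_lt a ha
  have hN0 : (0 : ℝ) < N := by exact_mod_cast hN
  have hA0 : (0 : ℝ) < A := by exact_mod_cast hA1
  have hK0 : (0 : ℝ) ≤ K := Nat.cast_nonneg _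
  set κ := kap a K with hκ
  have hκ0 : 0 < κ := kap_pos a ha K
  have hrK : ((K : ℝ) + 2) ^ (2 * κ) ≤ 1 / rho a := by
    have h2 : 0 < Real.log ((K : ℝ) + 2) := Real.log_pos (by linarith)
    rw [← Real.log_le_log_iff (Real.rpow_pos_of_pos (by linarith) _) (by positivity),
      Real.log_rpow (by linarith)]
    have h3 : 2 * κ ≤ Real.log (1 / rho a) / Real.log ((K : ℝ) + 2) := by
      rw [hκ]; unfold kap
      have := min_le_left (Real.log (1 / rho a) / Real.log ((K : ℝ) + 2)) 1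
      linarith
    rw [le_div_iff₀ h2] at h3
    exact h3
  obtain ⟨t, ht1, ht2⟩ : ∃ t : ℕ, Fs K A t ≤ N ∧
      rho a ^ t ≤ 1 / rho a * ((A : ℝ) / N) ^ (2 * κ) := by
    rcases lt_or_ge N A with hlt | hge
    · refine ⟨0, by simp [Fs], ?_⟩
      rw [pow_zero]
      have h1 : (1 : ℝ) ≤ (A : ℝ) / N := by
        rw [le_div_iff₀ hN0, one_mul]
        exact_mod_cast hlt.le
      have h2 : 1 ≤ ((A : ℝ) / N) ^ (2 * κ) := Real.one_le_rpow h1 (by linarith)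
      have h3 : 1 ≤ 1 / rho a := by
        rw [le_div_iff₀ hr0]; linarith
      nlinarith
    · have h1 : (1 : ℝ) ≤ (N : ℝ) / A := by
        rw [le_div_iff₀ hA0, one_mul]
        exact_mod_cast hge
      obtain ⟨t, ht1, ht2⟩ := exists_nat_pow_near h1 (by linarith : (1 : ℝ) < (K : ℝ) + 2)
      refine ⟨t, ?_, ?_⟩
      · have h2 : (A : ℝ) * ((K : ℝ) + 2) ^ t ≤ N := by
          rw [le_div_iff₀ hA0] at ht1
          linarith
        have h3 : A * (K + 2) ^ t ≤ N := by exact_mod_cast h2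
        exact (Fs_le K A t).trans h3
      · have h2 : ((N : ℝ) / A) ^ (2 * κ) ≤ (1 / rho a) ^ (t + 1) := by
          calc ((N : ℝ) / A) ^ (2 * κ) ≤ (((K : ℝ) + 2) ^ (t + 1)) ^ (2 * κ) :=
                Real.rpow_le_rpow (by positivity) ht2.le (by linarith)
            _ = (((K : ℝ) + 2) ^ (2 * κ)) ^ (t + 1) := by
                rw [← Real.rpow_natCast, ← Real.rpow_mul (by linarith), ← Real.rpow_natCast,
                  ← Real.rpow_mul (by linarith)]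
                congr 1; ring
            _ ≤ (1 / rho a) ^ (t + 1) := pow_le_pow_left₀ (by positivity) hrK _
        have h3 : ((A : ℝ) / N) ^ (2 * κ) = (((N : ℝ) / A) ^ (2 * κ))⁻¹ := by
          rw [← Real.inv_rpow (by positivity), inv_div]
        have h4 : 0 < ((N : ℝ) / A) ^ (2 * κ) := Real.rpow_pos_of_pos (by positivity) _
        rw [h3, ← div_eq_mul_inv, le_div_iff₀ h4]
        have h5 : rho a ^ t * (1 / rho a) ^ (t + 1) = 1 / rho a := by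
          rw [pow_succ, ← mul_assoc, ← mul_pow, mul_one_div_cancel hr0.ne', one_pow, one_mul]
        calc rho a ^ t * ((N : ℝ) / A) ^ (2 * κ) ≤ rho a ^ t * (1 / rho a) ^ (t + 1) :=
              mul_le_mul_of_nonneg_left h2 (by positivity)
          _ = 1 / rho a := h5
  refine (secondT a ha D hD hD2 Y Θ η hη K J h A hA1 hA N t ht1).trans ?_
  refine mul_le_mul_of_nonneg_right ?_ (Nat.cast_nonneg _)
  have h1 : (0 : ℝ) ≤ (J.card : ℝ) ^ 2 := sq_nonneg _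
  have h2 := mul_le_mul_of_nonneg_left ht2 h1
  linarith

/-- The inequality of Markov and Chebyshev. -/
theorem markov (Ω bad : Finset ℕ) (hsub : bad ⊆ Ω) (n q d g : ℕ) (τ ε : ℝ) (hq : 0 < q)
    (hd : 0 < d) (hg : 0 < g) (hτ : 0 ≤ τ)
    (h1 : ((q * d : ℕ) : ℝ) ^ 2 ≤ 4 * g * τ) (h2 : d * g + 2 * g ≤ q * d * g)
    (hε0 : 0 < ε) (hε1 : ε ≤ 1)
    (hμ : ((q : ℝ) * (τ + (d + 2) / (q * d))) ^ n ≤ 1 + ε / 2) (J : Finset ℕ) (hJ : J.Nonempty)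
    (x : ℕ → ℕ → Fin n → ℝ) (E : ℝ) (hE0 : 0 ≤ E)
    (hE : ∀ u ∈ (box n g).erase 0,
      ∑ m ∈ Ω, ‖∑ j ∈ J, e (∑ i, (u i : ℝ) * x m j i)‖ ^ 2 ≤ E)
    (hbad : ∀ m ∈ bad, ∃ w : Fin n → ℕ, (∀ i, w i < q) ∧
      ε < |((J.filter (fun j => W q (x m) j = w)).card : ℝ) / J.card - 1 / (q : ℝ) ^ n|) :
    (bad.card : ℝ) * (ε * J.card / 4) ^ 2 ≤ (((box n g).card : ℝ)) ^ 2 * E := by
  have hN0 : (0 : ℝ) < J.card := by exact_mod_cast card_pos.2 hJ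
  have hSS : ∑ m ∈ Ω, (SS g J (x m)) ^ 2 ≤ (((box n g).card : ℝ)) ^ 2 * E := by
    have h3 : ∀ m ∈ Ω, (SS g J (x m)) ^ 2 ≤
        (((box n g).erase 0).card : ℝ) * ∑ u ∈ (box n g).erase 0,
          ‖∑ j ∈ J, e (∑ i, (u i : ℝ) * x m j i)‖ ^ 2 := by
      intro m _
      unfold SS
      exact sq_sum_le_card_mul_sum_sq
    refine (sum_le_sum h3).trans ?_
    rw [← mul_sum, sum_comm]
    have h4 : ∑ u ∈ (box n g).erase 0, ∑ m ∈ Ω,
        ‖∑ j ∈ J, e (∑ i, (u i : ℝ) * x m j i)‖ ^ 2 ≤ (((box n g).erase 0).card : ℝ) * E := by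
      refine (sum_le_sum hE).trans ?_
      rw [sum_const, nsmul_eq_mul]
    have h5 : (((box n g).erase 0).card : ℝ) ≤ ((box n g).card : ℝ) := by
      exact_mod_cast card_le_card (erase_subset _ _)
    have h6 : (0 : ℝ) ≤ (((box n g).erase 0).card : ℝ) := Nat.cast_nonneg _
    calc (((box n g).erase 0).card : ℝ) * _ ≤
          (((box n g).erase 0).card : ℝ) * ((((box n g).erase 0).card : ℝ) * E) :=
          mul_le_mul_of_nonneg_left h4 h6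
      _ ≤ ((box n g).card : ℝ) * (((box n g).card : ℝ) * E) := by
          refine mul_le_mul h5 (mul_le_mul_of_nonneg_right h5 hE0) (mul_nonneg h6 hE0)
            (Nat.cast_nonneg _)
      _ = (((box n g).card : ℝ)) ^ 2 * E := by ring
  refine le_trans ?_ hSS
  calc (bad.card : ℝ) * (ε * J.card / 4) ^ 2 = ∑ _m ∈ bad, (ε * J.card / 4) ^ 2 := by
        rw [sum_const, nsmul_eq_mul]
    _ ≤ ∑ m ∈ bad, (SS g J (x m)) ^ 2 := by
        refine sum_le_sum fun m hm => ?_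
        obtain ⟨w, hw, hlt⟩ := hbad m hm
        refine pow_le_pow_left₀ (by positivity) ?_ 2
        have h3 := deviation q d g τ ε hq hd hg hτ h1 h2 hε0.le hε1 hμ J (x m) w hw
        set cc : ℝ := ((J.filter (fun j => W q (x m) j = w)).card : ℝ) with hcc
        have h4 : cc / (J.card : ℝ) - 1 / (q : ℝ) ^ n =
            (cc - (J.card : ℝ) / (q : ℝ) ^ n) / (J.card : ℝ) := by
          field_simp
        rw [h4, abs_div, abs_of_pos hN0, lt_div_iff₀ hN0] at hlt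
        linarith
    _ ≤ _ := sum_le_sum_of_subset_of_nonneg hsub fun _ _ _ => sq_nonneg _

end Pool.Agent.V11226.SM
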