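import Pool.Agent.V11226.ETN.Maj

/-!
# Numbers with restricted digits: the factorisation of the exponential sum
-/

set_option autoImplicit false

namespace Pool.Agent.V11226.SM

open Finset Pool.Agent.V11226.ETN

/-- The numbers below `b ^ N` whose digit number `i` (in base `b`, counted from the units) belongs
to `D i`, for all `i < N`. -/
def digs (b : ℕ) (D : ℕ → Finset ℕ) (N : ℕ) : Finset ℕ :=
  (range (b ^ N)).filter (fun m => ∀ i < N, m / b ^ i % b ∈ D i)

theorem sum_succ {β : Type*} [AddCommMonoid β] (b : ℕ) (D : ℕ → Finset ℕ) (hb : 2 ≤ b)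
    (hD : ∀ i, D i ⊆ range b) (N : ℕ) (f : ℕ → β) :
    ∑ m ∈ digs b D (N + 1), f m = ∑ d ∈ D N, ∑ m ∈ digs b D N, f (m + d * b ^ N) := by
  have hb0 : 0 < b := by omega
  have hbN : 0 < b ^ N := Nat.pow_pos hb0
  rw [← Finset.sum_product']
  symm
  refine Finset.sum_bij (fun x _ => x.2 + x.1 * b ^ N) ?_ ?_ ?_ ?_
  · rintro ⟨d, m⟩ hx
    rw [mem_product] at hx
    obtain ⟨hd, hm⟩ := hx
    simp only at hd hm ⊢
    unfold digs at hm ⊢
    rw [mem_filter, mem_range] at hm ⊢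
    have hdb : d < b := mem_range.1 (hD N hd)
    refine ⟨?_, ?_⟩
    · rw [pow_succ']
      calc m + d * b ^ N < b ^ N + d * b ^ N := by omega
        _ = (d + 1) * b ^ N := by ring
        _ ≤ b * b ^ N := Nat.mul_le_mul_right _ hdb
    · intro i hi
      rcases Nat.lt_succ_iff_lt_or_eq.1 hi with hi' | rfl
      · have h1 : (m + d * b ^ N) / b ^ i % b = m / b ^ i % b := by
          obtain ⟨c, rfl⟩ : ∃ c, N = i + 1 + c := ⟨N - (i + 1), by omega⟩
          have h2 : m + d * b ^ (i + 1 + c) = m + (d * b ^ c * b) * b ^ i := by ring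
          rw [h2, Nat.add_mul_div_right _ _ (Nat.pow_pos hb0), Nat.add_mul_mod_self_right]
        rw [h1]
        exact hm.2 i hi'
      · rw [Nat.add_mul_div_right _ _ hbN, Nat.div_eq_of_lt hm.1, zero_add, Nat.mod_eq_of_lt hdb]
        exact hd
  · rintro ⟨d, m⟩ hx ⟨d', m'⟩ hx' h
    rw [mem_product] at hx hx'
    simp only at hx hx' h
    have hm : m < b ^ N := mem_range.1 (mem_filter.1 hx.2).1
    have hm' : m' < b ^ N := mem_range.1 (mem_filter.1 hx'.2).1
    have h1 : (m + d * b ^ N) % b ^ N = (m' + d' * b ^ N) % b ^ N := by rw [h]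
    rw [Nat.add_mul_mod_self_right, Nat.add_mul_mod_self_right, Nat.mod_eq_of_lt hm,
      Nat.mod_eq_of_lt hm'] at h1
    subst h1
    have h2 : d * b ^ N = d' * b ^ N := by omega
    have h3 := Nat.eq_of_mul_eq_mul_right hbN h2
    rw [h3]
  · intro m hm
    unfold digs at hm
    rw [mem_filter, mem_range] at hm
    have h1 := hm.2 N (Nat.lt_succ_self N)
    have h2 : m / b ^ N < b := by
      rw [Nat.div_lt_iff_lt_mul hbN, ← pow_succ']
      exact hm.1
    rw [Nat.mod_eq_of_lt h2] at h1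
    refine ⟨(m / b ^ N, m % b ^ N), ?_, ?_⟩
    · rw [mem_product]
      refine ⟨h1, ?_⟩
      unfold digs
      rw [mem_filter, mem_range]
      refine ⟨Nat.mod_lt _ hbN, fun i hi => ?_⟩
      have h3 := hm.2 i (by omega)
      have h4 : m % b ^ N / b ^ i % b = m / b ^ i % b := by
        obtain ⟨c, rfl⟩ : ∃ c, N = i + 1 + c := ⟨N - (i + 1), by omega⟩
        have h5 : m / b ^ i = (m % b ^ (i + 1 + c)) / b ^ i + (m / b ^ (i + 1 + c) * b ^ c) * b := by
          conv_lhs => rw [← Nat.mod_add_div m (b ^ (i + 1 + c))]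
          have h6 : b ^ (i + 1 + c) * (m / b ^ (i + 1 + c)) =
              (m / b ^ (i + 1 + c) * b ^ c * b) * b ^ i := by ring
          rw [h6, Nat.add_mul_div_right _ _ (Nat.pow_pos hb0)]
        rw [h5, Nat.add_mul_mod_self_right]
      rw [h4]
      exact h3
    · simp only
      rw [mul_comm]
      exact Nat.mod_add_div m (b ^ N)
  · intro x _
    rfl

theorem digs_zero (b : ℕ) (D : ℕ → Finset ℕ) : digs b D 0 = {0} := by
  unfold digs
  ext m
  simp

theorem fac (b : ℕ) (D : ℕ → Finset ℕ) (hb : 2 ≤ b) (hD : ∀ i, D i ⊆ range b) (θ : ℝ) (N : ℕ) :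
    ∑ m ∈ digs b D N, e ((m : ℝ) * θ) =
      ∏ i ∈ range N, ∑ d ∈ D i, e ((d : ℝ) * ((b : ℝ) ^ i * θ)) := by
  induction N with
  | zero => rw [digs_zero]; simp
  | succ N ih =>
    rw [sum_succ b D hb hD, prod_range_succ, ← ih, mul_comm, Finset.sum_mul_sum]
    refine sum_congr rfl fun d _ => sum_congr rfl fun m _ => ?_
    rw [← e_add]
    congr 1
    push_cast
    ring

theorem card_digs (b : ℕ) (D : ℕ → Finset ℕ) (hb : 2 ≤ b) (hD : ∀ i, D i ⊆ range b) (N : ℕ) :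
    (digs b D N).card = ∏ i ∈ range N, (D i).card := by
  induction N with
  | zero => rw [digs_zero]; simp
  | succ N ih =>
    rw [card_eq_sum_ones, sum_succ b D hb hD, prod_range_succ, ← ih]
    simp [mul_comm]

/-- The saving for one digit. -/
noncomputable def rho (b : ℕ) : ℝ := 1 - 4 * (1 / (2 * b * (b.factorial : ℝ))) ^ 2 / b

theorem rho_lt (b : ℕ) (hb : 2 ≤ b) : rho b < 1 := by
  unfold rho
  have h1 : (0 : ℝ) < b := by exact_mod_cast (by omega : 0 < b)
  have h2 : (0 : ℝ) < (b.factorial : ℝ) := by exact_mod_cast Nat.factorial_pos b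
  have : 0 < 4 * (1 / (2 * b * (b.factorial : ℝ))) ^ 2 / b := by positivity
  linarith

theorem rho_pos (b : ℕ) (hb : 2 ≤ b) : 0 < rho b := by
  unfold rho
  have h1 : (2 : ℝ) ≤ b := by exact_mod_cast hb
  have h2 : (1 : ℝ) ≤ (b.factorial : ℝ) := by exact_mod_cast Nat.factorial_pos b
  have h3 : 1 / (2 * b * (b.factorial : ℝ)) ≤ 1 / 4 := by
    apply one_div_le_one_div_of_le (by norm_num)
    nlinarith
  have h4 : (1 / (2 * b * (b.factorial : ℝ))) ^ 2 ≤ (1 / 4) ^ 2 := by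
    apply pow_le_pow_left₀ (by positivity) h3
  have h5 : 4 * (1 / (2 * b * (b.factorial : ℝ))) ^ 2 / b ≤ 1 / 4 := by
    rw [div_le_iff₀ (by linarith)]
    nlinarith
  linarith

theorem norm_sub_one_lower {x δ : ℝ} (h0 : 0 < δ) (h : ∀ p : ℤ, δ ≤ |x - p|) :
    4 * δ ≤ ‖e x - 1‖ := by
  have hf := Int.fract_add_floor x
  have h1 := h ⌊x⌋
  have h2 := h (⌊x⌋ + 1)
  have h3 : x - (⌊x⌋ : ℝ) = Int.fract x := rfl
  rw [h3, abs_of_nonneg (Int.fract_nonneg x)] at h1
  have h4 : x - ((⌊x⌋ + 1 : ℤ) : ℝ) = -(1 - Int.fract x) := by push_cast; linarith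
  have hlt := Int.fract_lt_one x
  rw [h4, abs_neg, abs_of_nonneg (by linarith)] at h2
  have h5 : e x = e (Int.fract x) := by
    conv_lhs => rw [← hf]
    exact e_add_int _ _
  have h6 := sin_lower h0 h1 (by linarith)
  rw [h5, norm_e_sub_one]
  have h7 : 2 * δ ≤ |Real.sin (Real.pi * Int.fract x)| := h6.trans (le_abs_self _)
  linarith

theorem two_point {x δ : ℝ} (h0 : 0 < δ) (h : ∀ p : ℤ, δ ≤ |x - p|) : ‖1 + e x‖ ≤ 2 - 4 * δ ^ 2 := by
  have h1 := norm_sub_one_lower h0 h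
  have h2 : ‖1 + e x‖ ^ 2 + ‖e x - 1‖ ^ 2 = 4 := by
    have h3 := parallelogram_law_with_norm ℝ (e x) (1 : ℂ)
    have h4 := norm_e x
    rw [h4] at h3
    rw [add_comm 1 (e x)]
    simp only [norm_one] at h3
    nlinarith
  have hδ : δ ≤ 1 / 2 := by
    have h3 : ‖e x - 1‖ ≤ 2 := by
      calc ‖e x - 1‖ ≤ ‖e x‖ + ‖(1 : ℂ)‖ := norm_sub_le _ _
        _ = 2 := by rw [norm_e, norm_one]; norm_num
    linarith
  have h5 : 0 ≤ 2 - 4 * δ ^ 2 := by nlinarith
  refine le_of_sq_le_sq ?_ h5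
  nlinarith [norm_nonneg (e x - 1)]

theorem digit_sum_le (b : ℕ) (D : Finset ℕ) (θ : ℝ) : ‖∑ d ∈ D, e ((d : ℝ) * θ)‖ ≤ D.card := by
  refine (norm_sum_le _ _).trans ?_
  simp [norm_e]

theorem digit_sum_save (b : ℕ) (hb : 2 ≤ b) (D : Finset ℕ) (hD : D ⊆ range b) (h2 : 2 ≤ D.card)
    (θ : ℝ) (hθ : ∀ p : ℤ, 1 / (2 * b) ≤ |(b.factorial : ℝ) * θ - p|) :
    ‖∑ d ∈ D, e ((d : ℝ) * θ)‖ ≤ rho b * D.card := by
  have hb0 : (0 : ℝ) < b := by exact_mod_cast (by omega : 0 < b)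
  have hf0 : (0 : ℝ) < (b.factorial : ℝ) := by exact_mod_cast Nat.factorial_pos b
  obtain ⟨d, hd, d', hd', hne⟩ := Finset.one_lt_card.1 (by omega : 1 < D.card)
  wlog hlt : d < d' generalizing d d'
  · exact this d' hd' d hd (Ne.symm hne) (by omega)
  obtain ⟨g, rfl⟩ : ∃ g, d' = d + g := ⟨d' - d, by omega⟩
  have hg0 : 0 < g := by omega
  have hgb : g ≤ b := by
    have := mem_range.1 (hD hd')
    omega
  obtain ⟨G, hG⟩ : g ∣ b.factorial := Nat.dvd_factorial hg0 hgb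
  set δ : ℝ := 1 / (2 * b * (b.factorial : ℝ)) with hδ
  have hδ0 : 0 < δ := by rw [hδ]; positivity
  have hG0 : 0 < G := by
    rcases Nat.eq_zero_or_pos G with h | h
    · rw [h, mul_zero] at hG
      have := Nat.factorial_pos b
      omega
    · exact h
  have hGf : (G : ℝ) ≤ (b.factorial : ℝ) := by
    have : G ≤ b.factorial := by rw [hG]; exact Nat.le_mul_of_pos_left _ hg0
    exact_mod_cast this
  have hG0' : (0 : ℝ) < G := by exact_mod_cast hG0
  have h3 : ∀ p : ℤ, δ ≤ |(g : ℝ) * θ - p| := by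
    intro p
    have h4 := hθ (G * p)
    have h5 : (b.factorial : ℝ) * θ - ((G * p : ℤ) : ℝ) = G * ((g : ℝ) * θ - p) := by
      rw [hG]; push_cast; ring
    rw [h5, abs_mul, abs_of_pos hG0'] at h4
    have h6 : 1 / (2 * (b : ℝ)) ≤ (b.factorial : ℝ) * |(g : ℝ) * θ - p| :=
      h4.trans (mul_le_mul_of_nonneg_right hGf (abs_nonneg _))
    rw [hδ]
    have h7 : 1 / (2 * (b : ℝ) * (b.factorial : ℝ)) = (1 / (2 * (b : ℝ))) / (b.factorial : ℝ) := by
      field_simp
    rw [h7, div_le_iff₀ hf0]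
    linarith
  have h4 := two_point hδ0 h3
  have h5 : ∑ x ∈ D, e ((x : ℝ) * θ) =
      e ((d : ℝ) * θ) * (1 + e ((g : ℝ) * θ)) + ∑ x ∈ (D.erase d).erase (d + g), e ((x : ℝ) * θ) := by
    rw [← Finset.add_sum_erase D _ hd,
      ← Finset.add_sum_erase (D.erase d) _ (mem_erase.2 ⟨by omega, hd'⟩)]
    rw [mul_add, mul_one, ← e_add]
    push_cast
    rw [add_mul]
    ring
  rw [h5]
  have h6 : (((D.erase d).erase (d + g)).card : ℝ) = D.card - 2 := by
    rw [card_erase_of_mem (mem_erase.2 ⟨by omega, hd'⟩), card_erase_of_mem hd]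
    have : D.card - 1 - 1 + 2 = D.card := by omega
    have h7 : ((D.card - 1 - 1 : ℕ) : ℝ) + 2 = D.card := by exact_mod_cast this
    linarith
  have hDb : (D.card : ℝ) ≤ b := by
    have := card_le_card hD
    rw [card_range] at this
    exact_mod_cast this
  calc ‖e ((d : ℝ) * θ) * (1 + e ((g : ℝ) * θ)) + ∑ x ∈ (D.erase d).erase (d + g), e ((x : ℝ) * θ)‖
      ≤ ‖e ((d : ℝ) * θ) * (1 + e ((g : ℝ) * θ))‖ +
        ‖∑ x ∈ (D.erase d).erase (d + g), e ((x : ℝ) * θ)‖ := norm_add_le _ _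
    _ ≤ (2 - 4 * δ ^ 2) + (D.card - 2) := by
        refine add_le_add ?_ ?_
        · rw [norm_mul, norm_e, one_mul]
          exact h4
        · rw [← h6]
          exact digit_sum_le b _ θ
    _ = D.card - 4 * δ ^ 2 := by ring
    _ ≤ rho b * D.card := by
        unfold rho
        rw [← hδ, sub_mul, one_mul]
        have h8 : 4 * δ ^ 2 / b * D.card ≤ 4 * δ ^ 2 := by
          rw [div_mul_eq_mul_div, div_le_iff₀ hb0]
          exact mul_le_mul_of_nonneg_left hDb (by positivity)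
        linarith

end Pool.Agent.V11226.SM
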