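import Pool.Agent.V11226.SM.Sec
import Pool.Agent.V11226.SM.Dev

/-!
# Multiples by numbers with restricted digits: the general theorem
-/

set_option autoImplicit false

namespace Pool.Agent.V11226.SM

open Finset Pool.Agent.V11226.ETN

/-- The number of positions `j` in `J` such that, for every `i`, the word of length `k` of the
base-`b` digits of `z i` at the positions `j, …, j + k - 1` to the left of the point (read as a
number) is `w i`. -/
noncomputable def cnt {n : ℕ} (b k : ℕ) (J : Finset ℕ) (z : Fin n → ℝ) (w : Fin n → ℕ) : ℕ :=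
  (J.filter (fun j => ∀ i, ⌊z i / (b : ℝ) ^ j⌋ % ((b ^ k : ℕ) : ℤ) = (w i : ℤ))).card

theorem cnt_eq {n : ℕ} (b k : ℕ) (J : Finset ℕ) (hb : 2 ≤ b) (z : Fin n → ℝ) (w : Fin n → ℕ) :
    cnt b k J z w =
      (J.filter (fun j => W (b ^ k) (fun j i => z i / (b : ℝ) ^ (j + k)) j = w)).card := by
  unfold cnt
  congr 1
  refine filter_congr fun j _ => ?_
  have hb0 : (0 : ℝ) < b := by exact_mod_cast (by omega : 0 < b)
  rw [funext_iff]
  refine forall_congr' fun i => ?_
  unfold W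
  have h1 := floor_mod (b ^ k) (Nat.pow_pos (by omega)) (z i / (b : ℝ) ^ (j + k))
  have h2 : ((b ^ k : ℕ) : ℝ) * (z i / (b : ℝ) ^ (j + k)) = z i / (b : ℝ) ^ j := by
    push_cast
    rw [pow_add]
    field_simp
  rw [h2] at h1
  rw [← h1]
  exact Nat.cast_inj

open Classical in
/-- The general theorem. -/
theorem gen (b : ℕ) (hb : 2 ≤ b) (n : ℕ) (α : Fin n → ℝ) (c : ℝ) (hc : 0 < c) (K : ℕ)
    (hα : ∀ H : Fin n → ℤ, H ≠ 0 → ∀ p : ℤ,
      c / (∑ i, |(H i : ℝ)|) ^ K ≤ |∑ i, (H i : ℝ) * α i - p|) (k : ℕ) (hk : 1 ≤ k) :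
    ∃ C : ℝ, 0 < C ∧ ∀ ε : ℝ, 0 < ε → ε ≤ 1 → ∀ N : ℕ, ∀ D : ℕ → Finset ℕ,
      (∀ i, D i ⊆ range b ∧ 2 ≤ (D i).card) → ∀ y : Fin n → ℝ, ∀ J : Finset ℕ, J.Nonempty →
      (∀ j ∈ J, j < N) →
      (((digs b D N).filter (fun m : ℕ => ∃ w : Fin n → ℕ, (∀ i, w i < b ^ k) ∧
        ε < |(cnt b k J (fun i => y i + (m : ℝ) * α i) w : ℝ) / J.card -
          1 / ((b : ℝ) ^ k) ^ n|)).card : ℝ) ≤
        C / ε ^ (6 * n + 5) * (J.card : ℝ) ^ (-kap b K) * ((digs b D N).card : ℝ) := by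
  have hb2 : (2 : ℝ) ≤ b := by exact_mod_cast hb
  have hb0 : (0 : ℝ) < b := by linarith
  have hr0 := rho_pos b hb
  set q : ℕ := b ^ k with hq
  have hq2 : 2 ≤ q := by
    calc 2 ≤ b := hb
      _ = b ^ 1 := (pow_one b).symm
      _ ≤ b ^ k := Nat.pow_le_pow_right (by omega) hk
  set A : ℝ := ∑ i, |α i| with hA
  have hA0 : 0 ≤ A := sum_nonneg fun _ _ => abs_nonneg _
  set G : ℝ := (b.factorial : ℝ) with hG
  have hG0 : 0 < G := by rw [hG]; exact_mod_cast Nat.factorial_pos b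
  obtain ⟨a0, ha0⟩ : ∃ a0 : ℕ, (1 + G * A) * G ^ K < c * (b : ℝ) ^ a0 := by
    obtain ⟨a0, ha0⟩ := pow_unbounded_of_one_lt ((1 + G * A) * G ^ K / c)
      (by linarith : (1 : ℝ) < b)
    refine ⟨a0, ?_⟩
    rw [div_lt_iff₀ hc] at ha0
    linarith
  set C1 : ℝ := (q : ℝ) ^ 3 * 2 ^ (3 * n + 9) with hC1
  have hC1p : 0 < C1 := by positivity
  set C2 : ℝ := 2 * k + 2 * (a0 + 1 + (K + 1) * ((n + 1) * C1)) + 1 / rho b with hC2
  have hC2p : 0 < C2 := by positivity
  refine ⟨16 * (3 * C1) ^ (2 * n) * C2, by positivity, ?_⟩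
  intro ε hε0 hε1 N D hD y J hJne hJ
  have hJ1 : 1 ≤ J.card := card_pos.2 hJne
  have hN1 : (1 : ℝ) ≤ J.card := by exact_mod_cast hJ1
  have hN0 : (0 : ℝ) < J.card := by linarith
  obtain ⟨d, g, τ, hd, hg, hτ, hp1, hp2, hp3, hp4⟩ := params n q hq2 ε hε0 hε1
  have hg1 : (1 : ℝ) ≤ g := by exact_mod_cast hg
  set L : ℕ := (n + 1) * g with hL
  have hL1 : 1 ≤ L := Nat.mul_pos (Nat.succ_pos n) hg
  have hL1' : (1 : ℝ) ≤ L := by exact_mod_cast hL1
  have hL0' : (0 : ℝ) < L := by linarith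
  set a : ℕ := a0 + 1 + (K + 1) * L with ha
  have hbL : (L : ℝ) ≤ (b : ℝ) ^ L := by
    have h1 : L < b ^ L := Nat.lt_pow_self (by omega)
    exact_mod_cast h1.le
  have hE : ∀ u ∈ (box n g).erase 0,
      ∑ m ∈ digs b D N, ‖∑ j ∈ J, e (∑ i, (u i : ℝ) *
        ((y i + (m : ℝ) * α i) / (b : ℝ) ^ (j + k)))‖ ^ 2 ≤
      (2 * k + 2 * a + 1 / rho b) * ((J.card : ℝ) ^ 2 * (J.card : ℝ) ^ (-kap b K)) *
        ((digs b D N).card : ℝ) := by
    intro u hu
    rw [mem_erase] at hu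
    obtain ⟨hu0, hub⟩ := hu
    unfold box at hub
    rw [Fintype.mem_piFinset] at hub
    have hug : ∀ i, |(u i : ℝ)| ≤ g := by
      intro i
      have h1 := mem_Icc.1 (hub i)
      rw [abs_le]
      constructor
      · have h2 : ((-(g : ℤ) : ℤ) : ℝ) ≤ (u i : ℝ) := by exact_mod_cast h1.1
        push_cast at h2
        exact h2
      · have h2 : (u i : ℝ) ≤ (((g : ℤ) : ℤ) : ℝ) := by exact_mod_cast h1.2
        push_cast at h2
        exact h2
    have hu1 : ∑ i, |(u i : ℝ)| ≤ L := by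
      calc ∑ i, |(u i : ℝ)| ≤ ∑ _i : Fin n, (g : ℝ) := sum_le_sum fun i _ => hug i
        _ = n * g := by simp
        _ ≤ (n + 1) * g := by nlinarith
        _ = (L : ℝ) := by rw [hL]; push_cast; ring
    set s : ℝ := ∑ i, (u i : ℝ) * α i with hs
    have hsA : |s| ≤ L * A := by
      calc |s| ≤ ∑ i, |(u i : ℝ) * α i| := abs_sum_le_sum_abs _ _
        _ = ∑ i, |(u i : ℝ)| * |α i| := sum_congr rfl fun i _ => abs_mul _ _
        _ ≤ ∑ i, (L : ℝ) * |α i| := by
            refine sum_le_sum fun i _ => mul_le_mul_of_nonneg_right ?_ (abs_nonneg _)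
            refine (hug i).trans ?_
            have : g ≤ L := Nat.le_mul_of_pos_left _ (Nat.succ_pos n)
            exact_mod_cast this
        _ = L * A := by rw [hA, mul_sum]
    have hDio : Dio s (c / (L : ℝ) ^ K) K := by
      intro Q hQ p
      have hQ0 : (0 : ℝ) < Q := by exact_mod_cast hQ
      have h1 := hα (fun i => (Q : ℤ) * u i) (by
        intro h
        apply hu0
        funext i
        have h2 := congrFun h i
        simp only [Pi.zero_apply, mul_eq_zero] at h2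
        rcases h2 with h3 | h3
        · omega
        · exact h3) p
      have h2 : ∑ i, (((Q : ℤ) * u i : ℤ) : ℝ) * α i = Q * s := by
        rw [hs, mul_sum]
        refine sum_congr rfl fun i _ => ?_
        push_cast; ring
      rw [h2] at h1
      refine le_trans ?_ h1
      rw [div_div]
      have h3 : ∑ i, |((((Q : ℤ) * u i : ℤ)) : ℝ)| = Q * ∑ i, |(u i : ℝ)| := by
        rw [mul_sum]
        refine sum_congr rfl fun i _ => ?_
        push_cast
        rw [abs_mul, abs_of_pos hQ0]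
      have h4 : 0 < ∑ i, |(u i : ℝ)| := by
        obtain ⟨i, hi⟩ : ∃ i, u i ≠ 0 := by
          by_contra hcon
          push Not at hcon
          exact hu0 (funext hcon)
        refine sum_pos' (fun _ _ => abs_nonneg _) ⟨i, mem_univ i, ?_⟩
        rw [abs_pos]
        exact_mod_cast hi
      rw [h3]
      refine div_le_div_of_nonneg_left hc.le (by positivity) ?_
      rw [mul_pow, mul_comm]
      exact mul_le_mul_of_nonneg_right (pow_le_pow_left₀ h4.le hu1 K) (by positivity)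
    have hbig : (1 + (b.factorial : ℝ) * |s|) * (b.factorial : ℝ) ^ K <
        c / (L : ℝ) ^ K * (b : ℝ) ^ a := by
      rw [← hG, div_mul_eq_mul_div, lt_div_iff₀ (by positivity)]
      have h1 : 1 + G * |s| ≤ L * (1 + G * A) := by
        have := mul_le_mul_of_nonneg_left hsA hG0.le
        nlinarith
      have h2 : (b : ℝ) ^ a = (b : ℝ) ^ a0 * b * ((b : ℝ) ^ L) ^ (K + 1) := by
        rw [ha, ← pow_mul, ← pow_succ, ← pow_add]
        congr 1; ring
      have h3 : (L : ℝ) ^ (K + 1) ≤ ((b : ℝ) ^ L) ^ (K + 1) :=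
        pow_le_pow_left₀ hL0'.le hbL _
      calc (1 + G * |s|) * G ^ K * (L : ℝ) ^ K
          ≤ (L * (1 + G * A)) * G ^ K * (L : ℝ) ^ K := by
            refine mul_le_mul_of_nonneg_right (mul_le_mul_of_nonneg_right h1 (by positivity))
              (by positivity)
        _ = ((1 + G * A) * G ^ K) * (L : ℝ) ^ (K + 1) := by ring
        _ < (c * (b : ℝ) ^ a0) * (L : ℝ) ^ (K + 1) :=
            mul_lt_mul_of_pos_right ha0 (by positivity)
        _ ≤ (c * (b : ℝ) ^ a0) * ((b : ℝ) ^ L) ^ (K + 1) :=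
            mul_le_mul_of_nonneg_left h3 (by positivity)
        _ ≤ (c * (b : ℝ) ^ a0) * ((b : ℝ) ^ L) ^ (K + 1) * b :=
            le_mul_of_one_le_right (by positivity) (by linarith)
        _ = c * (b : ℝ) ^ a := by rw [h2]; ring
    have h1 := second_pow b hb D (fun i => (hD i).1) (fun i => (hD i).2) s (c / (L : ℝ) ^ K)
      (by positivity) K hDio a (by omega) hbig (∑ i, (u i : ℝ) * y i) N k J hJ hJ1
    refine le_trans (le_of_eq ?_) h1
    refine sum_congr rfl fun m _ => ?_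
    congr 2
    refine sum_congr rfl fun j _ => ?_
    congr 1
    rw [hs, mul_sum, ← sum_add_distrib, sum_div]
    refine sum_congr rfl fun i _ => ?_
    ring
  set E : ℝ := (2 * k + 2 * a + 1 / rho b) * ((J.card : ℝ) ^ 2 * (J.card : ℝ) ^ (-kap b K)) *
        ((digs b D N).card : ℝ) with hEd
  have hE0 : 0 ≤ E := by
    rw [hEd]
    refine mul_nonneg (by positivity) (Nat.cast_nonneg _)
  -- the sum of the squares of `SS`
  have hSS : ∑ m ∈ digs b D N,
      (SS g J (fun j i => (y i + (m : ℝ) * α i) / (b : ℝ) ^ (j + k))) ^ 2 ≤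
      (((box n g).card : ℝ)) ^ 2 * E := by
    have h1 : ∀ m ∈ digs b D N,
        (SS g J (fun j i => (y i + (m : ℝ) * α i) / (b : ℝ) ^ (j + k))) ^ 2 ≤
        (((box n g).erase 0).card : ℝ) * ∑ u ∈ (box n g).erase 0,
          ‖∑ j ∈ J, e (∑ i, (u i : ℝ) *
            ((y i + (m : ℝ) * α i) / (b : ℝ) ^ (j + k)))‖ ^ 2 := by
      intro m _
      unfold SS
      exact sq_sum_le_card_mul_sum_sq
    refine (sum_le_sum h1).trans ?_
    rw [← mul_sum, sum_comm]
    have h2 : ∑ u ∈ (box n g).erase 0, ∑ m ∈ digs b D N, ‖∑ j ∈ J, e (∑ i, (u i : ℝ) *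
            ((y i + (m : ℝ) * α i) / (b : ℝ) ^ (j + k)))‖ ^ 2 ≤
        (((box n g).erase 0).card : ℝ) * E := by
      refine (sum_le_sum hE).trans ?_
      rw [sum_const, nsmul_eq_mul]
    have h3 : (((box n g).erase 0).card : ℝ) ≤ ((box n g).card : ℝ) := by
      exact_mod_cast card_le_card (erase_subset _ _)
    have h4 : (0 : ℝ) ≤ (((box n g).erase 0).card : ℝ) := Nat.cast_nonneg _
    calc (((box n g).erase 0).card : ℝ) * _ ≤
          (((box n g).erase 0).card : ℝ) * ((((box n g).erase 0).card : ℝ) * E) :=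
          mul_le_mul_of_nonneg_left h2 h4
      _ ≤ ((box n g).card : ℝ) * (((box n g).card : ℝ) * E) := by
          refine mul_le_mul h3 (mul_le_mul_of_nonneg_right h3 hE0) (mul_nonneg h4 hE0)
            (Nat.cast_nonneg _)
      _ = (((box n g).card : ℝ)) ^ 2 * E := by ring
  set bad := (digs b D N).filter (fun m : ℕ => ∃ w : Fin n → ℕ, (∀ i, w i < b ^ k) ∧
        ε < |(cnt b k J (fun i => y i + (m : ℝ) * α i) w : ℝ) / J.card -
          1 / ((b : ℝ) ^ k) ^ n|) with hbad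
  have hmk : (bad.card : ℝ) * (ε * J.card / 4) ^ 2 ≤ (((box n g).card : ℝ)) ^ 2 * E := by
    refine le_trans ?_ hSS
    calc (bad.card : ℝ) * (ε * J.card / 4) ^ 2 = ∑ _m ∈ bad, (ε * J.card / 4) ^ 2 := by
          rw [sum_const, nsmul_eq_mul]
      _ ≤ ∑ m ∈ bad, (SS g J (fun j i => (y i + (m : ℝ) * α i) / (b : ℝ) ^ (j + k))) ^ 2 := by
          refine sum_le_sum fun m hm => ?_
          obtain ⟨w, hw, hlt⟩ := (mem_filter.1 hm).2
          refine pow_le_pow_left₀ (by positivity) ?_ 2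
          have h1 := deviation q d g τ ε (by omega) hd hg hτ hp1 hp2 hε0.le hε1 hp3 J
            (fun j i => (y i + (m : ℝ) * α i) / (b : ℝ) ^ (j + k)) w hw
          rw [cnt_eq b k J hb] at hlt
          have h2 : ((q : ℕ) : ℝ) ^ n = ((b : ℝ) ^ k) ^ n := by rw [hq]; push_cast; rfl
          rw [h2] at h1
          rw [← hq] at hlt
          set cc : ℝ := ((J.filter (fun j => W q
            (fun j i => (y i + (m : ℝ) * α i) / (b : ℝ) ^ (j + k)) j = w)).card : ℝ) with hcc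
          have h3 : cc / (J.card : ℝ) - 1 / ((b : ℝ) ^ k) ^ n =
              (cc - (J.card : ℝ) / ((b : ℝ) ^ k) ^ n) / (J.card : ℝ) := by
            field_simp
          rw [h3, abs_div, abs_of_pos hN0, lt_div_iff₀ hN0] at hlt
          linarith
      _ ≤ _ := sum_le_sum_of_subset_of_nonneg (filter_subset _ _) fun _ _ _ => sq_nonneg _
  -- the constants
  have hgε : (g : ℝ) ≤ C1 / ε ^ 3 := hp4
  have hε3 : ε ^ 3 ≤ 1 := pow_le_one₀ hε0.le hε1
  have hcb : ((box n g).card : ℝ) ≤ (3 * C1 / ε ^ 3) ^ n := by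
    rw [card_box]
    push_cast
    refine pow_le_pow_left₀ (by positivity) ?_ n
    have : 3 * C1 / ε ^ 3 = 3 * (C1 / ε ^ 3) := by ring
    rw [this]
    linarith
  have haε : 2 * (k : ℝ) + 2 * a + 1 / rho b ≤ C2 / ε ^ 3 := by
    rw [le_div_iff₀ (by positivity)]
    rw [le_div_iff₀ (by positivity)] at hgε
    have h1 : (a : ℝ) = a0 + 1 + (K + 1) * ((n + 1) * g) := by
      rw [ha, hL]; push_cast; ring
    have h2 : (a : ℝ) * ε ^ 3 ≤ a0 + 1 + (K + 1) * ((n + 1) * C1) := by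
      rw [h1]
      have h3 : ((a0 : ℝ) + 1 + (K + 1) * ((n + 1) * g)) * ε ^ 3 =
          (a0 + 1) * ε ^ 3 + (K + 1) * ((n + 1) * (g * ε ^ 3)) := by ring
      rw [h3]
      refine add_le_add ?_ ?_
      · exact mul_le_of_le_one_right (by positivity) hε3
      · refine mul_le_mul_of_nonneg_left ?_ (by positivity)
        exact mul_le_mul_of_nonneg_left hgε (by positivity)
    have h4 : (k : ℝ) * ε ^ 3 ≤ k := mul_le_of_le_one_right (by positivity) hε3
    have h5 : 1 / rho b * ε ^ 3 ≤ 1 / rho b := mul_le_of_le_one_right (by positivity) hε3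
    rw [hC2]
    nlinarith
  have hΩ : (0 : ℝ) ≤ ((digs b D N).card : ℝ) := Nat.cast_nonneg _
  have hNk : 0 < (J.card : ℝ) ^ (-kap b K) := Real.rpow_pos_of_pos hN0 _
  have hfin : (bad.card : ℝ) * (ε * J.card / 4) ^ 2 ≤
      ((3 * C1 / ε ^ 3) ^ n) ^ 2 * (C2 / ε ^ 3 * ((J.card : ℝ) ^ 2 * (J.card : ℝ) ^ (-kap b K)) *
        ((digs b D N).card : ℝ)) := by
    refine hmk.trans ?_
    refine mul_le_mul (pow_le_pow_left₀ (Nat.cast_nonneg _) hcb 2) ?_ hE0 (by positivity)
    rw [hEd]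
    refine mul_le_mul_of_nonneg_right ?_ hΩ
    exact mul_le_mul_of_nonneg_right haε (by positivity)
  have hpos : 0 < (ε * J.card / 4) ^ 2 := by positivity
  rw [← le_div_iff₀ hpos] at hfin
  refine hfin.trans (le_of_eq ?_)
  have h1 : ε ^ (6 * n + 5) = (ε ^ 3) ^ (2 * n) * ε ^ 3 * ε ^ 2 := by
    rw [← pow_mul, ← pow_add, ← pow_add]; congr 1; ring
  rw [h1, ← pow_mul, div_pow, mul_comm n 2]
  field_simp
  norm_num

end Pool.Agent.V11226.SM
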