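import Pool.Agent.V11226.SM.Qual
import Pool.Agent.Y933.KE.DiophP

/-!
# Multiples of `p ^ n` by numbers with restricted digits
-/

set_option autoImplicit false

namespace Pool.Agent.V11226.SM

open Finset Pool.Agent.V11226.ETN

/-- Number of the places `j ∈ J` at which the word `w` of `k` digits in base `q` stands in `z`. -/
noncomputable def occP (q k : ℕ) (J : Finset ℕ) (z : ℝ) (w : ℕ) : ℕ :=
  (J.filter (fun j => ⌊z / (q : ℝ) ^ j⌋ % ((q ^ k : ℕ) : ℤ) = (w : ℤ))).card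

theorem occP_eq (q k : ℕ) (J : Finset ℕ) (hq : 2 ≤ q) (z : ℝ) (w : Fin 1 → ℕ) :
    occP q k J z (w 0) =
      (J.filter (fun j => W (q ^ k) (fun j (_ : Fin 1) => z / (q : ℝ) ^ (j + k)) j = w)).card := by
  unfold occP
  congr 1
  refine filter_congr fun j _ => ?_
  have hq0 : (0 : ℝ) < q := by exact_mod_cast (by omega : 0 < q)
  rw [funext_iff, Unique.forall_iff]
  unfold W
  have h1 := floor_mod (q ^ k) (Nat.pow_pos (by omega)) (z / (q : ℝ) ^ (j + k))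
  have h2 : ((q ^ k : ℕ) : ℝ) * (z / (q : ℝ) ^ (j + k)) = z / (q : ℝ) ^ j := by
    push_cast
    rw [pow_add]
    field_simp
  rw [h2] at h1
  rw [← h1]
  exact Nat.cast_inj

theorem not_dvd (q v0 : ℕ) (hq : 2 ≤ q) (z : ℤ) (hz : z ≠ 0) (hzv : |z| ≤ v0) (f r J : ℕ)
    (hr : 1 ≤ r) (hJ : f + v0 ≤ J) : ¬ (q : ℤ) ^ J ∣ z * (q : ℤ) ^ (f + r) - z * (q : ℤ) ^ f := by
  intro h
  obtain ⟨l, rfl⟩ : ∃ l, J = f + l := ⟨J - f, by omega⟩
  have hq0 : (q : ℤ) ≠ 0 := by omega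
  have e1 : z * (q : ℤ) ^ (f + r) - z * (q : ℤ) ^ f = (q : ℤ) ^ f * (z * ((q : ℤ) ^ r - 1)) := by
    rw [pow_add]; ring
  rw [e1, pow_add] at h
  have h1 := (mul_dvd_mul_iff_left (pow_ne_zero f hq0)).1 h
  have hco : IsCoprime ((q : ℤ) ^ l) ((q : ℤ) ^ r - 1) := by
    refine IsCoprime.pow_left ?_
    obtain ⟨r', rfl⟩ : ∃ r', r = r' + 1 := ⟨r - 1, by omega⟩
    refine ⟨(q : ℤ) ^ r', -1, ?_⟩
    ring
  have h2 : (q : ℤ) ^ l ∣ z := hco.dvd_of_dvd_mul_right h1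
  have h3 : (q : ℤ) ^ l ≤ |z| := Int.le_of_dvd (abs_pos.2 hz) ((dvd_abs _ _).2 h2)
  have h4 : v0 < q ^ v0 := Nat.lt_pow_self (by omega)
  have h5 : q ^ v0 ≤ q ^ l := Nat.pow_le_pow_right (by omega) (by omega)
  have h6 : ((v0 : ℕ) : ℤ) < (q : ℤ) ^ l := by exact_mod_cast lt_of_lt_of_le h4 h5
  omega

/-- the product over the digits in a window -/
theorem pairW' (a : ℕ) (ha : 2 ≤ a) (D : ℕ → Finset ℕ) (hD : ∀ i, D i ⊆ range a)
    (hD2 : ∀ i, 2 ≤ (D i).card) (θ : ℝ) (w F K N b : ℕ)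
    (h : ∀ f < F, ∀ p : ℤ, 1 / (a : ℝ) ^ w ≤ |(a.factorial : ℝ) * ((a : ℝ) ^ (b + f) * θ) - p|)
    (hK : K * (w + 1) ≤ F) (hF : b + F ≤ N) :
    ‖∑ m ∈ digs a D N, e ((m : ℝ) * θ)‖ ≤ rho a ^ K * ((digs a D N).card : ℝ) := by
  have hr0 := rho_pos a ha
  have hr1 := rho_lt a ha
  have e0 : ∀ f : ℕ, (a : ℝ) ^ (b + f) * θ = (a : ℝ) ^ f * ((a : ℝ) ^ b * θ) := by
    intro f; rw [pow_add]; ring
  rw [fac a D ha hD, card_digs a D ha hD, norm_prod]
  obtain ⟨S, hS1, hS2⟩ := manyW a ha (a.factorial : ℝ) ((a : ℝ) ^ b * θ) w F (by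
    intro f hf p
    have := h f hf p
    rwa [e0] at this) K hK
  set S' := S.image (fun f => b + f) with hS'
  have hcard : S'.card = S.card := by
    rw [hS', card_image_of_injective]
    intro x y hxy
    simpa using hxy
  have hsub : S' ⊆ range N := by
    intro i hi
    rw [hS', mem_image] at hi
    obtain ⟨f, hf, rfl⟩ := hi
    have := (hS2 f hf).1
    rw [mem_range]
    omega
  have h1 : ∀ i ∈ range N, ‖∑ d ∈ D i, e ((d : ℝ) * ((a : ℝ) ^ i * θ))‖ ≤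
      (if i ∈ S' then rho a else 1) * ((D i).card : ℝ) := by
    intro i hi
    by_cases h : i ∈ S'
    · rw [if_pos h]
      rw [hS', mem_image] at h
      obtain ⟨f, hf, rfl⟩ := h
      refine digit_sum_save a ha (D _) (hD _) (hD2 _) _ ?_
      intro p
      have h2 := (hS2 f hf).2
      unfold TrivT at h2
      push Not at h2
      rw [e0]
      exact h2 p
    · rw [if_neg h, one_mul]
      exact digit_sum_le a _ _
  calc ∏ i ∈ range N, ‖∑ d ∈ D i, e ((d : ℝ) * ((a : ℝ) ^ i * θ))‖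
      ≤ ∏ i ∈ range N, ((if i ∈ S' then rho a else 1) * ((D i).card : ℝ)) :=
        prod_le_prod (fun _ _ => norm_nonneg _) h1
    _ = rho a ^ S'.card * ∏ i ∈ range N, ((D i).card : ℝ) := by
        rw [prod_mul_distrib]
        congr 1
        rw [prod_ite_mem, inter_eq_right.2 hsub, prod_const]
    _ ≤ rho a ^ K * ((∏ i ∈ range N, (D i).card : ℕ) : ℝ) := by
        push_cast
        refine mul_le_mul_of_nonneg_right ?_ (prod_nonneg fun _ _ => Nat.cast_nonneg _)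
        exact pow_le_pow_of_le_one hr0.le hr1.le (by omega)

theorem far_key (p q : ℕ) (hq : 2 ≤ q) (k v0 F w n ℓ : ℕ) (κ2 δ η' : ℝ)
    (hκ20 : 0 < κ2) (hκn : 1 ≤ κ2 * n)
    (hL : ∀ (N J : ℕ) (ν : Fin 2 → ℕ) (h : Fin 2 → ℤ) (P : ℤ), (N : ℝ) ≤ (κ2 + p + 1) * n →
      (∀ i, (ν i : ℝ) ≤ (κ2 + p + 1) * n) → q ^ J ≤ p ^ N →
      (∀ i, |(h i : ℝ)| ≤ Real.exp (η' * n)) → ¬ (q : ℤ) ^ J ∣ ∑ i, h i * (q : ℤ) ^ ν i →
      Real.exp (-(δ * n)) <
        |(p : ℝ) ^ N * (((∑ i, h i * (q : ℤ) ^ ν i : ℤ) : ℝ) / (q : ℝ) ^ J) - P|)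
    (haw : 1 / (q : ℝ) ^ w ≤ Real.exp (-(δ * n))) (hFR : (F : ℝ) + v0 ≤ κ2 * n)
    (b4 : (v0 : ℝ) ≤ n * η') (hℓ : q ^ ℓ ≤ p ^ n) (hℓ2 : κ2 * n ≤ ℓ)
    (z : ℤ) (hz : z ≠ 0) (hzv : |z| ≤ v0) (j1 j2 : ℕ)
    (hlt : j1 < j2) (hj2n : κ2 * n ≤ j2) (f : ℕ) (hf : f < F)
    (P : ℤ) : 1 / (q : ℝ) ^ w ≤
        |(q : ℝ) ^ (j2 + k - min (j2 + k) ℓ + f) * ((z : ℝ) * (p : ℝ) ^ n / (q : ℝ) ^ (j1 + k) -
          (z : ℝ) * (p : ℝ) ^ n / (q : ℝ) ^ (j2 + k)) - P| := by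
  have hq2 : (2 : ℝ) ≤ q := by exact_mod_cast hq
  have hq0 : (0 : ℝ) < q := by linarith
  have hp0 : (0 : ℝ) ≤ p := Nat.cast_nonneg p
  have hn0 : (0 : ℝ) ≤ n := Nat.cast_nonneg n
  refine haw.trans ?_
  set J : ℕ := min (j2 + k) ℓ with hJ
  have hJℓ : J ≤ ℓ := min_le_right _ _
  have hJj : J ≤ j2 + k := min_le_left _ _
  obtain ⟨b, hb⟩ : ∃ b, j2 + k = b + J := ⟨j2 + k - J, by omega⟩
  have hb' : j2 + k - J = b := by omega
  rw [hb']
  obtain ⟨r, hr⟩ : ∃ r, j2 = j1 + r := ⟨j2 - j1, by omega⟩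
  have hr1 : 1 ≤ r := by omega
  have hJR : κ2 * n ≤ J := by
    rcases min_choice (j2 + k) ℓ with h | h
    · rw [hJ, h]; push_cast
      have : (0 : ℝ) ≤ k := Nat.cast_nonneg _
      linarith
    · rw [hJ, h]; exact hℓ2
  have hJ1 : 1 ≤ J := by
    have : (1 : ℝ) ≤ J := by linarith
    exact_mod_cast this
  have hqJ : q ^ J ≤ p ^ n := (Nat.pow_le_pow_right (by omega) hJℓ).trans hℓ
  have hJb : J ≤ p * n := by
    have h2 : p ^ n ≤ q ^ (p * n) := by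
      calc p ^ n ≤ (q ^ p) ^ n := Nat.pow_le_pow_left (Nat.lt_pow_self (by omega)).le n
        _ = q ^ (p * n) := by rw [← pow_mul]
    exact (Nat.pow_le_pow_iff_right (by omega)).1 (hqJ.trans h2)
  have hJbR : (J : ℝ) ≤ p * n := by exact_mod_cast hJb
  have hv00 : (0 : ℝ) ≤ v0 := Nat.cast_nonneg _
  have hfF : (f : ℝ) ≤ F := by exact_mod_cast hf.le
  have hfR : (f : ℝ) ≤ κ2 * n := by linarith
  -- the value
  have hE : (q : ℝ) ^ (b + f) * ((z : ℝ) * (p : ℝ) ^ n / (q : ℝ) ^ (j1 + k) -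
          (z : ℝ) * (p : ℝ) ^ n / (q : ℝ) ^ (j2 + k)) =
      (p : ℝ) ^ n * (((z : ℝ) * (q : ℝ) ^ (f + r) - z * (q : ℝ) ^ f) / (q : ℝ) ^ J) := by
    have e1 : (q : ℝ) ^ b * (q : ℝ) ^ J = (q : ℝ) ^ (j1 + k) * (q : ℝ) ^ r := by
      rw [← pow_add, ← pow_add, ← hb, hr]; congr 1; ring
    have e2 : (q : ℝ) ^ (j2 + k) = (q : ℝ) ^ b * (q : ℝ) ^ J := by rw [← pow_add, ← hb]
    have e3 : (1 : ℝ) / (q : ℝ) ^ (j1 + k) = (q : ℝ) ^ r / ((q : ℝ) ^ b * (q : ℝ) ^ J) := by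
      rw [e1]; field_simp
    have e4 : (z : ℝ) * (p : ℝ) ^ n / (q : ℝ) ^ (j1 + k) =
        z * (p : ℝ) ^ n * ((q : ℝ) ^ r / ((q : ℝ) ^ b * (q : ℝ) ^ J)) := by
      rw [← e3]; ring
    rw [e4, e2, pow_add, pow_add]
    field_simp
  set r' : ℕ := min r J with hr'
  have hr'1 : 1 ≤ r' := le_min hr1 hJ1
  have hr'J : r' ≤ J := min_le_right _ _
  obtain ⟨I, hI⟩ : ∃ I : ℤ, (p : ℝ) ^ n * (((z : ℝ) * (q : ℝ) ^ (f + r) - z * (q : ℝ) ^ f) /
      (q : ℝ) ^ J) = (p : ℝ) ^ n * (((z : ℝ) * (q : ℝ) ^ (f + r') - z * (q : ℝ) ^ f) /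
      (q : ℝ) ^ J) + I := by
    rcases le_total r J with h | h
    · refine ⟨0, ?_⟩
      rw [hr', min_eq_left h]
      simp
    · obtain ⟨s, rfl⟩ : ∃ s, r = J + s := ⟨r - J, by omega⟩
      refine ⟨(p : ℤ) ^ n * (z * ((q : ℤ) ^ (f + s) - (q : ℤ) ^ f)), ?_⟩
      rw [hr', min_eq_right h]
      push_cast
      rw [pow_add, pow_add, pow_add, pow_add]
      field_simp
      ring
  have hr'R : (r' : ℝ) ≤ J := by exact_mod_cast hr'J
  have hr'0 : (0 : ℝ) ≤ r' := Nat.cast_nonneg _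
  have e0 : (κ2 + p + 1) * (n : ℝ) = κ2 * n + p * n + n := by ring
  have e1 : 0 ≤ κ2 * n := by positivity
  have e2 : 0 ≤ (p : ℝ) * n := by positivity
  have g1 : (n : ℝ) ≤ (κ2 + p + 1) * n := by rw [e0]; linarith
  have g2 : ∀ i : Fin 2, (((![f + r', f] : Fin 2 → ℕ) i : ℕ) : ℝ) ≤ (κ2 + p + 1) * n := by
    intro i
    rw [e0]
    fin_cases i
    · simp only [Fin.zero_eta, Matrix.cons_val_zero]
      push_cast
      linarith
    · simp only [Fin.mk_one, Matrix.cons_val_one, Matrix.cons_val_zero]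
      linarith
  have g3 : ∀ i : Fin 2, |(((![z, -z] : Fin 2 → ℤ) i : ℤ) : ℝ)| ≤ Real.exp (η' * n) := by
    have h2 : |(z : ℝ)| ≤ Real.exp (η' * n) := by
      have h3 : |(z : ℝ)| ≤ v0 := by exact_mod_cast hzv
      have h4 := Real.add_one_le_exp (η' * n)
      linarith
    intro i
    fin_cases i
    · simpa using h2
    · simpa using h2
  have g4 : ¬ (q : ℤ) ^ J ∣
      ∑ i, (![z, -z] : Fin 2 → ℤ) i * (q : ℤ) ^ (![f + r', f] : Fin 2 → ℕ) i := by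
    rw [Fin.sum_univ_two]
    simp only [Matrix.cons_val_zero, Matrix.cons_val_one]
    have h2 := not_dvd q v0 hq z hz hzv f r' J hr'1 (by
      have h3 : ((f : ℝ) + v0) ≤ (J : ℝ) := by linarith
      exact_mod_cast h3)
    rwa [neg_mul, ← sub_eq_add_neg]
  have h1 := hL n J ![f + r', f] ![z, -z] (P - I) g1 g2 hqJ g3 g4
  rw [Fin.sum_univ_two] at h1
  simp only [Matrix.cons_val_zero, Matrix.cons_val_one] at h1
  refine h1.le.trans (le_of_eq ?_)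
  rw [hE, hI]
  congr 1
  push_cast
  ring

open Classical in
theorem qpow (p q : ℕ) (hp : 2 ≤ p) (hq : 2 ≤ q) (hpq : p.Coprime q) (k : ℕ) (hk : 1 ≤ k)
    (κ ε η : ℝ) (hκ : 0 < κ) (hε0 : 0 < ε) (hε1 : ε ≤ 1) (hη : 0 < η) :
    ∃ n₀ : ℕ, ∀ n : ℕ, n₀ ≤ n → ∀ N : ℕ, κ * n ≤ N → ∀ D : ℕ → Finset ℕ,
      (∀ i, D i ⊆ range q ∧ 2 ≤ (D i).card) → ∀ J : Finset ℕ, κ * n ≤ J.card →
      (∀ j ∈ J, j + k ≤ N + Nat.log q (p ^ n)) → ∀ y : ℝ,
      (((digs q D N).filter (fun m : ℕ => ∃ w < q ^ k,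
        ε < |(occP q k J (y + (m : ℝ) * (p : ℝ) ^ n) w : ℝ) / J.card -
          1 / (q : ℝ) ^ k|)).card : ℝ) ≤ η * ((digs q D N).card : ℝ) := by
  have hq2 : (2 : ℝ) ≤ q := by exact_mod_cast hq
  have hq0 : (0 : ℝ) < q := by linarith
  have hp2 : (2 : ℝ) ≤ p := by exact_mod_cast hp
  have hr0 := rho_pos q hq
  have hr1 := rho_lt q hq
  have hlq : 0 < Real.log q := Real.log_pos (by linarith)
  have hlp : 0 < Real.log p := Real.log_pos (by linarith)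
  set Q : ℕ := q ^ k with hQ
  have hQ2 : 2 ≤ Q := by
    calc 2 ≤ q := hq
      _ = q ^ 1 := (pow_one q).symm
      _ ≤ q ^ k := Nat.pow_le_pow_right (by omega) hk
  obtain ⟨d, g, τ, hd, hg, hτ, hp1, hp2', hp3, -⟩ := params 1 Q hQ2 ε hε0 hε1
  have hbox : (0 : ℝ) < ((box 1 g).card : ℝ) := by
    exact_mod_cast card_pos.2 ⟨0, zero_mem_box 1 g⟩
  set ζ : ℝ := η * ε ^ 2 / (16 * (((box 1 g).card : ℝ)) ^ 2) with hζ
  have hζ0 : 0 < ζ := by rw [hζ]; exact div_pos (by positivity) (mul_pos (by norm_num) (pow_pos hbox 2))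
  obtain ⟨K, hK⟩ : ∃ K : ℕ, rho q ^ K < ζ / 3 := exists_pow_lt_of_lt_one (by positivity) hr1
  have hK0 : (0 : ℝ) ≤ K := Nat.cast_nonneg K
  obtain ⟨σ, hσ0, hσ1, hσ2, hσ3⟩ : ∃ σ : ℝ, 0 < σ ∧ σ ≤ 1 ∧ σ ≤ ζ / 12 ∧
      σ * κ ≤ Real.log p / Real.log q := by
    refine ⟨min (min 1 (ζ / 12)) (Real.log p / Real.log q / κ), by positivity, ?_, ?_, ?_⟩
    · exact (min_le_left _ _).trans (min_le_left _ _)
    · exact (min_le_left _ _).trans (min_le_right _ _)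
    · rw [← le_div_iff₀ hκ]
      exact min_le_right _ _
  obtain ⟨κ2, hκ2⟩ : ∃ κ2 : ℝ, κ2 = κ * σ / 2 := ⟨_, rfl⟩
  have hκ20 : 0 < κ2 := by rw [hκ2]; positivity
  have hκ21 : κ2 ≤ κ := by
    have : κ * σ ≤ κ * 1 := mul_le_mul_of_nonneg_left hσ1 hκ.le
    rw [hκ2]; linarith
  obtain ⟨v0, hv0⟩ : ∃ v0 : ℕ, v0 = q.factorial * g := ⟨_, rfl⟩
  obtain ⟨δ, hδ⟩ : ∃ δ : ℝ, δ = κ2 / (8 * ((K : ℝ) + 1)) := ⟨_, rfl⟩
  have hδ0 : 0 < δ := by rw [hδ]; positivity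
  have hp0 : (0 : ℝ) ≤ p := Nat.cast_nonneg p
  obtain ⟨η', hη', L0, hL0⟩ := Pool.Agent.Y933.KE.powers_far hp hq hpq 2 (κ2 + p + 1) δ hδ0
  obtain ⟨n1, hn1⟩ := exists_nat_gt (3 / (ζ * κ) + 2 / (κ * σ) + (4 * K + 2 * v0 + 4) / κ2 +
    v0 / η')
  refine ⟨max L0 (n1 + 1), ?_⟩
  intro n hn N hN D hD J hJc hJ y
  have hnL : L0 ≤ n := le_of_max_le_left hn
  have hnn1 : n1 + 1 ≤ n := le_of_max_le_right hn
  have hnR : 3 / (ζ * κ) + 2 / (κ * σ) + (4 * K + 2 * v0 + 4) / κ2 + v0 / η' < n := by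
    have : (n1 : ℝ) + 1 ≤ n := by exact_mod_cast hnn1
    linarith
  have hv00 : (0 : ℝ) ≤ v0 := Nat.cast_nonneg _
  have t1 : 0 ≤ 3 / (ζ * κ) := by positivity
  have t2 : 0 ≤ 2 / (κ * σ) := by positivity
  have t3 : 0 ≤ (4 * K + 2 * v0 + 4) / κ2 := by positivity
  have t4 : 0 ≤ v0 / η' := by positivity
  have hn0 : (0 : ℝ) < n := by
    have : 1 ≤ n := by omega
    exact_mod_cast this
  have b1 : 3 ≤ n * (ζ * κ) := by
    have : 3 / (ζ * κ) ≤ n := by linarith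
    rwa [div_le_iff₀ (by positivity)] at this
  have b2 : 2 ≤ n * (κ * σ) := by
    have : 2 / (κ * σ) ≤ n := by linarith
    rwa [div_le_iff₀ (by positivity)] at this
  have b3 : 4 * K + 2 * v0 + 4 ≤ n * κ2 := by
    have : (4 * K + 2 * v0 + 4) / κ2 ≤ n := by linarith
    rwa [div_le_iff₀ (by positivity)] at this
  have b4 : (v0 : ℝ) ≤ n * η' := by
    have : v0 / η' ≤ n := by linarith
    rwa [div_le_iff₀ (by positivity)] at this
  have hκn : 0 < κ * n := by positivity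
  have hJ0 : (0 : ℝ) < J.card := by linarith
  have hJne : J.Nonempty := by
    rw [← card_pos]
    exact_mod_cast hJ0
  obtain ⟨ℓ, hℓd⟩ : ∃ ℓ : ℕ, ℓ = Nat.log q (p ^ n) := ⟨_, rfl⟩
  have hℓ : q ^ ℓ ≤ p ^ n := by
    rw [hℓd]; exact Nat.pow_log_le_self q (pow_ne_zero _ (by omega))
  have hℓ2 : κ2 * n ≤ ℓ := by
    have h1 : p ^ n < q ^ (ℓ + 1) := by
      rw [hℓd]; exact Nat.lt_pow_succ_log_self (by omega) _
    have h2 : (p : ℝ) ^ n < (q : ℝ) ^ (ℓ + 1) := by exact_mod_cast h1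
    have h3 := Real.log_lt_log (by positivity) h2
    rw [Real.log_pow, Real.log_pow] at h3
    push_cast at h3
    have h4 : n * (Real.log p / Real.log q) < ℓ + 1 := by
      rw [← mul_div_assoc, div_lt_iff₀ hlq]; exact h3
    have h5 : (n : ℝ) * (σ * κ) ≤ n * (Real.log p / Real.log q) :=
      mul_le_mul_of_nonneg_left hσ3 hn0.le
    have h6 : κ2 * n = n * (κ * σ) / 2 := by rw [hκ2]; ring
    have h7 : (n : ℝ) * (σ * κ) = n * (κ * σ) := by ring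
    linarith
  -- the windows
  obtain ⟨w, hw⟩ : ∃ w : ℕ, w = ⌈2 * δ * n⌉₊ := ⟨_, rfl⟩
  have hw1 : 2 * δ * n ≤ w := by rw [hw]; exact Nat.le_ceil _
  have hw2 : (w : ℝ) < 2 * δ * n + 1 := by rw [hw]; exact Nat.ceil_lt_add_one (by positivity)
  obtain ⟨F, hF⟩ : ∃ F : ℕ, F = K * (w + 1) := ⟨_, rfl⟩
  have hFR : (F : ℝ) + v0 ≤ κ2 * n := by
    have h2 : (F : ℝ) ≤ K * (2 * δ * n + 2) := by
      rw [hF]; push_cast
      exact mul_le_mul_of_nonneg_left (by linarith) hK0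
    have h3 : (K : ℝ) * (2 * δ) ≤ κ2 / 4 := by
      rw [hδ]
      rw [show (K : ℝ) * (2 * (κ2 / (8 * ((K : ℝ) + 1)))) = (2 * K * κ2) / (8 * ((K : ℝ) + 1)) by ring]
      rw [div_le_div_iff₀ (by positivity) (by norm_num)]
      nlinarith
    have h4 : (K : ℝ) * (2 * δ * n + 2) = (K * (2 * δ)) * n + 2 * K := by ring
    have h5 : (K * (2 * δ)) * (n : ℝ) ≤ κ2 / 4 * n := mul_le_mul_of_nonneg_right h3 hn0.le
    have h6 : κ2 / 4 * (n : ℝ) = 1 / 4 * (n * κ2) := by ring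
    have h7 : 0 < n * κ2 := by positivity
    linarith
  have hFN : F ≤ N := by
    have h1 : (F : ℝ) ≤ N := by
      have h2 : κ2 * (n : ℝ) ≤ κ * n := mul_le_mul_of_nonneg_right hκ21 hn0.le
      linarith
    exact_mod_cast h1
  have haw : 1 / (q : ℝ) ^ w ≤ Real.exp (-(δ * n)) := by
    rw [Real.exp_neg, one_div]
    refine inv_anti₀ (Real.exp_pos _) ?_
    have h1 : Real.exp (δ * n) ≤ (2 : ℝ) ^ (w : ℝ) := by
      rw [Real.rpow_def_of_pos (by norm_num : (0 : ℝ) < 2)]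
      apply Real.exp_le_exp.2
      have h2 : (1 : ℝ) / 2 ≤ Real.log 2 := by
        have := Real.log_two_gt_d9
        linarith
      have h3 : Real.log 2 * (w : ℝ) ≥ 1 / 2 * w :=
        mul_le_mul_of_nonneg_right h2 (Nat.cast_nonneg _)
      linarith
    rw [Real.rpow_natCast] at h1
    exact h1.trans (pow_le_pow_left₀ (by norm_num) hq2 w)
  have hκn1 : 1 ≤ κ2 * n := by
    have : n * κ2 = κ2 * n := by ring
    linarith
  obtain ⟨Z, hZ⟩ : ∃ Z : ℕ, Z = ⌈κ2 * n⌉₊ := ⟨_, rfl⟩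
  have hZ1 : κ2 * n ≤ Z := by rw [hZ]; exact Nat.le_ceil _
  have hZ2 : (Z : ℝ) < κ2 * n + 1 := by rw [hZ]; exact Nat.ceil_lt_add_one (by positivity)
  have hFZ : F ≤ Z := by
    have : (F : ℝ) ≤ Z := by linarith
    exact_mod_cast this
  have hZJ : (Z : ℝ) ≤ σ * J.card := by
    have h7 : σ * (κ * n) ≤ σ * J.card := mul_le_mul_of_nonneg_left hJc hσ0.le
    have h8 : κ2 * (n : ℝ) = n * (κ * σ) / 2 := by rw [hκ2]; ring
    have h9 : σ * (κ * n) = n * (κ * σ) := by ring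
    linarith
  -- the pairs
  have hpair : ∀ (z : ℤ), z ≠ 0 → |z| ≤ v0 → ∀ j1 ∈ J, ∀ j2 ∈ J, j1 < j2 → Z ≤ j2 →
      j2 + k + Z ≤ N + ℓ → ∀ f < F, ∀ P : ℤ, 1 / (q : ℝ) ^ w ≤
        |(q : ℝ) ^ (j2 + k - min (j2 + k) ℓ + f) * ((z : ℝ) * (p : ℝ) ^ n / (q : ℝ) ^ (j1 + k) -
          (z : ℝ) * (p : ℝ) ^ n / (q : ℝ) ^ (j2 + k)) - P| := by
    intro z hz hzv j1 _ j2 _ hlt hZj _ f hf P
    have hj2n : κ2 * n ≤ j2 := hZ1.trans (by exact_mod_cast hZj)
    exact far_key p q hq k v0 F w n ℓ κ2 δ η' hκ20 hκn1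
      (fun N J ν h P => hL0 n hnL N J ν h P) haw hFR b4 hℓ hℓ2
      z hz hzv j1 j2 hlt hj2n f hf P
  set bad := (digs q D N).filter (fun m : ℕ => ∃ w < q ^ k,
        ε < |(occP q k J (y + (m : ℝ) * (p : ℝ) ^ n) w : ℝ) / J.card -
          1 / (q : ℝ) ^ k|) with hbad
  have hmk := conclude q D N bad (filter_subset _ _) 1 Q d g τ ε ζ (by omega) hd hg hτ hp1 hp2'
    hε0 hε1 hζ0.le hp3 J hJne (fun m j _ => (y + (m : ℝ) * (p : ℝ) ^ n) / (q : ℝ) ^ (j + k)) ?_ (by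
      intro m hm
      obtain ⟨w, hw, hlt⟩ := (mem_filter.1 hm).2
      refine ⟨fun _ => w, fun _ => hw, ?_⟩
      have h1 := occP_eq q k J hq (y + (m : ℝ) * (p : ℝ) ^ n) (fun _ => w)
      rw [h1] at hlt
      have h2 : ((Q : ℕ) : ℝ) ^ 1 = (q : ℝ) ^ k := by rw [hQ]; push_cast; ring
      rw [h2]
      exact hlt)
  · refine hmk.trans (le_of_eq ?_)
    have hb0 := hbox.ne'
    rw [hζ]
    field_simp
  · intro u hu
    rw [mem_erase] at hu
    obtain ⟨hu0, hub⟩ := hu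
    unfold box at hub
    rw [Fintype.mem_piFinset] at hub
    have hug : |u 0| ≤ (g : ℤ) := by
      have h1 := mem_Icc.1 (hub 0)
      rw [abs_le]
      exact h1
    have hu00 : u 0 ≠ 0 := by
      intro h0
      apply hu0
      funext i
      rw [Fin.fin_one_eq_zero i, h0]
      rfl
    have hG : (q.factorial : ℤ) ≠ 0 := by exact_mod_cast (Nat.factorial_pos q).ne'
    have hz : (q.factorial : ℤ) * u 0 ≠ 0 := mul_ne_zero hG hu00
    have hzv : |(q.factorial : ℤ) * u 0| ≤ v0 := by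
      rw [abs_mul, abs_of_nonneg (by positivity : (0 : ℤ) ≤ (q.factorial : ℤ)), hv0]
      push_cast
      exact mul_le_mul_of_nonneg_left hug (by positivity)
    have hwin : ∀ j2, j2 + k + Z ≤ N + ℓ → j2 + k - min (j2 + k) ℓ + F ≤ N := by
      intro j2 hj2
      rcases min_choice (j2 + k) ℓ with h | h
      · rw [h]; omega
      · rw [h]; omega
    have h1 := secondW q D N (fun j => (u 0 : ℝ) * y / (q : ℝ) ^ (j + k))
      (fun j => (u 0 : ℝ) * (p : ℝ) ^ n / (q : ℝ) ^ (j + k)) J (rho q ^ K) (pow_nonneg hr0.le _)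
      (fun j j' => j = j' ∨ (j < Z ∨ N + ℓ < j + k + Z) ∨ (j' < Z ∨ N + ℓ < j' + k + Z)) (by
        intro j hj j' hj' hjj
        push Not at hjj
        obtain ⟨hne, ⟨hj1, hj2⟩, ⟨hj1', hj2'⟩⟩ := hjj
        rcases lt_or_gt_of_ne hne with hlt | hlt
        · refine pairW' q hq D (fun i => (hD i).1) (fun i => (hD i).2) _ w F K N
            (j' + k - min (j' + k) ℓ) ?_ hF.ge (hwin j' hj2')
          intro f hf P
          have h3 := hpair _ hz hzv j hj j' hj' hlt hj1' hj2' f hf P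
          refine h3.trans (le_of_eq ?_)
          congr 1
          push_cast
          ring
        · refine pairW' q hq D (fun i => (hD i).1) (fun i => (hD i).2) _ w F K N
            (j + k - min (j + k) ℓ) ?_ hF.ge (hwin j hj2)
          intro f hf P
          have h3 := hpair _ (neg_ne_zero.2 hz) (by rw [abs_neg]; exact hzv) j' hj' j hj hlt hj1
            hj2 f hf P
          refine h3.trans (le_of_eq ?_)
          congr 1
          push_cast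
          ring)
    have hedge : (J.filter (fun j => j < Z ∨ N + ℓ < j + k + Z)).card ≤ 2 * Z := by
      have h3 : J.filter (fun j => j < Z ∨ N + ℓ < j + k + Z) ⊆
          range Z ∪ Ico (N + ℓ + 1 - k - Z) (N + ℓ + 1 - k) := by
        intro x hx
        rw [mem_filter] at hx
        rw [mem_union, mem_range, mem_Ico]
        have h4 := hJ x hx.1
        rw [← hℓd] at h4
        rcases hx.2 with h5 | h5
        · left; exact h5
        · right; omega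
      refine (card_le_card h3).trans ((card_union_le _ _).trans ?_)
      rw [card_range, Nat.card_Ico]
      omega
    have h2 : (((J ×ˢ J).filter (fun x : ℕ × ℕ => x.1 = x.2 ∨
        (x.1 < Z ∨ N + ℓ < x.1 + k + Z) ∨ (x.2 < Z ∨ N + ℓ < x.2 + k + Z))).card : ℝ) ≤
        J.card + 4 * Z * J.card := by
      set T := J.filter (fun j => j < Z ∨ N + ℓ < j + k + Z) with hT
      have h3 : (J ×ˢ J).filter (fun x : ℕ × ℕ => x.1 = x.2 ∨
        (x.1 < Z ∨ N + ℓ < x.1 + k + Z) ∨ (x.2 < Z ∨ N + ℓ < x.2 + k + Z)) ⊆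
          J.image (fun j => (j, j)) ∪ ((T ×ˢ J) ∪ (J ×ˢ T)) := by
        intro x hx
        rw [mem_filter, mem_product] at hx
        rw [mem_union, mem_image, mem_union, mem_product, mem_product]
        rcases hx.2 with h4 | h4 | h4
        · left
          exact ⟨x.1, hx.1.1, by ext <;> simp [h4]⟩
        · right; left
          exact ⟨mem_filter.2 ⟨hx.1.1, h4⟩, hx.1.2⟩
        · right; right
          exact ⟨hx.1.1, mem_filter.2 ⟨hx.1.2, h4⟩⟩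
      have h4 : ((J ×ˢ J).filter (fun x : ℕ × ℕ => x.1 = x.2 ∨
        (x.1 < Z ∨ N + ℓ < x.1 + k + Z) ∨ (x.2 < Z ∨ N + ℓ < x.2 + k + Z))).card ≤
          J.card + (2 * Z * J.card + J.card * (2 * Z)) := by
        refine (card_le_card h3).trans ((card_union_le _ _).trans (add_le_add card_image_le ?_))
        refine (card_union_le _ _).trans (add_le_add ?_ ?_)
        · rw [card_product]; exact Nat.mul_le_mul_right _ hedge
        · rw [card_product]; exact Nat.mul_le_mul_left _ hedge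
      have h5 : (((J ×ˢ J).filter (fun x : ℕ × ℕ => x.1 = x.2 ∨
        (x.1 < Z ∨ N + ℓ < x.1 + k + Z) ∨ (x.2 < Z ∨ N + ℓ < x.2 + k + Z))).card : ℝ) ≤
          ((J.card + (2 * Z * J.card + J.card * (2 * Z)) : ℕ) : ℝ) := by exact_mod_cast h4
      refine h5.trans (le_of_eq ?_)
      push_cast
      ring
    calc ∑ m ∈ digs q D N, ‖∑ j ∈ J, e (∑ i, (u i : ℝ) *
          ((y + (m : ℝ) * (p : ℝ) ^ n) / (q : ℝ) ^ (j + k)))‖ ^ 2 =
        ∑ m ∈ digs q D N, ‖∑ j ∈ J, e ((u 0 : ℝ) * y / (q : ℝ) ^ (j + k) +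
          (m : ℝ) * ((u 0 : ℝ) * (p : ℝ) ^ n / (q : ℝ) ^ (j + k)))‖ ^ 2 := by
          refine sum_congr rfl fun m _ => ?_
          congr 2
          refine sum_congr rfl fun j _ => ?_
          congr 1
          simp only [univ_unique, Fin.default_eq_zero, Fin.isValue, sum_singleton]
          ring
      _ ≤ (((J ×ˢ J).filter (fun x : ℕ × ℕ => x.1 = x.2 ∨
          (x.1 < Z ∨ N + ℓ < x.1 + k + Z) ∨ (x.2 < Z ∨ N + ℓ < x.2 + k + Z))).card +
          (J.card : ℝ) ^ 2 * rho q ^ K) * ((digs q D N).card : ℝ) := h1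
      _ ≤ (J.card : ℝ) ^ 2 * ζ * ((digs q D N).card : ℝ) := by
          refine mul_le_mul_of_nonneg_right ?_ (Nat.cast_nonneg _)
          have hJc2 : κ * n * J.card ≤ (J.card : ℝ) ^ 2 := by
            rw [sq]; exact mul_le_mul_of_nonneg_right hJc hJ0.le
          have h3 : (J.card : ℝ) ≤ (J.card : ℝ) ^ 2 * (ζ / 3) := by
            have h4 : κ * n * J.card * (ζ / 3) ≤ (J.card : ℝ) ^ 2 * (ζ / 3) :=
              mul_le_mul_of_nonneg_right hJc2 (by positivity)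
            have h5 : κ * n * J.card * (ζ / 3) = (n * (ζ * κ) / 3) * J.card := by ring
            have h6 : (1 : ℝ) * J.card ≤ (n * (ζ * κ) / 3) * J.card :=
              mul_le_mul_of_nonneg_right (by linarith) hJ0.le
            linarith
          have h4 : 4 * Z * (J.card : ℝ) ≤ (J.card : ℝ) ^ 2 * (ζ / 3) := by
            have h5 : 4 * (Z : ℝ) ≤ J.card * (ζ / 3) := by
              have h6 : σ * (J.card : ℝ) ≤ ζ / 12 * J.card :=
                mul_le_mul_of_nonneg_right hσ2 hJ0.le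
              linarith
            have h6 := mul_le_mul_of_nonneg_right h5 hJ0.le
            have h7 : (J.card : ℝ) * (ζ / 3) * J.card = (J.card : ℝ) ^ 2 * (ζ / 3) := by ring
            linarith
          have h5 : (J.card : ℝ) ^ 2 * rho q ^ K ≤ (J.card : ℝ) ^ 2 * (ζ / 3) :=
            mul_le_mul_of_nonneg_left hK.le (sq_nonneg _)
          have h6 : (J.card : ℝ) ^ 2 * ζ = (J.card : ℝ) ^ 2 * (ζ / 3) +
              (J.card : ℝ) ^ 2 * (ζ / 3) + (J.card : ℝ) ^ 2 * (ζ / 3) := by ring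
          linarith

end Pool.Agent.V11226.SM
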