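import Pool.Agent.V11226.SM.Aft

/-!
# Second moments through finitely many windows
-/

set_option autoImplicit false

namespace Pool.Agent.V11226.SM

open Finset Pool.Agent.V11226.ETN

theorem manyW (a : ℕ) (ha : 2 ≤ a) (G θ : ℝ) (w F : ℕ)
    (h : ∀ f < F, ∀ p : ℤ, 1 / (a : ℝ) ^ w ≤ |G * ((a : ℝ) ^ f * θ) - p|) (K : ℕ)
    (hK : K * (w + 1) ≤ F) :
    ∃ S : Finset ℕ, K ≤ S.card ∧ ∀ f ∈ S, f < K * (w + 1) ∧ ¬ TrivT a G θ f := by
  have ha2 : (2 : ℝ) ≤ a := by exact_mod_cast ha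
  have ha0 : (0 : ℝ) < a := by linarith
  induction K with
  | zero => exact ⟨∅, by simp, by simp⟩
  | succ K ih =>
    have hK' : K * (w + 1) + (w + 1) ≤ F := by
      calc K * (w + 1) + (w + 1) = (K + 1) * (w + 1) := by ring
        _ ≤ F := hK
    obtain ⟨S, hS1, hS2⟩ := ih (by omega)
    obtain ⟨f, hf0, hf1, hf⟩ : ∃ f, K * (w + 1) ≤ f ∧ f < K * (w + 1) + (w + 1) ∧
        ¬ TrivT a G θ f := by
      by_contra hcon
      push Not at hcon
      set f0 := K * (w + 1) with hf0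
      set z : ℝ := G * ((a : ℝ) ^ f0 * θ) with hz
      obtain ⟨p, hp⟩ := hcon f0 le_rfl (by omega)
      have h1 := triv_shrink a ha z w p hp (by
        intro i hi
        obtain ⟨p', hp'⟩ := hcon (f0 + i) (by omega) (by omega)
        refine ⟨p', ?_⟩
        have h2 : z * (a : ℝ) ^ i = G * ((a : ℝ) ^ (f0 + i) * θ) := by
          rw [hz, pow_add]; ring
        rw [h2]; exact hp')
      have h2 := h f0 (by omega) p
      rw [← hz, div_le_iff₀ (by positivity)] at h2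
      have h3 : (1 : ℝ) / (2 * a) ≤ 1 := by
        rw [div_le_one (by positivity)]; linarith
      linarith
    refine ⟨insert f S, ?_, ?_⟩
    · rw [card_insert_of_notMem]
      · omega
      · intro hmem
        have := (hS2 f hmem).1
        omega
    · have e1 : (K + 1) * (w + 1) = K * (w + 1) + (w + 1) := by ring
      intro x hx
      rcases mem_insert.1 hx with rfl | hx
      · rw [e1]
        exact ⟨hf1, hf⟩
      · rw [e1]
        have := (hS2 x hx).1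
        exact ⟨by omega, (hS2 x hx).2⟩

theorem pairW (a : ℕ) (ha : 2 ≤ a) (D : ℕ → Finset ℕ) (hD : ∀ i, D i ⊆ range a)
    (hD2 : ∀ i, 2 ≤ (D i).card) (θ : ℝ) (w F K N : ℕ)
    (h : ∀ f < F, ∀ p : ℤ, 1 / (a : ℝ) ^ w ≤ |(a.factorial : ℝ) * ((a : ℝ) ^ f * θ) - p|)
    (hK : K * (w + 1) ≤ F) (hF : F ≤ N) :
    ‖∑ m ∈ digs a D N, e ((m : ℝ) * θ)‖ ≤ rho a ^ K * ((digs a D N).card : ℝ) := by
  have hr0 := rho_pos a ha
  have hr1 := rho_lt a ha
  rw [fac a D ha hD, card_digs a D ha hD, norm_prod]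
  obtain ⟨S, hS1, hS2⟩ := manyW a ha (a.factorial : ℝ) θ w F h K hK
  have hsub : S ⊆ range N := by
    intro i hi
    have := (hS2 i hi).1
    rw [mem_range]
    omega
  have h1 : ∀ i ∈ range N, ‖∑ d ∈ D i, e ((d : ℝ) * ((a : ℝ) ^ i * θ))‖ ≤
      (if i ∈ S then rho a else 1) * ((D i).card : ℝ) := by
    intro i hi
    by_cases h : i ∈ S
    · rw [if_pos h]
      refine digit_sum_save a ha (D _) (hD _) (hD2 _) _ ?_
      intro p
      have h2 := (hS2 i h).2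
      unfold TrivT at h2
      push Not at h2
      exact h2 p
    · rw [if_neg h, one_mul]
      exact digit_sum_le a _ _
  calc ∏ i ∈ range N, ‖∑ d ∈ D i, e ((d : ℝ) * ((a : ℝ) ^ i * θ))‖
      ≤ ∏ i ∈ range N, ((if i ∈ S then rho a else 1) * ((D i).card : ℝ)) :=
        prod_le_prod (fun _ _ => norm_nonneg _) h1
    _ = rho a ^ S.card * ∏ i ∈ range N, ((D i).card : ℝ) := by
        rw [prod_mul_distrib]
        congr 1
        rw [prod_ite_mem, inter_eq_right.2 hsub, prod_const]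
    _ ≤ rho a ^ K * ((∏ i ∈ range N, (D i).card : ℕ) : ℝ) := by
        push_cast
        refine mul_le_mul_of_nonneg_right ?_ (prod_nonneg fun _ _ => Nat.cast_nonneg _)
        exact pow_le_pow_of_le_one hr0.le hr1.le (by omega)

/-- The second moment: `X` is an upper bound for the number of pairs without a saving. -/
theorem secondW (a : ℕ) (D : ℕ → Finset ℕ) (N : ℕ) (Y Θ : ℕ → ℝ) (J : Finset ℕ) (s : ℝ)
    (hs : 0 ≤ s) (R : ℕ → ℕ → Prop) [DecidableRel R]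
    (h : ∀ j ∈ J, ∀ j' ∈ J, ¬ R j j' →
      ‖∑ m ∈ digs a D N, e ((m : ℝ) * (Θ j - Θ j'))‖ ≤ s * ((digs a D N).card : ℝ)) :
    ∑ m ∈ digs a D N, ‖∑ j ∈ J, e (Y j + (m : ℝ) * Θ j)‖ ^ 2 ≤
      (((J ×ˢ J).filter (fun x => R x.1 x.2)).card + (J.card : ℝ) ^ 2 * s) *
        ((digs a D N).card : ℝ) := by
  set M := digs a D N with hM
  set B : ℕ → ℕ → ℝ := fun j j' => ‖∑ m ∈ M, e ((m : ℝ) * (Θ j - Θ j'))‖ with hB
  have hB2 : ∀ x ∈ J ×ˢ J,
      B x.1 x.2 ≤ (if R x.1 x.2 then (M.card : ℝ) else 0) + s * M.card := by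
    intro x hx
    rw [mem_product] at hx
    have h0 : 0 ≤ s * (M.card : ℝ) := mul_nonneg hs (Nat.cast_nonneg _)
    by_cases hR : R x.1 x.2
    · rw [if_pos hR]
      have h1 : B x.1 x.2 ≤ M.card := by
        simp only [hB]
        refine (norm_sum_le _ _).trans ?_
        simp [norm_e]
      linarith
    · rw [if_neg hR, zero_add]
      exact h x.1 hx.1 x.2 hx.2 hR
  have hmain : ∑ m ∈ M, ‖∑ j ∈ J, e (Y j + (m : ℝ) * Θ j)‖ ^ 2 ≤
      ∑ x ∈ J ×ˢ J, B x.1 x.2 := by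
    have h1 : ((∑ m ∈ M, ‖∑ j ∈ J, e (Y j + (m : ℝ) * Θ j)‖ ^ 2 : ℝ) : ℂ) =
        ∑ j ∈ J, ∑ j' ∈ J, e (Y j - Y j') * ∑ m ∈ M, e ((m : ℝ) * (Θ j - Θ j')) := by
      rw [Complex.ofReal_sum, sum_congr rfl (fun m _ => sq_expand J _), sum_comm]
      refine sum_congr rfl fun j _ => ?_
      rw [sum_comm]
      refine sum_congr rfl fun j' _ => ?_
      rw [mul_sum]
      refine sum_congr rfl fun m _ => ?_
      rw [conj_e, ← e_add, ← e_add]
      congr 1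
      ring
    have h2 : ∑ m ∈ M, ‖∑ j ∈ J, e (Y j + (m : ℝ) * Θ j)‖ ^ 2 ≤
        ‖((∑ m ∈ M, ‖∑ j ∈ J, e (Y j + (m : ℝ) * Θ j)‖ ^ 2 : ℝ) : ℂ)‖ := by
      rw [Complex.norm_real]; exact le_abs_self _
    refine h2.trans ?_
    rw [h1, sum_product]
    refine (norm_sum_le _ _).trans (sum_le_sum fun j _ => ?_)
    refine (norm_sum_le _ _).trans (sum_le_sum fun j' _ => ?_)
    rw [norm_mul, norm_e, one_mul]
  refine hmain.trans ((sum_le_sum hB2).trans (le_of_eq ?_))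
  rw [sum_add_distrib, sum_const, nsmul_eq_mul, card_product, ← sum_filter, sum_const,
    nsmul_eq_mul]
  push_cast
  ring

/-- Conclusion. -/
theorem conclude (a : ℕ) (D : ℕ → Finset ℕ) (N : ℕ) (bad : Finset ℕ) (hsub : bad ⊆ digs a D N)
    (n q d g : ℕ) (τ ε ζ : ℝ) (hq : 0 < q) (hd : 0 < d) (hg : 0 < g) (hτ : 0 ≤ τ)
    (h1 : ((q * d : ℕ) : ℝ) ^ 2 ≤ 4 * g * τ) (h2 : d * g + 2 * g ≤ q * d * g)
    (hε0 : 0 < ε) (hε1 : ε ≤ 1) (hζ : 0 ≤ ζ)
    (hμ : ((q : ℝ) * (τ + (d + 2) / (q * d))) ^ n ≤ 1 + ε / 2) (J : Finset ℕ) (hJ : J.Nonempty)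
    (x : ℕ → ℕ → Fin n → ℝ)
    (hE : ∀ u ∈ (box n g).erase 0,
      ∑ m ∈ digs a D N, ‖∑ j ∈ J, e (∑ i, (u i : ℝ) * x m j i)‖ ^ 2 ≤
        (J.card : ℝ) ^ 2 * ζ * ((digs a D N).card : ℝ))
    (hbad : ∀ m ∈ bad, ∃ w : Fin n → ℕ, (∀ i, w i < q) ∧
      ε < |((J.filter (fun j => W q (x m) j = w)).card : ℝ) / J.card - 1 / (q : ℝ) ^ n|) :
    (bad.card : ℝ) ≤ 16 * (((box n g).card : ℝ)) ^ 2 * ζ / ε ^ 2 * ((digs a D N).card : ℝ) := by
  have hN0 : (0 : ℝ) < J.card := by exact_mod_cast card_pos.2 hJ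
  have hΩ : (0 : ℝ) ≤ ((digs a D N).card : ℝ) := Nat.cast_nonneg _
  have h3 := markov (digs a D N) bad hsub n q d g τ ε hq hd hg hτ h1 h2 hε0 hε1 hμ J hJ x
    ((J.card : ℝ) ^ 2 * ζ * ((digs a D N).card : ℝ)) (by positivity) hE hbad
  have hpos : 0 < (ε * J.card / 4) ^ 2 := by positivity
  rw [← le_div_iff₀ hpos] at h3
  refine h3.trans (le_of_eq ?_)
  field_simp
  norm_num

end Pool.Agent.V11226.SM
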