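import Mathlib

/-!
# Windows with a nontrivial digit
-/

set_option autoImplicit false

namespace Pool.Agent.V11226.SM

open Finset

/-- `|q s - p| ≥ c / q ^ K` for all integers `q ≥ 1` and `p`. -/
def Dio (s c : ℝ) (K : ℕ) : Prop := ∀ q : ℕ, 1 ≤ q → ∀ p : ℤ, c / (q : ℝ) ^ K ≤ |(q : ℝ) * s - p|

/-- the exponent `f` is trivial for the gap `r` -/
def Triv (b : ℕ) (G s : ℝ) (r f : ℕ) : Prop :=
  ∃ p : ℤ, |G * (s * (b : ℝ) ^ f - s * (b : ℝ) ^ f / (b : ℝ) ^ r) - p| < 1 / (2 * b)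

theorem triv_shrink (b : ℕ) (hb : 2 ≤ b) (z : ℝ) (n : ℕ) (p : ℤ)
    (h0 : |z - p| < 1 / (2 * b))
    (h : ∀ i ≤ n, ∃ p' : ℤ, |z * (b : ℝ) ^ i - p'| < 1 / (2 * b)) :
    |z - p| * (b : ℝ) ^ n < 1 / (2 * b) := by
  have hb2 : (2 : ℝ) ≤ b := by exact_mod_cast hb
  have hb0 : (0 : ℝ) < b := by linarith
  induction n with
  | zero => simpa using h0
  | succ n ih =>
    have h1 := ih (fun i hi => h i (by omega))
    obtain ⟨p', hp'⟩ := h (n + 1) le_rfl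
    have h2 : z * (b : ℝ) ^ (n + 1) - ((p * (b : ℤ) ^ (n + 1) : ℤ) : ℝ) =
        (z - p) * (b : ℝ) ^ n * b := by push_cast; ring
    have h3 : |z * (b : ℝ) ^ (n + 1) - ((p * (b : ℤ) ^ (n + 1) : ℤ) : ℝ)| < 1 / 2 := by
      rw [h2, abs_mul, abs_mul, abs_of_pos hb0, abs_of_pos (pow_pos hb0 n)]
      calc |z - p| * (b : ℝ) ^ n * b < 1 / (2 * b) * b := mul_lt_mul_of_pos_right h1 hb0
        _ = 1 / 2 := by field_simp
    have h4 : (1 : ℝ) / (2 * b) ≤ 1 / 4 := by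
      apply one_div_le_one_div_of_le (by norm_num); linarith
    have h5 : p' = p * (b : ℤ) ^ (n + 1) := by
      by_contra hne
      have h6 : (1 : ℤ) ≤ |p' - p * (b : ℤ) ^ (n + 1)| := Int.one_le_abs (sub_ne_zero.2 hne)
      have h7 : (1 : ℝ) ≤ |((p' - p * (b : ℤ) ^ (n + 1) : ℤ) : ℝ)| := by exact_mod_cast h6
      have h8 : ((p' - p * (b : ℤ) ^ (n + 1) : ℤ) : ℝ) =
          (z * (b : ℝ) ^ (n + 1) - ((p * (b : ℤ) ^ (n + 1) : ℤ) : ℝ)) -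
            (z * (b : ℝ) ^ (n + 1) - p') := by push_cast; ring
      rw [h8] at h7
      have h9 := abs_sub (z * (b : ℝ) ^ (n + 1) - ((p * (b : ℤ) ^ (n + 1) : ℤ) : ℝ))
        (z * (b : ℝ) ^ (n + 1) - p')
      linarith
    rw [h5, h2, abs_mul, abs_mul, abs_of_pos hb0, abs_of_pos (pow_pos hb0 n)] at hp'
    rw [pow_succ, ← mul_assoc]
    exact hp'

/-- Every long window contains a nontrivial exponent. -/
theorem window (b : ℕ) (hb : 2 ≤ b) (G : ℕ) (hG : 1 ≤ G) (s c : ℝ) (K : ℕ) (hs : Dio s c K)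
    (r f0 f1 : ℕ) (h01 : f0 < f1) (h1r : f1 ≤ r)
    (hbig : (1 + G * |s|) * (G : ℝ) ^ K * (b : ℝ) ^ ((K + 1) * f0) < c * (b : ℝ) ^ f1) :
    ∃ f, f0 ≤ f ∧ f < f1 ∧ ¬ Triv b G s r f := by
  by_contra hcon
  push Not at hcon
  have hb2 : (2 : ℝ) ≤ b := by exact_mod_cast hb
  have hb0 : (0 : ℝ) < b := by linarith
  have hG0 : (0 : ℝ) < G := by exact_mod_cast hG
  set z : ℝ := G * (s * (b : ℝ) ^ f0 - s * (b : ℝ) ^ f0 / (b : ℝ) ^ r) with hz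
  obtain ⟨p, hp⟩ := hcon f0 le_rfl h01
  obtain ⟨n, hn⟩ : ∃ n, f1 = f0 + n + 1 := ⟨f1 - f0 - 1, by omega⟩
  have h1 := triv_shrink b hb z n p hp (by
    intro i hi
    obtain ⟨p', hp'⟩ := hcon (f0 + i) (by omega) (by omega)
    refine ⟨p', ?_⟩
    have h2 : z * (b : ℝ) ^ i = (G : ℝ) * (s * (b : ℝ) ^ (f0 + i) - s * (b : ℝ) ^ (f0 + i) / (b : ℝ) ^ r) := by
      rw [hz, pow_add]; ring
    rw [h2]; exact hp')
  have hq : 1 ≤ G * b ^ f0 := Nat.mul_pos hG (Nat.pow_pos (by omega))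
  have h2 := hs (G * b ^ f0) hq p
  have h3 : |((G * b ^ f0 : ℕ) : ℝ) * s - p| ≤ |z - p| + G * |s| * ((b : ℝ) ^ f0 / (b : ℝ) ^ r) := by
    have h4 : ((G * b ^ f0 : ℕ) : ℝ) * s - p = (z - p) + G * s * ((b : ℝ) ^ f0 / (b : ℝ) ^ r) := by
      rw [hz]; push_cast; ring
    rw [h4]
    refine (abs_add_le _ _).trans ?_
    rw [abs_mul, abs_mul, abs_of_pos hG0, abs_of_pos (by positivity : (0 : ℝ) < (b : ℝ) ^ f0 / (b : ℝ) ^ r)]
  have h5 : |z - p| * (b : ℝ) ^ f1 < (b : ℝ) ^ f0 := by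
    have h6 : (b : ℝ) ^ f1 = (b : ℝ) ^ n * ((b : ℝ) ^ f0 * b) := by rw [hn]; ring
    rw [h6, ← mul_assoc]
    calc |z - p| * (b : ℝ) ^ n * ((b : ℝ) ^ f0 * b) < 1 / (2 * b) * ((b : ℝ) ^ f0 * b) :=
          mul_lt_mul_of_pos_right h1 (by positivity)
      _ = (b : ℝ) ^ f0 / 2 := by field_simp
      _ ≤ (b : ℝ) ^ f0 := by
          have : 0 < (b : ℝ) ^ f0 := by positivity
          linarith
  have h6 : (b : ℝ) ^ f0 / (b : ℝ) ^ r * (b : ℝ) ^ f1 ≤ (b : ℝ) ^ f0 := by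
    rw [div_mul_eq_mul_div, div_le_iff₀ (by positivity)]
    exact mul_le_mul_of_nonneg_left (pow_le_pow_right₀ (by linarith) h1r) (by positivity)
  have h7 : c / ((G * b ^ f0 : ℕ) : ℝ) ^ K * (b : ℝ) ^ f1 < (1 + G * |s|) * (b : ℝ) ^ f0 := by
    calc c / ((G * b ^ f0 : ℕ) : ℝ) ^ K * (b : ℝ) ^ f1
        ≤ (|z - p| + G * |s| * ((b : ℝ) ^ f0 / (b : ℝ) ^ r)) * (b : ℝ) ^ f1 :=
          mul_le_mul_of_nonneg_right (h2.trans h3) (by positivity)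
      _ = |z - p| * (b : ℝ) ^ f1 + G * |s| * ((b : ℝ) ^ f0 / (b : ℝ) ^ r * (b : ℝ) ^ f1) := by ring
      _ < (b : ℝ) ^ f0 + G * |s| * (b : ℝ) ^ f0 :=
          add_lt_add_of_lt_of_le h5 (mul_le_mul_of_nonneg_left h6 (by positivity))
      _ = (1 + G * |s|) * (b : ℝ) ^ f0 := by ring
  have h8 : ((G * b ^ f0 : ℕ) : ℝ) ^ K = (G : ℝ) ^ K * (b : ℝ) ^ (K * f0) := by
    push_cast
    rw [mul_pow, ← pow_mul, mul_comm f0 K]
  rw [h8, div_mul_eq_mul_div, div_lt_iff₀ (by positivity)] at h7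
  have h9 : (b : ℝ) ^ ((K + 1) * f0) = (b : ℝ) ^ (K * f0) * (b : ℝ) ^ f0 := by
    rw [← pow_add]; congr 1; ring
  rw [h9] at hbig
  have h10 : (1 + G * |s|) * (b : ℝ) ^ f0 * ((G : ℝ) ^ K * (b : ℝ) ^ (K * f0)) =
      (1 + G * |s|) * (G : ℝ) ^ K * ((b : ℝ) ^ (K * f0) * (b : ℝ) ^ f0) := by ring
  linarith

/-- The ends of the windows. -/
def Fs (K a : ℕ) : ℕ → ℕ
  | 0 => 0
  | n + 1 => (K + 1) * Fs K a n + a

theorem Fs_le (K a n : ℕ) : Fs K a n ≤ a * (K + 2) ^ n := by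
  induction n with
  | zero => simp [Fs]
  | succ n ih =>
    simp only [Fs]
    have h1 : 1 ≤ (K + 2) ^ n := Nat.one_le_pow _ _ (by omega)
    calc (K + 1) * Fs K a n + a ≤ (K + 1) * (a * (K + 2) ^ n) + a * (K + 2) ^ n :=
          add_le_add (Nat.mul_le_mul_left _ ih) (Nat.le_mul_of_pos_right _ h1)
      _ = a * (K + 2) ^ (n + 1) := by ring

theorem Fs_lt (K a n : ℕ) (ha : 1 ≤ a) : Fs K a n < Fs K a (n + 1) := by
  simp only [Fs]
  have : Fs K a n ≤ (K + 1) * Fs K a n := Nat.le_mul_of_pos_left _ (by omega)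
  omega

/-- The number of nontrivial exponents below the end of the `n`-th window is at least `n`. -/
theorem many (b : ℕ) (hb : 2 ≤ b) (G : ℕ) (hG : 1 ≤ G) (s c : ℝ) (hc : 0 < c) (K : ℕ)
    (hs : Dio s c K) (a : ℕ) (ha : 1 ≤ a) (hbig : (1 + G * |s|) * (G : ℝ) ^ K < c * (b : ℝ) ^ a)
    (r n : ℕ) (hn : Fs K a n ≤ r) :
    ∃ S : Finset ℕ, n ≤ S.card ∧ ∀ f ∈ S, f < Fs K a n ∧ ¬ Triv b G s r f := by
  have hb2 : (2 : ℝ) ≤ b := by exact_mod_cast hb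
  have hb0 : (0 : ℝ) < b := by linarith
  induction n with
  | zero => exact ⟨∅, by simp, by simp⟩
  | succ n ih =>
    obtain ⟨S, hS1, hS2⟩ := ih ((Fs_lt K a n ha).le.trans hn)
    obtain ⟨f, hf0, hf1, hf⟩ := window b hb G hG s c K hs r (Fs K a n) (Fs K a (n + 1))
      (Fs_lt K a n ha) hn (by
        simp only [Fs]
        calc (1 + G * |s|) * (G : ℝ) ^ K * (b : ℝ) ^ ((K + 1) * Fs K a n)
            < c * (b : ℝ) ^ a * (b : ℝ) ^ ((K + 1) * Fs K a n) :=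
              mul_lt_mul_of_pos_right hbig (by positivity)
          _ = c * (b : ℝ) ^ ((K + 1) * Fs K a n + a) := by rw [pow_add]; ring)
    refine ⟨insert f S, ?_, ?_⟩
    · rw [card_insert_of_notMem]
      · omega
      · intro hmem
        have := (hS2 f hmem).1
        omega
    · intro x hx
      rcases mem_insert.1 hx with rfl | hx
      · exact ⟨hf1, hf⟩
      · exact ⟨(hS2 x hx).1.trans (Fs_lt K a n ha), (hS2 x hx).2⟩

end Pool.Agent.V11226.SM
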