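import Pool.Agent.V11226.SM.Fac
import Pool.Agent.V11226.SM.Win

/-!
# The second moment over the numbers with restricted digits
-/

set_option autoImplicit false

namespace Pool.Agent.V11226.SM

open Finset Pool.Agent.V11226.ETN

theorem pair_bound (b : ℕ) (hb : 2 ≤ b) (D : ℕ → Finset ℕ) (hD : ∀ i, D i ⊆ range b)
    (hD2 : ∀ i, 2 ≤ (D i).card) (s c : ℝ) (hc : 0 < c) (K : ℕ) (hs : Dio s c K) (a : ℕ) (ha : 1 ≤ a)
    (hbig : (1 + (b.factorial : ℝ) * |s|) * (b.factorial : ℝ) ^ K < c * (b : ℝ) ^ a)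
    (N j k r t : ℕ) (hj : j + r < N) (ht : k + Fs K a t ≤ r) :
    ‖∑ m ∈ digs b D N, e ((m : ℝ) * (s / (b : ℝ) ^ (j + k) - s / (b : ℝ) ^ (j + r + k)))‖ ≤
      rho b ^ t * ((digs b D N).card : ℝ) := by
  have hb2 : (2 : ℝ) ≤ b := by exact_mod_cast hb
  have hb0 : (0 : ℝ) < b := by linarith
  have hr0 := rho_pos b hb
  have hr1 := rho_lt b hb
  rw [fac b D hb hD, card_digs b D hb hD, norm_prod]
  obtain ⟨S, hS1, hS2⟩ := many b hb b.factorial (Nat.factorial_pos b) s c hc K hs a ha hbig r t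
    (by omega)
  set S' : Finset ℕ := S.image (fun f => j + k + f) with hS'
  have hcard : S'.card = S.card := by
    rw [hS', card_image_of_injective]
    intro x y hxy
    simpa using hxy
  have hsub : S' ⊆ range N := by
    intro i hi
    rw [hS', mem_image] at hi
    obtain ⟨f, hf, rfl⟩ := hi
    have := (hS2 f hf).1
    rw [mem_range]
    omega
  have h1 : ∀ i ∈ range N, ‖∑ d ∈ D i, e ((d : ℝ) * ((b : ℝ) ^ i *
      (s / (b : ℝ) ^ (j + k) - s / (b : ℝ) ^ (j + r + k))))‖ ≤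
      (if i ∈ S' then rho b else 1) * ((D i).card : ℝ) := by
    intro i hi
    by_cases h : i ∈ S'
    · rw [if_pos h]
      rw [hS', mem_image] at h
      obtain ⟨f, hf, rfl⟩ := h
      refine digit_sum_save b hb (D _) (hD _) (hD2 _) _ ?_
      intro p
      have h2 := (hS2 f hf).2
      unfold Triv at h2
      push Not at h2
      have h3 := h2 p
      have h4 : (b : ℝ) ^ (j + k + f) * (s / (b : ℝ) ^ (j + k) - s / (b : ℝ) ^ (j + r + k)) =
          s * (b : ℝ) ^ f - s * (b : ℝ) ^ f / (b : ℝ) ^ r := by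
        have h5 : (b : ℝ) ^ (j + r + k) = (b : ℝ) ^ (j + k) * (b : ℝ) ^ r := by
          rw [← pow_add]; congr 1; ring
        rw [h5, pow_add]
        field_simp
      rw [h4]
      exact h3
    · rw [if_neg h, one_mul]
      exact digit_sum_le b _ _
  calc ∏ i ∈ range N, ‖∑ d ∈ D i, e ((d : ℝ) * ((b : ℝ) ^ i *
      (s / (b : ℝ) ^ (j + k) - s / (b : ℝ) ^ (j + r + k))))‖
      ≤ ∏ i ∈ range N, ((if i ∈ S' then rho b else 1) * ((D i).card : ℝ)) :=
        prod_le_prod (fun _ _ => norm_nonneg _) h1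
    _ = rho b ^ S'.card * ∏ i ∈ range N, ((D i).card : ℝ) := by
        rw [prod_mul_distrib]
        congr 1
        rw [prod_ite_mem, inter_eq_right.2 hsub, prod_const]
    _ ≤ rho b ^ t * ((∏ i ∈ range N, (D i).card : ℕ) : ℝ) := by
        push_cast
        refine mul_le_mul_of_nonneg_right ?_ (prod_nonneg fun _ _ => Nat.cast_nonneg _)
        exact pow_le_pow_of_le_one hr0.le hr1.le (by omega)

theorem sq_expand (J : Finset ℕ) (z : ℕ → ℂ) :
    ((‖∑ j ∈ J, z j‖ ^ 2 : ℝ) : ℂ) =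
      ∑ j ∈ J, ∑ j' ∈ J, z j * (starRingEnd ℂ) (z j') := by
  have h1 : ((‖∑ j ∈ J, z j‖ ^ 2 : ℝ) : ℂ) =
      (∑ j ∈ J, z j) * (starRingEnd ℂ) (∑ j ∈ J, z j) := by
    rw [Complex.mul_conj, Complex.normSq_eq_norm_sq]
  rw [h1, map_sum, Finset.sum_mul_sum]

/-- The second moment of the exponential sum. -/
theorem second (b : ℕ) (hb : 2 ≤ b) (D : ℕ → Finset ℕ) (hD : ∀ i, D i ⊆ range b)
    (hD2 : ∀ i, 2 ≤ (D i).card) (s c : ℝ) (hc : 0 < c) (K : ℕ) (hs : Dio s c K) (a : ℕ) (ha : 1 ≤ a)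
    (hbig : (1 + (b.factorial : ℝ) * |s|) * (b.factorial : ℝ) ^ K < c * (b : ℝ) ^ a)
    (y : ℝ) (N k t : ℕ) (J : Finset ℕ) (hJ : ∀ j ∈ J, j < N) :
    ∑ m ∈ digs b D N, ‖∑ j ∈ J, e ((y + (m : ℝ) * s) / (b : ℝ) ^ (j + k))‖ ^ 2 ≤
      (2 * J.card * (k + a * ((K : ℝ) + 2) ^ t) + (J.card : ℝ) ^ 2 * rho b ^ t) *
        ((digs b D N).card : ℝ) := by
  have hb2 : (2 : ℝ) ≤ b := by exact_mod_cast hb
  have hb0 : (0 : ℝ) < b := by linarith
  have hr0 := rho_pos b hb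
  set M := digs b D N with hM
  set R := k + Fs K a t with hR
  set B : ℕ → ℕ → ℝ := fun j j' =>
    ‖∑ m ∈ M, e ((m : ℝ) * (s / (b : ℝ) ^ (j + k) - s / (b : ℝ) ^ (j' + k)))‖ with hB
  have hBs : ∀ j j', B j j' = B j' j := by
    intro j j'
    simp only [hB]
    rw [← RCLike.norm_conj, map_sum]
    congr 1
    refine sum_congr rfl fun m _ => ?_
    rw [conj_e]
    congr 1
    ring
  have hB1 : ∀ j j', B j j' ≤ M.card := by
    intro j j'
    simp only [hB]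
    refine (norm_sum_le _ _).trans ?_
    simp [norm_e]
  have hB2 : ∀ j ∈ J, ∀ j' ∈ J,
      B j j' ≤ (if j < j' + R ∧ j' < j + R then (M.card : ℝ) else rho b ^ t * M.card) := by
    intro j hj j' hj'
    replace hj := hJ j hj
    replace hj' := hJ j' hj'
    by_cases h : j < j' + R ∧ j' < j + R
    · rw [if_pos h]; exact hB1 j j'
    · rw [if_neg h]
      rcases le_total j j' with hle | hle
      · obtain ⟨r, rfl⟩ : ∃ r, j' = j + r := ⟨j' - j, by omega⟩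
        exact pair_bound b hb D hD hD2 s c hc K hs a ha hbig N j k r t hj' (by omega)
      · obtain ⟨r, rfl⟩ : ∃ r, j = j' + r := ⟨j - j', by omega⟩
        rw [hBs]
        exact pair_bound b hb D hD hD2 s c hc K hs a ha hbig N j' k r t hj (by omega)
  have hmain : ∑ m ∈ M, ‖∑ j ∈ J, e ((y + (m : ℝ) * s) / (b : ℝ) ^ (j + k))‖ ^ 2 ≤
      ∑ j ∈ J, ∑ j' ∈ J, B j j' := by
    have h1 : ((∑ m ∈ M, ‖∑ j ∈ J, e ((y + (m : ℝ) * s) / (b : ℝ) ^ (j + k))‖ ^ 2 : ℝ) : ℂ) =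
        ∑ j ∈ J, ∑ j' ∈ J, e (y * (1 / (b : ℝ) ^ (j + k) - 1 / (b : ℝ) ^ (j' + k))) *
          ∑ m ∈ M, e ((m : ℝ) * (s / (b : ℝ) ^ (j + k) - s / (b : ℝ) ^ (j' + k))) := by
      rw [Complex.ofReal_sum, sum_congr rfl (fun m _ => sq_expand J _), sum_comm]
      refine sum_congr rfl fun j _ => ?_
      rw [sum_comm]
      refine sum_congr rfl fun j' _ => ?_
      rw [mul_sum]
      refine sum_congr rfl fun m _ => ?_
      rw [conj_e, ← e_add, ← e_add]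
      congr 1
      ring
    have h2 : ∑ m ∈ M, ‖∑ j ∈ J, e ((y + (m : ℝ) * s) / (b : ℝ) ^ (j + k))‖ ^ 2 ≤
        ‖((∑ m ∈ M, ‖∑ j ∈ J, e ((y + (m : ℝ) * s) / (b : ℝ) ^ (j + k))‖ ^ 2 : ℝ) : ℂ)‖ := by
      rw [Complex.norm_real]; exact le_abs_self _
    refine h2.trans ?_
    rw [h1]
    refine (norm_sum_le _ _).trans (sum_le_sum fun j _ => ?_)
    refine (norm_sum_le _ _).trans (sum_le_sum fun j' _ => ?_)
    rw [norm_mul, norm_e, one_mul]
  refine hmain.trans ?_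
  have hrow : ∀ j ∈ J, ∑ j' ∈ J, B j j' ≤
      2 * R * M.card + J.card * (rho b ^ t * M.card) := by
    intro j hj
    refine (sum_le_sum (hB2 j hj)).trans ?_
    rw [sum_ite, sum_const, sum_const, nsmul_eq_mul, nsmul_eq_mul]
    refine add_le_add ?_ ?_
    · refine mul_le_mul_of_nonneg_right ?_ (Nat.cast_nonneg _)
      have h1 : (J.filter (fun j' => j < j' + R ∧ j' < j + R)).card ≤ 2 * R := by
        refine (card_le_card (t := Ico (j - R) (j + R)) ?_).trans ?_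
        · intro x hx
          rw [mem_filter] at hx
          rw [mem_Ico]
          omega
        · rw [Nat.card_Ico]; omega
      exact_mod_cast h1
    · refine mul_le_mul_of_nonneg_right ?_ (mul_nonneg (pow_nonneg hr0.le _) (Nat.cast_nonneg _))
      have h1 : (J.filter (fun j' => ¬ (j < j' + R ∧ j' < j + R))).card ≤ J.card :=
        card_filter_le _ _
      exact_mod_cast h1
  refine (sum_le_sum hrow).trans ?_
  rw [sum_const, nsmul_eq_mul]
  have hRle : (R : ℝ) ≤ k + a * ((K : ℝ) + 2) ^ t := by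
    have h1 : R ≤ k + a * (K + 2) ^ t := by
      rw [hR]
      exact Nat.add_le_add_left (Fs_le K a t) k
    exact_mod_cast h1
  have hMc : (0 : ℝ) ≤ M.card := Nat.cast_nonneg _
  have hN0 : (0 : ℝ) ≤ J.card := Nat.cast_nonneg _
  calc (J.card : ℝ) * (2 * R * M.card + J.card * (rho b ^ t * M.card)) =
      (2 * J.card * R + (J.card : ℝ) ^ 2 * rho b ^ t) * M.card := by ring
    _ ≤ _ := by
        refine mul_le_mul_of_nonneg_right ?_ hMc
        have : 2 * (J.card : ℝ) * R ≤ 2 * J.card * (k + a * ((K : ℝ) + 2) ^ t) :=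
          mul_le_mul_of_nonneg_left hRle (by positivity)
        linarith

/-- The exponent. -/
noncomputable def kap (b K : ℕ) : ℝ := min (Real.log (1 / rho b) / Real.log ((K : ℝ) + 2)) 1 / 2

theorem kap_pos (b : ℕ) (hb : 2 ≤ b) (K : ℕ) : 0 < kap b K := by
  unfold kap
  have h1 : 0 < Real.log (1 / rho b) :=
    Real.log_pos (by rw [lt_div_iff₀ (rho_pos b hb)]; linarith [rho_lt b hb])
  have h2 : 0 < Real.log ((K : ℝ) + 2) := Real.log_pos (by
    have : (0 : ℝ) ≤ K := by positivity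
    linarith)
  have h3 : 0 < Real.log (1 / rho b) / Real.log ((K : ℝ) + 2) := div_pos h1 h2
  have h4 : 0 < min (Real.log (1 / rho b) / Real.log ((K : ℝ) + 2)) 1 := lt_min h3 one_pos
  linarith

theorem kap_le (b K : ℕ) : kap b K ≤ 1 / 2 := by
  unfold kap
  have : min (Real.log (1 / rho b) / Real.log ((K : ℝ) + 2)) 1 ≤ 1 := min_le_right _ _
  linarith

/-- The second moment with a power saving. -/
theorem second_pow (b : ℕ) (hb : 2 ≤ b) (D : ℕ → Finset ℕ) (hD : ∀ i, D i ⊆ range b)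
    (hD2 : ∀ i, 2 ≤ (D i).card) (s c : ℝ) (hc : 0 < c) (K : ℕ) (hs : Dio s c K) (a : ℕ) (ha : 1 ≤ a)
    (hbig : (1 + (b.factorial : ℝ) * |s|) * (b.factorial : ℝ) ^ K < c * (b : ℝ) ^ a)
    (y : ℝ) (N k : ℕ) (J : Finset ℕ) (hJ : ∀ j ∈ J, j < N) (hJ1 : 1 ≤ J.card) :
    ∑ m ∈ digs b D N, ‖∑ j ∈ J, e ((y + (m : ℝ) * s) / (b : ℝ) ^ (j + k))‖ ^ 2 ≤
      (2 * k + 2 * a + 1 / rho b) * ((J.card : ℝ) ^ 2 * (J.card : ℝ) ^ (-kap b K)) *
        ((digs b D N).card : ℝ) := by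
  have hr0 := rho_pos b hb
  have hr1 := rho_lt b hb
  obtain ⟨n, hn⟩ : ∃ n : ℕ, n = J.card := ⟨_, rfl⟩
  have hN1 : (1 : ℝ) ≤ n := by rw [hn]; exact_mod_cast hJ1
  have hN0 : (0 : ℝ) < n := by linarith
  have hK0 : (0 : ℝ) ≤ K := by positivity
  set κ := kap b K with hκ
  have hκ0 : 0 < κ := kap_pos b hb K
  have hκ1 : κ ≤ 1 / 2 := kap_le b K
  have hrK : ((K : ℝ) + 2) ^ (2 * κ) ≤ 1 / rho b := by
    have h2 : 0 < Real.log ((K : ℝ) + 2) := Real.log_pos (by linarith)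
    rw [← Real.log_le_log_iff (Real.rpow_pos_of_pos (by linarith) _) (by positivity),
      Real.log_rpow (by linarith)]
    have h3 : 2 * κ ≤ Real.log (1 / rho b) / Real.log ((K : ℝ) + 2) := by
      rw [hκ]; unfold kap
      have := min_le_left (Real.log (1 / rho b) / Real.log ((K : ℝ) + 2)) 1
      linarith
    rw [le_div_iff₀ h2] at h3
    exact h3
  -- the choice of t
  obtain ⟨t, ht1, ht2⟩ : ∃ t : ℕ, ((K : ℝ) + 2) ^ t ≤ (n : ℝ) ^ (1 / 2 : ℝ) ∧
      (n : ℝ) ^ (1 / 2 : ℝ) < ((K : ℝ) + 2) ^ (t + 1) := by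
    have h1 : (1 : ℝ) ≤ (n : ℝ) ^ (1 / 2 : ℝ) := Real.one_le_rpow hN1 (by norm_num)
    exact exists_nat_pow_near h1 (by linarith)
  have hsec := second b hb D hD hD2 s c hc K hs a ha hbig y N k t J hJ
  rw [← hn] at hsec ⊢
  refine hsec.trans ?_
  refine mul_le_mul_of_nonneg_right ?_ (Nat.cast_nonneg _)
  have hA : (n : ℝ) ≤ (n : ℝ) ^ 2 * (n : ℝ) ^ (-κ) := by
    rw [← Real.rpow_natCast, ← Real.rpow_add hN0]
    calc (n : ℝ) = (n : ℝ) ^ (1 : ℝ) := (Real.rpow_one _).symm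
      _ ≤ _ := Real.rpow_le_rpow_of_exponent_le hN1 (by push_cast; linarith)
  have hB : (n : ℝ) * (n : ℝ) ^ (1 / 2 : ℝ) ≤ (n : ℝ) ^ 2 * (n : ℝ) ^ (-κ) := by
    rw [← Real.rpow_natCast, ← Real.rpow_add hN0]
    calc (n : ℝ) * (n : ℝ) ^ (1 / 2 : ℝ) = (n : ℝ) ^ (1 + 1 / 2 : ℝ) := by
          rw [Real.rpow_add hN0, Real.rpow_one]
      _ ≤ _ := Real.rpow_le_rpow_of_exponent_le hN1 (by push_cast; linarith)
  have hC : rho b ^ t ≤ 1 / rho b * (n : ℝ) ^ (-κ) := by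
    have h1 : (n : ℝ) ^ κ ≤ (1 / rho b) ^ (t + 1) := by
      calc (n : ℝ) ^ κ = ((n : ℝ) ^ (1 / 2 : ℝ)) ^ (2 * κ) := by
            rw [← Real.rpow_mul hN0.le]; congr 1; ring
        _ ≤ (((K : ℝ) + 2) ^ (t + 1)) ^ (2 * κ) :=
            Real.rpow_le_rpow (by positivity) ht2.le (by linarith)
        _ = (((K : ℝ) + 2) ^ (2 * κ)) ^ (t + 1) := by
            rw [← Real.rpow_natCast, ← Real.rpow_mul (by linarith), ← Real.rpow_natCast,
              ← Real.rpow_mul (by linarith)]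
            congr 1; ring
        _ ≤ (1 / rho b) ^ (t + 1) := pow_le_pow_left₀ (by positivity) hrK _
    have h2 : 0 < (n : ℝ) ^ κ := Real.rpow_pos_of_pos hN0 _
    rw [Real.rpow_neg hN0.le, ← div_eq_mul_inv, le_div_iff₀ h2]
    have h3 : rho b ^ t * (1 / rho b) ^ (t + 1) = 1 / rho b := by
      rw [pow_succ, ← mul_assoc, ← mul_pow, mul_one_div_cancel hr0.ne', one_pow, one_mul]
    calc rho b ^ t * (n : ℝ) ^ κ ≤ rho b ^ t * (1 / rho b) ^ (t + 1) :=
          mul_le_mul_of_nonneg_left h1 (by positivity)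
      _ = 1 / rho b := h3
  have h1 : (n : ℝ) * (k : ℝ) ≤ k * ((n : ℝ) ^ 2 * (n : ℝ) ^ (-κ)) := by
    rw [mul_comm]
    exact mul_le_mul_of_nonneg_left hA (by positivity)
  have h2 : (n : ℝ) * (a * ((K : ℝ) + 2) ^ t) ≤ a * ((n : ℝ) ^ 2 * (n : ℝ) ^ (-κ)) := by
    calc (n : ℝ) * (a * ((K : ℝ) + 2) ^ t) ≤ (n : ℝ) * (a * (n : ℝ) ^ (1 / 2 : ℝ)) := by
          refine mul_le_mul_of_nonneg_left (mul_le_mul_of_nonneg_left ht1 (by positivity)) hN0.le
      _ = a * ((n : ℝ) * (n : ℝ) ^ (1 / 2 : ℝ)) := by ring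
      _ ≤ _ := mul_le_mul_of_nonneg_left hB (by positivity)
  have h3 : (n : ℝ) ^ 2 * rho b ^ t ≤ 1 / rho b * ((n : ℝ) ^ 2 * (n : ℝ) ^ (-κ)) := by
    calc (n : ℝ) ^ 2 * rho b ^ t ≤ (n : ℝ) ^ 2 * (1 / rho b * (n : ℝ) ^ (-κ)) :=
          mul_le_mul_of_nonneg_left hC (by positivity)
      _ = _ := by ring
  nlinarith

end Pool.Agent.V11226.SM
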